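import Pool.Agent.LDK.Cap

/-!
# Conc (difficulty 4): a law on non-edges with small density cannot be completely joined

Uses `cap` (stub). PROOF. L = lg n ≥ 2, p = ∑ e, Λ e ∈ (0, 1], X = the double sum in hX ≤ p^3 / 2^22.
lam v := ∑ e, (if v ∈ e.1 then Λ e else 0).
(1) ∑ v, ∑ w, (if Non x v w then lam v * lam w else 0) ≤ 4 X: expand lam; for fixed e, f the number of (v, w) with
v ∈ e, w ∈ f, Non x v w is at most 4 and is 0 unless the condition of hX holds.
(2) For every pair e choose an endpoint m e ∈ e.1 with lam (m e) ≤ lam u for all u ∈ e.1. For non-edges e (x e = false),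
e = {m e, u}: lam (m e)^2 ≤ lam (m e) * lam u and Non x (m e) u; the map e ↦ (m e, u) is injective. So
∑ e with x e = false, lam (m e)^2 ≤ 4 X.
(3) t := p^2 / 2^19 > 0. Let T = {e : x e = false ∧ lam (m e)^2 ≤ t * Λ e}. Then
∑ e ∉ T, Λ e ≤ (1/t) * ∑ e non-edge, lam (m e)^2 ≤ 4 X / t ≤ 4 p^3 / 2^22 * 2^19 / p^2 = p / 2
(edges have Λ e = 0 by hs; for a non-edge e ∉ T, Λ e < lam (m e)^2 / t). So ∑ e ∈ T, Λ e ≥ p / 2.
(4) μ v := ∑ e ∈ T, (if m e = v then Λ e else 0). Then ∑ v, μ v = ∑ e ∈ T, Λ e =: M ≥ p/2 > 0, 0 ≤ μ v ≤ lam v.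
If μ v ≠ 0 there is e ∈ T with m e = v, so lam v ^ 2 ≤ t * Λ e ≤ t / L^2, lam v ≤ sqrt t / L, and
sqrt t = p / 2^(19/2) ≤ p / 2^9 so μ v ≤ lam v ≤ p / (512 L) ≤ M / (256 L). If μ v = 0 trivial.
(Avoid sqrt: from lam v ^2 ≤ p^2/(2^19 L^2) ≤ (p/(512 L))^2 = p^2/(2^18 L^2) use abs_le_of_sq_le / pow_le_pow_left.)
(5) ∑∑ Non μ μ ≤ ∑∑ Non lam lam ≤ 4 X ≤ p^3 / 2^20 ≤ p^2 / 2^20 ≤ M^2 / 256 (M ≥ p/2).
(6) `cap` gives the contradiction.
-/

namespace LDK

open Finset

variable {n : ℕ}

open Classical in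
/-- every pair has an ordered list of endpoints such that the value of `g` at the first one is smaller -/
theorem conc_end (g : Fin n → ℝ) (e : Pair n) : ∃ a b : Fin n, e.1 = s(a, b) ∧ g a ≤ g b := by
  obtain ⟨e', he⟩ := e
  induction e' using Sym2.ind with
  | _ a b =>
    rcases le_total (g a) (g b) with h | h
    · exact ⟨a, b, rfl, h⟩
    · exact ⟨b, a, Sym2.eq_swap, h⟩

open Classical in
theorem conc_two (e : Pair n) : ∑ v : Fin n, (if v ∈ e.1 then (1 : ℝ) else 0) = 2 := by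
  rw [← Finset.sum_filter, Finset.sum_const, nsmul_eq_mul, mul_one]
  have h1 : (Finset.univ.filter fun v : Fin n => v ∈ e.1) = e.1.toFinset := by
    ext v
    simp [Sym2.mem_toFinset]
  rw [h1, Sym2.card_toFinset_of_not_isDiag _ e.2]
  norm_num

open Classical in
/-- the first step: the double sum over vertices is at most four times the double sum over pairs -/
theorem conc_lam (x : Graph n) (Λ : Pair n → ℝ) (h0 : ∀ e, 0 ≤ Λ e) :
    ∑ v, ∑ w, (if Non x v w then (∑ e : Pair n, (if v ∈ e.1 then Λ e else 0)) *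
      (∑ f : Pair n, (if w ∈ f.1 then Λ f else 0)) else 0) ≤
    4 * ∑ e, ∑ f, (if ∃ v ∈ e.1, ∃ w ∈ f.1, Non x v w then Λ e * Λ f else 0) := by
  have h1 : ∀ v w : Fin n, (if Non x v w then (∑ e : Pair n, (if v ∈ e.1 then Λ e else 0)) *
      (∑ f : Pair n, (if w ∈ f.1 then Λ f else 0)) else 0) =
      ∑ e : Pair n, ∑ f : Pair n, (if Non x v w then (if v ∈ e.1 then Λ e else 0) * (if w ∈ f.1 then Λ f else 0) else 0) := by
    intro v w
    by_cases h : Non x v w
    · simp only [if_pos h]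
      rw [Finset.sum_mul_sum]
    · simp only [if_neg h, Finset.sum_const_zero]
  simp only [h1]
  have h2 : ∑ v : Fin n, ∑ w : Fin n, ∑ e : Pair n, ∑ f : Pair n, (if Non x v w then (if v ∈ e.1 then Λ e else 0) *
      (if w ∈ f.1 then Λ f else 0) else 0) = ∑ e : Pair n, ∑ f : Pair n, ∑ v : Fin n, ∑ w : Fin n,
      (if Non x v w then (if v ∈ e.1 then Λ e else 0) * (if w ∈ f.1 then Λ f else 0) else 0) := by
    calc _ = ∑ v : Fin n, ∑ e : Pair n, ∑ w : Fin n, ∑ f : Pair n, (if Non x v w then (if v ∈ e.1 then Λ e else 0) *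
          (if w ∈ f.1 then Λ f else 0) else 0) := Finset.sum_congr rfl fun v _ => Finset.sum_comm
      _ = ∑ e : Pair n, ∑ v : Fin n, ∑ w : Fin n, ∑ f : Pair n, (if Non x v w then (if v ∈ e.1 then Λ e else 0) *
          (if w ∈ f.1 then Λ f else 0) else 0) := Finset.sum_comm
      _ = ∑ e : Pair n, ∑ v : Fin n, ∑ f : Pair n, ∑ w : Fin n, (if Non x v w then (if v ∈ e.1 then Λ e else 0) *
          (if w ∈ f.1 then Λ f else 0) else 0) :=
          Finset.sum_congr rfl fun e _ => Finset.sum_congr rfl fun v _ => Finset.sum_comm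
      _ = _ := Finset.sum_congr rfl fun e _ => Finset.sum_comm
  rw [h2, Finset.mul_sum]
  refine Finset.sum_le_sum fun e _ => ?_
  rw [Finset.mul_sum]
  refine Finset.sum_le_sum fun f _ => ?_
  by_cases hE : ∃ v ∈ e.1, ∃ w ∈ f.1, Non x v w
  · rw [if_pos hE]
    have h3 : ∀ v w : Fin n, (if Non x v w then (if v ∈ e.1 then Λ e else 0) * (if w ∈ f.1 then Λ f else 0) else 0) ≤
        Λ e * Λ f * ((if v ∈ e.1 then (1 : ℝ) else 0) * (if w ∈ f.1 then (1 : ℝ) else 0)) := by
      intro v w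
      have h4 := mul_nonneg (h0 e) (h0 f)
      split_ifs <;> simp <;> linarith
    calc _ ≤ ∑ v : Fin n, ∑ w : Fin n, Λ e * Λ f * ((if v ∈ e.1 then (1 : ℝ) else 0) * (if w ∈ f.1 then (1 : ℝ) else 0)) :=
          Finset.sum_le_sum fun v _ => Finset.sum_le_sum fun w _ => h3 v w
      _ = Λ e * Λ f * ((∑ v : Fin n, (if v ∈ e.1 then (1 : ℝ) else 0)) * (∑ w : Fin n, (if w ∈ f.1 then (1 : ℝ) else 0))) := by
          rw [Finset.sum_mul_sum, Finset.mul_sum]
          refine Finset.sum_congr rfl fun v _ => ?_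
          rw [Finset.mul_sum]
      _ ≤ 4 * (Λ e * Λ f) := by
          rw [conc_two, conc_two]
          linarith
  · rw [if_neg hE, mul_zero]
    push Not at hE
    refine (Finset.sum_eq_zero fun v _ => Finset.sum_eq_zero fun w _ => ?_).le
    by_cases hv : v ∈ e.1
    · by_cases hw : w ∈ f.1
      · rw [if_neg (hE v hv w hw)]
      · simp [hw]
    · simp [hv]

open Classical in
theorem conc (hn : 4 ≤ n) (x : Graph n) (hx : Typ x) (Λ : Pair n → ℝ) (h0 : ∀ e, 0 ≤ Λ e)
    (hτ : ∀ e, Λ e ≤ 1 / (lg n) ^ 2) (hs : ∀ e, x e = true → Λ e = 0)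
    (hp : 0 < ∑ e, Λ e) (hp1 : ∑ e, Λ e ≤ 1)
    (hX : ∑ e, ∑ f, (if ∃ v ∈ e.1, ∃ w ∈ f.1, Non x v w then Λ e * Λ f else 0) ≤
      (∑ e, Λ e) ^ 3 / 2 ^ 22) : False := by
  set p : ℝ := ∑ e, Λ e with hpdef
  set lam : Fin n → ℝ := fun v => ∑ e : Pair n, (if v ∈ e.1 then Λ e else 0) with hlam
  have hlam0 : ∀ v, 0 ≤ lam v := fun v => Finset.sum_nonneg fun e _ => by split_ifs; exacts [h0 e, le_rfl]
  have hL : 0 < lg n := Real.logb_pos (by norm_num) (by exact_mod_cast (by omega : 1 < n))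
  have hX4 : ∑ v, ∑ w, (if Non x v w then lam v * lam w else 0) ≤ p ^ 3 / 2 ^ 20 := by
    have h1 := conc_lam x Λ h0
    have h2 : (4 : ℝ) * (p ^ 3 / 2 ^ 22) = p ^ 3 / 2 ^ 20 := by norm_num; ring
    calc _ ≤ _ := h1
      _ ≤ 4 * (p ^ 3 / 2 ^ 22) := mul_le_mul_of_nonneg_left hX (by norm_num)
      _ = _ := h2
  choose m u hmu hle using conc_end lam
  have hm : ∀ e : Pair n, m e ∈ e.1 := fun e => by rw [hmu e]; exact Sym2.mem_mk_left _ _
  have hg0 : ∀ q : Fin n × Fin n, 0 ≤ (if Non x q.1 q.2 then lam q.1 * lam q.2 else 0) := by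
    intro q
    split_ifs
    · exact mul_nonneg (hlam0 _) (hlam0 _)
    · exact le_rfl
  have hsum2 : ∑ e ∈ Finset.univ.filter (fun e : Pair n => x e = false), lam (m e) ^ 2 ≤ p ^ 3 / 2 ^ 20 := by
    calc _ ≤ ∑ e ∈ Finset.univ.filter (fun e : Pair n => x e = false),
          (fun q : Fin n × Fin n => if Non x q.1 q.2 then lam q.1 * lam q.2 else 0) (m e, u e) := by
          refine Finset.sum_le_sum fun e he => ?_
          have h1 : Non x (m e) (u e) := ⟨e, hmu e, (Finset.mem_filter.mp he).2⟩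
          simp only [if_pos h1]
          nlinarith [hlam0 (m e), hle e]
      _ = ∑ q ∈ (Finset.univ.filter (fun e : Pair n => x e = false)).image (fun e => (m e, u e)),
          (if Non x q.1 q.2 then lam q.1 * lam q.2 else 0) := by
          rw [Finset.sum_image]
          intro e _ f _ hef
          simp only [Prod.mk.injEq] at hef
          apply Subtype.ext
          rw [hmu e, hmu f, hef.1, hef.2]
      _ ≤ ∑ q : Fin n × Fin n, (if Non x q.1 q.2 then lam q.1 * lam q.2 else 0) :=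
          Finset.sum_le_sum_of_subset_of_nonneg (Finset.subset_univ _) fun q _ _ => hg0 q
      _ = ∑ v, ∑ w, (if Non x v w then lam v * lam w else 0) := by
          rw [Fintype.sum_prod_type]
      _ ≤ _ := hX4
  set t : ℝ := p ^ 2 / 2 ^ 19 with ht
  have ht0 : 0 < t := by positivity
  set T : Finset (Pair n) := Finset.univ.filter (fun e => x e = false ∧ lam (m e) ^ 2 ≤ t * Λ e) with hT
  have hTc : t * ∑ e ∈ Finset.univ.filter (fun e : Pair n => ¬ (x e = false ∧ lam (m e) ^ 2 ≤ t * Λ e)), Λ e ≤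
      p ^ 3 / 2 ^ 20 := by
    refine le_trans ?_ hsum2
    rw [Finset.mul_sum, Finset.sum_filter, Finset.sum_filter]
    refine Finset.sum_le_sum fun e _ => ?_
    by_cases hx1 : x e = false
    · rw [if_pos hx1]
      by_cases h2 : lam (m e) ^ 2 ≤ t * Λ e
      · rw [if_neg (not_not.mpr ⟨hx1, h2⟩)]
        positivity
      · rw [if_pos (fun h3 => h2 h3.2)]
        exact (not_le.mp h2).le
    · have h3 : Λ e = 0 := hs e (by simpa using hx1)
      rw [if_neg hx1, h3, mul_zero, ite_self]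
  have hsplit := Finset.sum_filter_add_sum_filter_not (Finset.univ : Finset (Pair n))
    (fun e => x e = false ∧ lam (m e) ^ 2 ≤ t * Λ e) Λ
  have hM : p / 2 ≤ ∑ e ∈ T, Λ e := by
    have h1 : ∑ e ∈ Finset.univ.filter (fun e : Pair n => ¬ (x e = false ∧ lam (m e) ^ 2 ≤ t * Λ e)), Λ e ≤ p / 2 := by
      have h2 : t * (p / 2) = p ^ 3 / 2 ^ 20 := by rw [ht]; norm_num; ring
      rw [← h2] at hTc
      exact le_of_mul_le_mul_left hTc ht0
    linarith
  set μ : Fin n → ℝ := fun v => ∑ e ∈ T, (if m e = v then Λ e else 0) with hμ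
  have hμsum : ∑ v, μ v = ∑ e ∈ T, Λ e := by
    rw [hμ]
    rw [Finset.sum_comm]
    refine Finset.sum_congr rfl fun e _ => ?_
    rw [Finset.sum_ite_eq]
    simp
  have hμ0 : ∀ v, 0 ≤ μ v := fun v => Finset.sum_nonneg fun e _ => by split_ifs; exacts [h0 e, le_rfl]
  have hμlam : ∀ v, μ v ≤ lam v := by
    intro v
    calc μ v ≤ ∑ e ∈ T, (if v ∈ e.1 then Λ e else 0) := by
          refine Finset.sum_le_sum fun e _ => ?_
          by_cases h1 : m e = v
          · rw [if_pos h1, if_pos (h1 ▸ hm e)]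
          · rw [if_neg h1]
            split_ifs
            · exact h0 e
            · exact le_rfl
      _ ≤ _ := Finset.sum_le_sum_of_subset_of_nonneg (Finset.subset_univ _) fun e _ _ => by
          split_ifs
          · exact h0 e
          · exact le_rfl
  have hMpos : 0 < ∑ v, μ v := by rw [hμsum]; linarith
  refine cap hn x hx μ hμ0 hMpos ?_ ?_
  · intro v
    rw [hμsum]
    by_cases hv : μ v = 0
    · rw [hv]
      have : 0 ≤ ∑ e ∈ T, Λ e := by linarith
      positivity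
    · obtain ⟨e, heT, he⟩ := Finset.exists_ne_zero_of_sum_ne_zero hv
      have hme : m e = v := by
        by_contra h1
        rw [if_neg h1] at he
        exact he rfl
      have h1 : lam v ^ 2 ≤ t * Λ e := by
        have h2 := (Finset.mem_filter.mp heT).2.2
        rw [hme] at h2
        exact h2
      have h2 : t * Λ e ≤ (p / (512 * lg n)) ^ 2 := by
        calc t * Λ e ≤ t * (1 / (lg n) ^ 2) := mul_le_mul_of_nonneg_left (hτ e) ht0.le
          _ = p ^ 2 / (lg n) ^ 2 / 2 ^ 19 := by rw [ht]; ring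
          _ ≤ p ^ 2 / (lg n) ^ 2 / 2 ^ 18 := by
              have h5 : 0 ≤ p ^ 2 / (lg n) ^ 2 := by positivity
              linarith
          _ = _ := by
              rw [div_pow, mul_pow]
              norm_num
              ring
      have h3 : lam v ≤ p / (512 * lg n) :=
        le_of_sq_le_sq (h1.trans h2) (by positivity)
      calc μ v ≤ lam v := hμlam v
        _ ≤ p / (512 * lg n) := h3
        _ = (p / 2) / (256 * lg n) := by ring
        _ ≤ _ := by
            apply div_le_div_of_nonneg_right hM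
            positivity
  · rw [hμsum]
    calc ∑ v, ∑ w, (if Non x v w then μ v * μ w else 0) ≤ ∑ v, ∑ w, (if Non x v w then lam v * lam w else 0) := by
          refine Finset.sum_le_sum fun v _ => Finset.sum_le_sum fun w _ => ?_
          split_ifs
          · exact mul_le_mul (hμlam v) (hμlam w) (hμ0 w) (hlam0 v)
          · exact le_rfl
      _ ≤ p ^ 3 / 2 ^ 20 := hX4
      _ ≤ p ^ 2 / 2 ^ 20 := by
          have h1 : p ^ 3 ≤ p ^ 2 := by nlinarith [sq_nonneg p]
          linarith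
      _ ≤ (p / 2) ^ 2 / 256 := by nlinarith [sq_nonneg p]
      _ ≤ _ := by
          have h1 : (p / 2) ^ 2 ≤ (∑ e ∈ T, Λ e) ^ 2 := pow_le_pow_left₀ (by linarith) hM 2
          linarith

end LDK
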