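import Pool.Agent.LDK.Basic

/-!
# Pick (difficulty 1): averaging

PROOF. Otherwise for every x: p x ≤ p0/2 + X x / θ + (if T x then 0 else 1): if ¬ T x use p x ≤ 1; if T x and p x < p0/2 clear;
if T x, p0/2 ≤ p x then X x > θ so X x / θ > 1 ≥ p x. Average: p0 ≤ p0/2 + (θ p0/4)/θ + avg(...) < p0/2 + p0/4 + p0/4.
-/

namespace LDK

open Finset

variable {n : ℕ}

open Classical in
theorem pick (p X : Graph n → ℝ) (T : Graph n → Prop) (p0 θ : ℝ) (h0 : 0 < p0) (hθ : 0 < θ)
    (hp1 : ∀ x, p x ≤ 1) (hX0 : ∀ x, 0 ≤ X x) (hp : p0 ≤ avg p) (hX : avg X ≤ θ * p0 / 4)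
    (hT : avg (fun x => if T x then (0 : ℝ) else 1) < p0 / 4) :
    ∃ x, T x ∧ p0 / 2 ≤ p x ∧ X x ≤ θ := by
  by_contra hcon
  push Not at hcon
  have h1 : ∀ x, p x ≤ p0 / 2 + (1 / θ * X x + (if T x then (0 : ℝ) else 1)) := by
    intro x
    have hx0 := hX0 x
    have h2 : 0 ≤ 1 / θ * X x := by positivity
    by_cases hTx : T x
    · rw [if_pos hTx]
      by_cases hpx : p0 / 2 ≤ p x
      · have h3 := hcon x hTx hpx
        have h4 : 1 ≤ 1 / θ * X x := by
          rw [div_mul_eq_mul_div, one_mul, le_div_iff₀ hθ]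
          linarith
        have := hp1 x
        linarith
      · push Not at hpx
        linarith
    · rw [if_neg hTx]
      have := hp1 x
      linarith
  have h5 := avg_mono h1
  rw [avg_add, avg_add, avg_const, avg_mul_left] at h5
  have h6 : 1 / θ * avg X ≤ p0 / 4 := by
    have h7 : 1 / θ * avg X ≤ 1 / θ * (θ * p0 / 4) := by
      apply mul_le_mul_of_nonneg_left hX
      positivity
    have h8 : 1 / θ * (θ * p0 / 4) = p0 / 4 := by
      field_simp
    linarith
  linarith

end LDK
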