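import Pool.Agent.LDK.Basic

/-!
# Bc (difficulty 4): created pairs are rarely joined by a third created pair

PROOF. Write z = flip (flip x F) G. For fixed F, G the average over x of a function of z is the average over z (avg_flip twice:
avg (fun x => φ (flip (flip x F) G)) = avg φ). So it suffices to show for every fixed z, with A = K z, |A| ≤ κ:
∑ F, ∑ G, rho F * rho G * [∃ e f p ∈ inside A, F e, G f, (F p ∨ G p), ∃ v ∈ e, w ∈ f, p = s(v, w)] ≤ 2 (κ^4 τ^3 + κ^3 τ^2).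
Write e = s(v, a), f = s(w, b) with v, a, w, b ∈ A, a ≠ v, b ≠ w, v ≠ w (Sym2.mem_iff_exists / Sym2 induction).
The indicator is ≤ ∑ over (v, a, w, b) ∈ A^4 with v ≠ a, w ≠ b, v ≠ w of
[F va][G wb][F vw] + [F va][G wb][G vw]. (v w denotes the pair ⟨s(v,w), _⟩.)
First term: ∑ over G gives τ (rho_one), ∑ over F of [F va][F vw] is τ^2 if a ≠ w (two different pairs, rho_on for the set of
two elements) and τ if a = w. So the sum over (v,a,w,b) is ≤ κ^4 τ^3 + κ^3 τ^2. Second term: symmetric (b = v is the special case).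
-/

namespace LDK

open Finset

variable {n : ℕ}

/-- the pair of `v`, `w` is in `F` -/
def bcOn (F : Graph n) (v w : Fin n) : Prop := ∃ e : Pair n, e.1 = s(v, w) ∧ F e = true

theorem bcOn_ne {F : Graph n} {v w : Fin n} (h : bcOn F v w) : v ≠ w := by
  obtain ⟨e, he, _⟩ := h
  intro hvw
  apply e.2
  rw [he, hvw]
  exact Sym2.mk_isDiag_iff.mpr rfl

theorem bcOn_iff {F : Graph n} {v w : Fin n} (h : ¬ (s(v, w) : Sym2 (Fin n)).IsDiag) :
    bcOn F v w ↔ F ⟨s(v, w), h⟩ = true := by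
  constructor
  · rintro ⟨e, he, hF⟩
    have h1 : e = ⟨s(v, w), h⟩ := Subtype.ext he
    rw [← h1]
    exact hF
  · intro hF
    exact ⟨_, rfl, hF⟩

open Classical in
theorem bc_one {τ : ℝ} (h0 : 0 ≤ τ) (v a : Fin n) :
    ∑ F : Graph n, rho τ F * (if bcOn F v a then (1 : ℝ) else 0) ≤ τ := by
  by_cases hva : v = a
  · refine le_trans (Finset.sum_eq_zero fun F _ => ?_).le h0
    rw [if_neg (fun h => bcOn_ne h hva), mul_zero]
  · have hd : ¬ (s(v, a) : Sym2 (Fin n)).IsDiag := fun h => hva (Sym2.mk_isDiag_iff.mp h)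
    have h1 := rho_one (n := n) τ ⟨s(v, a), hd⟩
    refine le_trans (Finset.sum_le_sum fun F _ => ?_) h1.le
    simp only [bcOn_iff hd]
    exact le_rfl

open Classical in
theorem bc_two {τ : ℝ} (h0 : 0 ≤ τ) (v a w : Fin n) (haw : a ≠ w) :
    ∑ F : Graph n, rho τ F * (if bcOn F v a ∧ bcOn F v w then (1 : ℝ) else 0) ≤ τ ^ 2 := by
  by_cases hva : v = a
  · refine le_trans (Finset.sum_eq_zero fun F _ => ?_).le (by positivity)
    rw [if_neg (fun h => bcOn_ne h.1 hva), mul_zero]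
  by_cases hvw : v = w
  · refine le_trans (Finset.sum_eq_zero fun F _ => ?_).le (by positivity)
    rw [if_neg (fun h => bcOn_ne h.2 hvw), mul_zero]
  have hd : ¬ (s(v, a) : Sym2 (Fin n)).IsDiag := fun h => hva (Sym2.mk_isDiag_iff.mp h)
  have hd' : ¬ (s(v, w) : Sym2 (Fin n)).IsDiag := fun h => hvw (Sym2.mk_isDiag_iff.mp h)
  have hne : (⟨s(v, a), hd⟩ : Pair n) ≠ ⟨s(v, w), hd'⟩ := by
    intro h
    have h2 : (s(v, a) : Sym2 (Fin n)) = s(v, w) := congrArg Subtype.val h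
    rw [Sym2.congr_right] at h2
    exact haw h2
  have h1 := rho_on (n := n) τ {⟨s(v, a), hd⟩, ⟨s(v, w), hd'⟩}
  rw [Finset.card_pair hne] at h1
  refine le_trans (Finset.sum_le_sum fun F _ => ?_) h1.le
  have h3 : (bcOn F v a ∧ bcOn F v w) ↔ ∀ e ∈ ({⟨s(v, a), hd⟩, ⟨s(v, w), hd'⟩} : Finset (Pair n)), F e = true := by
    rw [bcOn_iff hd, bcOn_iff hd']
    simp
  simp only [h3]
  exact le_rfl

open Classical in
theorem bc_three {τ : ℝ} (h0 : 0 ≤ τ) (h1 : τ ≤ 1) (v a w : Fin n) :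
    ∑ F : Graph n, rho τ F * (if bcOn F v a ∧ bcOn F v w then (1 : ℝ) else 0) ≤ τ ^ 2 + τ * (if a = w then 1 else 0) := by
  by_cases haw : a = w
  · rw [if_pos haw, mul_one]
    have h2 : ∑ F : Graph n, rho τ F * (if bcOn F v a ∧ bcOn F v w then (1 : ℝ) else 0) ≤ τ := by
      refine le_trans (Finset.sum_le_sum fun F _ => ?_) (bc_one h0 v a)
      refine mul_le_mul_of_nonneg_left ?_ (rho_nonneg h0 h1 F)
      by_cases h3 : bcOn F v a
      · rw [if_pos h3]
        split_ifs <;> norm_num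
      · rw [if_neg h3, if_neg (fun h => h3 h.1)]
    nlinarith [sq_nonneg τ]
  · rw [if_neg haw, mul_zero, add_zero]
    exact bc_two h0 v a w haw

open Classical in
/-- the four vertices of the two pairs -/
noncomputable def bcT (F G : Graph n) (q : Fin n × Fin n × Fin n × Fin n) : ℝ :=
  (if bcOn F q.1 q.2.1 ∧ bcOn F q.1 q.2.2.1 then (1 : ℝ) else 0) * (if bcOn G q.2.2.1 q.2.2.2 then (1 : ℝ) else 0) +
  (if bcOn F q.1 q.2.1 then (1 : ℝ) else 0) * (if bcOn G q.2.2.1 q.2.2.2 ∧ bcOn G q.2.2.1 q.1 then (1 : ℝ) else 0)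

theorem bcT_nonneg (F G : Graph n) (q : Fin n × Fin n × Fin n × Fin n) : 0 ≤ bcT F G q := by
  unfold bcT
  positivity

open Classical in
theorem bcT_ind (F G : Graph n) (A : Finset (Fin n)) :
    (if ∃ e f p : Pair n, e ∈ inside A ∧ f ∈ inside A ∧ p ∈ inside A ∧ F e = true ∧ G f = true ∧
      (F p = true ∨ G p = true) ∧ ∃ v ∈ e.1, ∃ w ∈ f.1, p.1 = s(v, w) then (1 : ℝ) else 0) ≤
      ∑ q ∈ A ×ˢ A ×ˢ A ×ˢ A, bcT F G q := by
  split_ifs with h
  · obtain ⟨e, f, p, he, hf, hp, hFe, hGf, hFG, v, hv, w, hw, hpe⟩ := h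
    obtain ⟨a, ha⟩ := Sym2.mem_iff_exists.mp hv
    obtain ⟨b, hb⟩ := Sym2.mem_iff_exists.mp hw
    rw [mem_inside] at he hf
    have hvA : v ∈ A := he v hv
    have hwA : w ∈ A := hf w hw
    have haA : a ∈ A := he a (by rw [ha]; exact Sym2.mem_mk_right _ _)
    have hbA : b ∈ A := hf b (by rw [hb]; exact Sym2.mem_mk_right _ _)
    have h1 : bcOn F v a := ⟨e, ha, hFe⟩
    have h2 : bcOn G w b := ⟨f, hb, hGf⟩
    have h3 : (1 : ℝ) ≤ bcT F G (v, a, w, b) := by
      unfold bcT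
      simp only
      rcases hFG with h4 | h4
      · have h5 : bcOn F v w := ⟨p, hpe, h4⟩
        rw [if_pos ⟨h1, h5⟩, if_pos h2, if_pos h1]
        split_ifs <;> norm_num
      · have h5 : bcOn G w v := ⟨p, by rw [hpe, Sym2.eq_swap], h4⟩
        rw [if_pos h2, if_pos h1, if_pos (show bcOn G w b ∧ bcOn G w v from ⟨h2, h5⟩)]
        split_ifs <;> norm_num
    refine h3.trans (Finset.single_le_sum (fun q _ => bcT_nonneg F G q) ?_)
    simp only [Finset.mem_product]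
    exact ⟨hvA, haA, hwA, hbA⟩
  · exact Finset.sum_nonneg fun q _ => bcT_nonneg F G q

open Classical in
theorem bcT_sum {τ : ℝ} (h0 : 0 ≤ τ) (h1 : τ ≤ 1) (q : Fin n × Fin n × Fin n × Fin n) :
    ∑ F : Graph n, ∑ G : Graph n, rho τ F * rho τ G * bcT F G q ≤
      2 * τ ^ 3 + τ ^ 2 * ((if q.2.1 = q.2.2.1 then 1 else 0) + (if q.2.2.2 = q.1 then 1 else 0)) := by
  have h2 : ∑ F : Graph n, ∑ G : Graph n, rho τ F * rho τ G * bcT F G q =
      (∑ F : Graph n, rho τ F * (if bcOn F q.1 q.2.1 ∧ bcOn F q.1 q.2.2.1 then (1 : ℝ) else 0)) *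
      (∑ G : Graph n, rho τ G * (if bcOn G q.2.2.1 q.2.2.2 then (1 : ℝ) else 0)) +
      (∑ F : Graph n, rho τ F * (if bcOn F q.1 q.2.1 then (1 : ℝ) else 0)) *
      (∑ G : Graph n, rho τ G * (if bcOn G q.2.2.1 q.2.2.2 ∧ bcOn G q.2.2.1 q.1 then (1 : ℝ) else 0)) := by
    rw [Finset.sum_mul_sum, Finset.sum_mul_sum, ← Finset.sum_add_distrib]
    refine Finset.sum_congr rfl fun F _ => ?_
    rw [← Finset.sum_add_distrib]
    refine Finset.sum_congr rfl fun G _ => ?_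
    unfold bcT
    ring
  have hn : ∀ (p : Graph n → Prop) [DecidablePred p], 0 ≤ ∑ F : Graph n, rho τ F * (if p F then (1 : ℝ) else 0) :=
    fun p _ => Finset.sum_nonneg fun F _ => mul_nonneg (rho_nonneg h0 h1 F) (by split_ifs <;> norm_num)
  rw [h2]
  have h3 := mul_le_mul (bc_three h0 h1 q.1 q.2.1 q.2.2.1) (bc_one h0 q.2.2.1 q.2.2.2) (hn _)
    (by split_ifs <;> positivity)
  have h4 := mul_le_mul (bc_one h0 q.1 q.2.1) (bc_three h0 h1 q.2.2.1 q.2.2.2 q.1) (hn _) h0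
  refine (add_le_add h3 h4).trans (le_of_eq ?_)
  ring

open Classical in
theorem bc_fix {τ κ : ℝ} (h0 : 0 ≤ τ) (h1 : τ ≤ 1) (A : Finset (Fin n)) (hκ : (A.card : ℝ) ≤ κ) :
    ∑ F : Graph n, ∑ G : Graph n, rho τ F * rho τ G *
      (if ∃ e f p : Pair n, e ∈ inside A ∧ f ∈ inside A ∧ p ∈ inside A ∧ F e = true ∧ G f = true ∧
        (F p = true ∨ G p = true) ∧ ∃ v ∈ e.1, ∃ w ∈ f.1, p.1 = s(v, w) then (1 : ℝ) else 0) ≤
      2 * (κ ^ 4 * τ ^ 3 + κ ^ 3 * τ ^ 2) := by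
  have hA0 : (0 : ℝ) ≤ A.card := Nat.cast_nonneg _
  calc _ ≤ ∑ F : Graph n, ∑ G : Graph n, rho τ F * rho τ G * ∑ q ∈ A ×ˢ A ×ˢ A ×ˢ A, bcT F G q := by
        refine Finset.sum_le_sum fun F _ => Finset.sum_le_sum fun G _ => ?_
        exact mul_le_mul_of_nonneg_left (bcT_ind F G A) (mul_nonneg (rho_nonneg h0 h1 F) (rho_nonneg h0 h1 G))
    _ = ∑ q ∈ A ×ˢ A ×ˢ A ×ˢ A, ∑ F : Graph n, ∑ G : Graph n, rho τ F * rho τ G * bcT F G q := by
        rw [Finset.sum_comm (s := A ×ˢ A ×ˢ A ×ˢ A)]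
        refine Finset.sum_congr rfl fun F _ => ?_
        rw [Finset.sum_comm (s := A ×ˢ A ×ˢ A ×ˢ A)]
        refine Finset.sum_congr rfl fun G _ => ?_
        rw [Finset.mul_sum]
    _ ≤ ∑ q ∈ A ×ˢ A ×ˢ A ×ˢ A, (2 * τ ^ 3 + τ ^ 2 * ((if q.2.1 = q.2.2.1 then (1 : ℝ) else 0) +
          (if q.2.2.2 = q.1 then (1 : ℝ) else 0))) := Finset.sum_le_sum fun q _ => bcT_sum h0 h1 q
    _ = 2 * ((A.card : ℝ) ^ 4 * τ ^ 3 + (A.card : ℝ) ^ 3 * τ ^ 2) := by
        have e1 : ∑ q ∈ A ×ˢ A ×ˢ A ×ˢ A, (if q.2.1 = q.2.2.1 then (1 : ℝ) else 0) = (A.card : ℝ) ^ 3 := by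
          calc _ = ∑ v ∈ A, ∑ a ∈ A, ∑ w ∈ A, ∑ b ∈ A, (if a = w then (1 : ℝ) else 0) := by
                rw [Finset.sum_product]
                refine Finset.sum_congr rfl fun v _ => ?_
                rw [Finset.sum_product]
                refine Finset.sum_congr rfl fun a _ => ?_
                rw [Finset.sum_product]
            _ = ∑ v ∈ A, ∑ a ∈ A, (A.card : ℝ) := by
                refine Finset.sum_congr rfl fun v _ => Finset.sum_congr rfl fun a ha => ?_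
                rw [Finset.sum_comm]
                simp only [Finset.sum_ite_eq, if_pos ha, Finset.sum_const, nsmul_eq_mul, mul_one]
            _ = _ := by
                simp only [Finset.sum_const, nsmul_eq_mul]
                ring
        have e2 : ∑ q ∈ A ×ˢ A ×ˢ A ×ˢ A, (if q.2.2.2 = q.1 then (1 : ℝ) else 0) = (A.card : ℝ) ^ 3 := by
          calc _ = ∑ v ∈ A, ∑ a ∈ A, ∑ w ∈ A, ∑ b ∈ A, (if b = v then (1 : ℝ) else 0) := by
                rw [Finset.sum_product]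
                refine Finset.sum_congr rfl fun v _ => ?_
                rw [Finset.sum_product]
                refine Finset.sum_congr rfl fun a _ => ?_
                rw [Finset.sum_product]
            _ = ∑ v ∈ A, ∑ a ∈ A, ∑ w ∈ A, (1 : ℝ) := by
                refine Finset.sum_congr rfl fun v hv => Finset.sum_congr rfl fun a _ => Finset.sum_congr rfl fun w _ => ?_
                rw [Finset.sum_ite_eq', if_pos hv]
            _ = _ := by
                simp only [Finset.sum_const, nsmul_eq_mul]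
                ring
        rw [Finset.sum_add_distrib, Finset.sum_const, ← Finset.mul_sum, Finset.sum_add_distrib, e1, e2]
        simp only [Finset.card_product, nsmul_eq_mul]
        push_cast
        ring
    _ ≤ _ := by
        have e3 := pow_le_pow_left₀ hA0 hκ 4
        have e4 := pow_le_pow_left₀ hA0 hκ 3
        have e5 : 0 ≤ τ ^ 3 := by positivity
        have e6 : 0 ≤ τ ^ 2 := by positivity
        nlinarith [mul_le_mul_of_nonneg_right e3 e5, mul_le_mul_of_nonneg_right e4 e6]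

open Classical in
theorem bndC {τ κ : ℝ} (h0 : 0 ≤ τ) (h1 : τ ≤ 1) (K : Graph n → Finset (Fin n))
    (hκ : ∀ g, ((K g).card : ℝ) ≤ κ) :
    avg (fun x : Graph n => ∑ F : Graph n, ∑ G : Graph n, rho τ F * rho τ G *
      (if ∃ e f p : Pair n, e ∈ inside (K (flip (flip x F) G)) ∧
          f ∈ inside (K (flip (flip x F) G)) ∧ p ∈ inside (K (flip (flip x F) G)) ∧
          F e = true ∧ G f = true ∧ (F p = true ∨ G p = true) ∧
          ∃ v ∈ e.1, ∃ w ∈ f.1, p.1 = s(v, w)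
        then 1 else 0)) ≤
      2 * (κ ^ 4 * τ ^ 3 + κ ^ 3 * τ ^ 2) := by
  set φ : Graph n → Graph n → Graph n → ℝ := fun F G z =>
    (if ∃ e f p : Pair n, e ∈ inside (K z) ∧ f ∈ inside (K z) ∧ p ∈ inside (K z) ∧ F e = true ∧ G f = true ∧
        (F p = true ∨ G p = true) ∧ ∃ v ∈ e.1, ∃ w ∈ f.1, p.1 = s(v, w) then (1 : ℝ) else 0) with hφ
  have h2 : avg (fun x : Graph n => ∑ F : Graph n, ∑ G : Graph n, rho τ F * rho τ G * φ F G (flip (flip x F) G)) =
      avg (fun z : Graph n => ∑ F : Graph n, ∑ G : Graph n, rho τ F * rho τ G * φ F G z) := by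
    rw [avg_sum, avg_sum]
    refine Finset.sum_congr rfl fun F _ => ?_
    rw [avg_sum, avg_sum]
    refine Finset.sum_congr rfl fun G _ => ?_
    rw [avg_mul_left, avg_mul_left]
    congr 1
    rw [avg_flip (fun y => φ F G (flip y G)) F, avg_flip (φ F G) G]
  calc _ = avg (fun x : Graph n => ∑ F : Graph n, ∑ G : Graph n, rho τ F * rho τ G * φ F G (flip (flip x F) G)) := rfl
    _ = avg (fun z : Graph n => ∑ F : Graph n, ∑ G : Graph n, rho τ F * rho τ G * φ F G z) := h2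
    _ ≤ avg (fun _ : Graph n => 2 * (κ ^ 4 * τ ^ 3 + κ ^ 3 * τ ^ 2)) := avg_mono fun z => bc_fix h0 h1 (K z) (hκ z)
    _ = _ := avg_const _

end LDK
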