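import Pool.Agent.LDK.Bb
import Pool.Agent.LDK.Bc

/-!
# Xb (difficulty 3): two independent created pairs are completely joined

Uses bndB, bndC (stubs). PROOF. For fixed x:
∑ e f, [∃ v ∈ e, w ∈ f, Non x v w] lam x e * lam x f = ∑ F, ∑ G, rho F * rho G * [∃ e f, first K (flip x F) F = some e ∧
first K (flip x G) G = some f ∧ ∃ v ∈ e.1, ∃ w ∈ f.1, Non x v w] (expand lam, swap sums; for given F, G at most one pair (e, f)).
Let z = flip (flip x F) G = flip (flip x G) F (flip_comm). The last indicator is at most I1 + I2 + I3, where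
I1 = [∃ e, first K (flip x F) F = some e ∧ ∃ v ∈ e.1, v ∉ K (flip (flip x F) G)],
I2 = [∃ f, first K (flip x G) G = some f ∧ ∃ w ∈ f.1, w ∉ K (flip (flip x G) F)], I3 = the indicator of bndC:
if I1 = I2 = 0 then all endpoints of e, f lie in K z, so e, f ∈ inside (K z); F e = true, G f = true by first_some; let
p be the pair with p.1 = s(v, w), x p = false (Non); p ∈ inside (K z), K z is a clique of z, so z p = true, hence F p or G p.
avg of I1 part: bndB; of I2 part: bndB after renaming F, G (sum_comm, mul_comm of the weights); of I3: bndC.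
-/

namespace LDK

open Finset

variable {n : ℕ}

open Classical in
/-- the first indicator -/
noncomputable def xb_I (K : Graph n → Finset (Fin n)) (x F G : Graph n) : ℝ :=
  if ∃ e : Pair n, first K (flip x F) F = some e ∧ ∃ v ∈ e.1, v ∉ K (flip (flip x F) G) then 1 else 0

open Classical in
/-- the third indicator -/
noncomputable def xb_J (K : Graph n → Finset (Fin n)) (x F G : Graph n) : ℝ :=
  if ∃ e f p : Pair n, e ∈ inside (K (flip (flip x F) G)) ∧
          f ∈ inside (K (flip (flip x F) G)) ∧ p ∈ inside (K (flip (flip x F) G)) ∧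
          F e = true ∧ G f = true ∧ (F p = true ∨ G p = true) ∧
          ∃ v ∈ e.1, ∃ w ∈ f.1, p.1 = s(v, w)
        then 1 else 0

theorem xb_I0 (K : Graph n → Finset (Fin n)) (x F G : Graph n) : 0 ≤ xb_I K x F G := by
  unfold xb_I
  split_ifs <;> norm_num

theorem xb_J0 (K : Graph n → Finset (Fin n)) (x F G : Graph n) : 0 ≤ xb_J K x F G := by
  unfold xb_J
  split_ifs <;> norm_num

open Classical in
/-- the indicator for given `F`, `G` -/
noncomputable def xb_S (K : Graph n → Finset (Fin n)) (x F G : Graph n) : ℝ :=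
  ∑ e : Pair n, ∑ f : Pair n, (if ∃ v ∈ e.1, ∃ w ∈ f.1, Non x v w then
    (if first K (flip x F) F = some e then 1 else 0) * (if first K (flip x G) G = some f then 1 else 0)
      else 0)

theorem xb_pt (K : Graph n → Finset (Fin n)) (hK : ∀ g, IsClique g (K g)) (x F G : Graph n) :
    xb_S K x F G ≤ xb_I K x F G + xb_I K x G F + xb_J K x F G := by
  classical
  have hnn : 0 ≤ xb_I K x F G + xb_I K x G F + xb_J K x F G :=
    add_nonneg (add_nonneg (xb_I0 K x F G) (xb_I0 K x G F)) (xb_J0 K x F G)
  unfold xb_S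
  rcases hF : first K (flip x F) F with _ | e0
  · simp
    exact hnn
  rcases hG : first K (flip x G) G with _ | f0
  · simp
    exact hnn
  have hs : (∑ e : Pair n, ∑ f : Pair n, (if ∃ v ∈ e.1, ∃ w ∈ f.1, Non x v w then
      (if some e0 = some e then (1 : ℝ) else 0) * (if some f0 = some f then 1 else 0) else 0)) =
      if ∃ v ∈ e0.1, ∃ w ∈ f0.1, Non x v w then (1 : ℝ) else 0 := by
    rw [sum_eq_single e0, sum_eq_single f0]
    · simp
    · intro f _ hf
      rw [if_neg (fun h : some f0 = some f => hf (Option.some.inj h).symm)]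
      simp
    · intro h
      exact absurd (mem_univ _) h
    · intro e _ he
      rw [if_neg (fun h : some e0 = some e => he (Option.some.inj h).symm)]
      simp
    · intro h
      exact absurd (mem_univ _) h
  rw [hs]
  split_ifs with hP
  swap
  · exact hnn
  by_cases hI1 : ∃ v ∈ e0.1, v ∉ K (flip (flip x F) G)
  · have h1 : xb_I K x F G = 1 := by
      unfold xb_I
      rw [if_pos ⟨e0, hF, hI1⟩]
    linarith [xb_I0 K x G F, xb_J0 K x F G]
  by_cases hI2 : ∃ w ∈ f0.1, w ∉ K (flip (flip x G) F)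
  · have h1 : xb_I K x G F = 1 := by
      unfold xb_I
      rw [if_pos ⟨f0, hG, hI2⟩]
    linarith [xb_I0 K x F G, xb_J0 K x F G]
  push Not at hI1 hI2
  rw [flip_comm x G F] at hI2
  have h1 : xb_J K x F G = 1 := by
    unfold xb_J
    rw [if_pos]
    obtain ⟨v, hv, w, hw, p, hp, hxp⟩ := hP
    have hpi : ∀ u ∈ p.1, u ∈ K (flip (flip x F) G) := by
      intro u hu
      rw [hp, Sym2.mem_iff] at hu
      rcases hu with rfl | rfl
      · exact hI1 _ hv
      · exact hI2 _ hw
    refine ⟨e0, f0, p, mem_inside.2 hI1, mem_inside.2 hI2, mem_inside.2 hpi, (first_some hF).2,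
      (first_some hG).2, ?_, v, hv, w, hw, hp⟩
    have h2 := hK (flip (flip x F) G) p hpi
    unfold flip at h2
    rw [hxp] at h2
    cases hFp : F p <;> cases hGp : G p <;> simp_all
  linarith [xb_I0 K x G F, xb_I0 K x F G]

open Classical in
theorem xb_swap (τ : ℝ) (K : Graph n → Finset (Fin n)) (x : Graph n) :
    (∑ e, ∑ f, (if ∃ v ∈ e.1, ∃ w ∈ f.1, Non x v w then lam τ K x e * lam τ K x f else 0)) =
      ∑ F : Graph n, ∑ G : Graph n, rho τ F * rho τ G * xb_S K x F G := by
  have h1 : ∀ e f : Pair n, (if ∃ v ∈ e.1, ∃ w ∈ f.1, Non x v w then lam τ K x e * lam τ K x f else 0) =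
      ∑ F : Graph n, ∑ G : Graph n, rho τ F * rho τ G * (if ∃ v ∈ e.1, ∃ w ∈ f.1, Non x v w then
        (if first K (flip x F) F = some e then 1 else 0) * (if first K (flip x G) G = some f then 1 else 0)
          else 0) := by
    intro e f
    split_ifs with h
    · unfold lam
      rw [sum_mul_sum]
      apply sum_congr rfl
      intro F _
      apply sum_congr rfl
      intro G _
      ring
    · simp
  simp only [h1]
  unfold xb_S
  simp only [mul_sum]
  rw [sum_congr rfl fun e _ => sum_comm, sum_comm]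
  apply sum_congr rfl
  intro F _
  rw [sum_congr rfl fun e _ => sum_comm, sum_comm]

open Classical in
theorem xbound {τ κ : ℝ} (h0 : 0 ≤ τ) (h1 : τ ≤ 1) (K : Graph n → Finset (Fin n))
    (hK : ∀ g, IsClique g (K g)) (hκ : ∀ g, ((K g).card : ℝ) ≤ κ) :
    avg (fun x : Graph n => ∑ e, ∑ f, (if ∃ v ∈ e.1, ∃ w ∈ f.1, Non x v w then
      lam τ K x e * lam τ K x f else 0)) ≤
      2 * (τ * κ * avgNoise τ (fun x y => ((K x \ K y).card : ℝ))) +
        2 * (κ ^ 4 * τ ^ 3 + κ ^ 3 * τ ^ 2) := by
  have hB := bndB h0 h1 K hκ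
  have hC := bndC h0 h1 K hκ
  have s1 : avg (fun x : Graph n => ∑ e, ∑ f, (if ∃ v ∈ e.1, ∃ w ∈ f.1, Non x v w then
      lam τ K x e * lam τ K x f else 0)) ≤
      avg (fun x : Graph n => ((∑ F : Graph n, ∑ G : Graph n, rho τ F * rho τ G * xb_I K x F G) +
        (∑ F : Graph n, ∑ G : Graph n, rho τ F * rho τ G * xb_I K x G F)) +
        ∑ F : Graph n, ∑ G : Graph n, rho τ F * rho τ G * xb_J K x F G) := by
    apply avg_mono
    intro x
    rw [xb_swap]
    rw [← sum_add_distrib, ← sum_add_distrib]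
    apply sum_le_sum
    intro F _
    rw [← sum_add_distrib, ← sum_add_distrib]
    apply sum_le_sum
    intro G _
    have h2 := mul_le_mul_of_nonneg_left (xb_pt K hK x F G)
      (mul_nonneg (rho_nonneg h0 h1 F) (rho_nonneg h0 h1 G))
    refine h2.trans (le_of_eq ?_)
    ring
  refine s1.trans ?_
  rw [avg_add, avg_add]
  have e1 : avg (fun x : Graph n => ∑ F : Graph n, ∑ G : Graph n, rho τ F * rho τ G * xb_I K x G F) =
      avg (fun x : Graph n => ∑ F : Graph n, ∑ G : Graph n, rho τ F * rho τ G * xb_I K x F G) := by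
    apply avg_congr
    intro x
    rw [sum_comm]
    apply sum_congr rfl
    intro F _
    apply sum_congr rfl
    intro G _
    ring
  rw [e1]
  have hB' : avg (fun x : Graph n => ∑ F : Graph n, ∑ G : Graph n, rho τ F * rho τ G * xb_I K x F G) ≤
      τ * κ * avgNoise τ (fun x y => ((K x \ K y).card : ℝ)) := by
    unfold xb_I
    exact hB
  have hC' : avg (fun x : Graph n => ∑ F : Graph n, ∑ G : Graph n, rho τ F * rho τ G * xb_J K x F G) ≤
      2 * (κ ^ 4 * τ ^ 3 + κ ^ 3 * τ ^ 2) := by
    unfold xb_J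
    exact hC
  linarith

end LDK
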