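import Pool.Agent.LDK.Near
import Pool.Agent.LDK.Conc
import Pool.Agent.LDK.Xb
import Pool.Agent.LDK.Pick

/-!
# A0 (difficulty 4): noise sensitivity for maps with outputs of size at most 9 lg n

Uses near, conc, lam lemmas, xbound, pick (stubs). PROOF. L = lg n, τ = 1/L^2, κ = 9 L. Put
p0 := q * (1 - exp (-(c^2/4))) > 0, θ := p0^3 / 2^25, ε := p0^4 / 2^33 (> 0). Suppose n is large and, for contradiction,
avgNoise τ |K x \ K y| < ε L.
(1) Every K g is a clique (the empty set is a clique since every pair has a member vertex; e.1 has at least one element).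
(2) avg of ∑ e, lam = avg of 1 - (1-τ)^(inside (K g)).card (avg_lam). If K g ≠ ∅ then |K g| ≥ c L, (inside (K g)).card =
|K g| (|K g| - 1)/2 ≥ cL (cL - 1)/2 ≥ c^2 L^2/4 when c L ≥ 2 (large n), (1-τ)^m ≤ exp (-τ m) ≤ exp (-(c^2/4))
(Real.add_one_le_exp / one_sub_le_exp). If K g = ∅ the value is ≥ 0. So the average is ≥ (1 - exp(-(c^2/4))) * q = p0.
(3) xbound: avg X ≤ 2 τ κ ε L + 2 (κ^4 τ^3 + κ^3 τ^2) = 18 ε + 2 (6561 / L^2 + 729 / L) ≤ θ p0 / 4 = p0^4 / 2^27 for large n,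
because 18 ε ≤ p0^4 / 2^28 and 2 (6561/L^2 + 729/L) ≤ p0^4 / 2^28 for large L.
(4) near with η = p0/8 : hypothesis hT. sum_lam_le: hp1. pick gives x with Typ x, p := ∑ e lam τ K x e ≥ p0/2, X x ≤ θ ≤ p^3/2^22.
(5) conc with Λ = lam τ K x (lam_nonneg, lam_le, lam_supp, sum_lam_le): False.
-/

namespace LDK

open Finset

variable {n : ℕ}


theorem a0_pow {τ m s : ℝ} (k : ℕ) (hk : m = (k : ℝ)) (h1 : τ ≤ 1) (hs : s ≤ τ * m) :
    (1 - τ) ^ k ≤ Real.exp (-s) := by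
  have h2 : (1 - τ) ≤ Real.exp (-τ) := by
    have := Real.add_one_le_exp (-τ)
    linarith
  calc (1 - τ) ^ k ≤ (Real.exp (-τ)) ^ k := pow_le_pow_left₀ (by linarith) h2 k
    _ = Real.exp (-(τ * m)) := by
        rw [← Real.exp_nat_mul, hk]
        congr 1
        ring
    _ ≤ Real.exp (-s) := by
        apply Real.exp_le_exp.2
        linarith

theorem a0_card {c L : ℝ} (hc : 0 < c) (hL : 0 < L) (hcL : 2 ≤ c * L) {A : Finset (Fin n)}
    (hA : c * L ≤ (A.card : ℝ)) : c ^ 2 / 4 ≤ 1 / L ^ 2 * ((inside A).card : ℝ) := by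
  rw [card_inside, Nat.cast_choose_two]
  have h1 : (2 : ℝ) ≤ A.card := le_trans hcL hA
  have h2 : (c * L) ^ 2 ≤ (A.card : ℝ) ^ 2 := pow_le_pow_left₀ (by positivity) hA 2
  have h3 : (c * L) ^ 2 / 4 ≤ (A.card : ℝ) * ((A.card : ℝ) - 1) / 2 := by nlinarith
  have h4 : c ^ 2 / 4 = 1 / L ^ 2 * ((c * L) ^ 2 / 4) := by
    field_simp
  rw [h4]
  exact mul_le_mul_of_nonneg_left h3 (by positivity)

open Classical in
theorem a0_avg {c q L : ℝ} (hc : 0 < c) (hL1 : 1 ≤ L) (hcL : 2 ≤ c * L)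
    (K : Graph n → Finset (Fin n))
    (hK : ∀ x, K x = ∅ ∨ (IsClique x (K x) ∧ c * L ≤ ((K x).card : ℝ)))
    (hq : q ≤ avg (fun x => if K x = ∅ then (0 : ℝ) else 1)) :
    q * (1 - Real.exp (-(c ^ 2 / 4))) ≤ avg (fun x => ∑ e, lam (1 / L ^ 2) K x e) := by
  have hL : 0 < L := by linarith
  have hτ0 : 0 ≤ 1 / L ^ 2 := by positivity
  have hτ1 : 1 / L ^ 2 ≤ 1 := by
    rw [div_le_one (by positivity)]
    nlinarith
  have hex : Real.exp (-(c ^ 2 / 4)) ≤ 1 := by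
    rw [← Real.exp_zero]
    apply Real.exp_le_exp.2
    have : 0 < c ^ 2 := by positivity
    linarith
  rw [avg_lam]
  calc q * (1 - Real.exp (-(c ^ 2 / 4)))
      ≤ (1 - Real.exp (-(c ^ 2 / 4))) * avg (fun x => if K x = ∅ then (0 : ℝ) else 1) := by
        rw [mul_comm]
        exact mul_le_mul_of_nonneg_left hq (by linarith)
    _ = avg (fun x => (1 - Real.exp (-(c ^ 2 / 4))) * (if K x = ∅ then (0 : ℝ) else 1)) := by
        rw [avg_mul_left]
    _ ≤ _ := by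
        apply avg_mono
        intro g
        by_cases hg : K g = ∅
        · rw [if_pos hg, mul_zero]
          have := pow_le_one₀ (n := (inside (K g)).card) (show 0 ≤ 1 - 1 / L ^ 2 by linarith)
            (by linarith)
          linarith
        · rw [if_neg hg, mul_one]
          have h1 := (hK g).resolve_left hg
          have h2 := a0_pow (inside (K g)).card rfl hτ1 (a0_card hc hL hcL h1.2)
          linarith

theorem a0_lim (M : ℝ) : ∃ n₀ : ℕ, ∀ n ≥ n₀, M ≤ lg n := by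
  have h : Filter.Tendsto (fun n : ℕ => lg n) Filter.atTop Filter.atTop :=
    (Real.tendsto_logb_atTop (by norm_num)).comp tendsto_natCast_atTop_atTop
  obtain ⟨n₀, hn⟩ := Filter.eventually_atTop.1 (h.eventually_ge_atTop M)
  exact ⟨n₀, hn⟩

theorem a0_emp (g : Graph n) : IsClique g ∅ := by
  rintro ⟨e, he⟩ h
  induction e using Sym2.ind with
  | _ a b =>
    exact absurd (h a (by simp)) (by simp)

theorem a0_num {p0 L N : ℝ} (hL : 1 ≤ L) (hp : 0 < p0)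
    (hM : 14580 * 2 ^ 28 / p0 ^ 4 ≤ L) (hN : N ≤ p0 ^ 4 / 2 ^ 33 * L) :
    2 * (1 / L ^ 2 * (9 * L) * N) + 2 * ((9 * L) ^ 4 * (1 / L ^ 2) ^ 3 +
      (9 * L) ^ 3 * (1 / L ^ 2) ^ 2) ≤ p0 ^ 3 / 2 ^ 25 * p0 / 4 := by
  have hL0 : 0 < L := by linarith
  have h1 : 1 / L ^ 2 * (9 * L) * N ≤ 9 * (p0 ^ 4 / 2 ^ 33) := by
    have : 1 / L ^ 2 * (9 * L) * (p0 ^ 4 / 2 ^ 33 * L) = 9 * (p0 ^ 4 / 2 ^ 33) := by
      field_simp
    rw [← this]
    exact mul_le_mul_of_nonneg_left hN (by positivity)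
  have h2 : (9 * L) ^ 4 * (1 / L ^ 2) ^ 3 + (9 * L) ^ 3 * (1 / L ^ 2) ^ 2 =
      6561 / L ^ 2 + 729 / L := by
    field_simp
    ring
  have h3 : 6561 / L ^ 2 ≤ 6561 / L := by
    apply div_le_div_of_nonneg_left (by norm_num) hL0
    nlinarith
  have h4 : 14580 / L ≤ p0 ^ 4 / 2 ^ 28 := by
    rw [div_le_iff₀ hL0]
    rw [div_le_iff₀ (by positivity)] at hM
    have h5 : p0 ^ 4 / 2 ^ 28 * L = L * p0 ^ 4 / 2 ^ 28 := by ring
    rw [h5, le_div_iff₀ (by positivity)]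
    exact hM
  have h6 : 6561 / L + 729 / L = 14580 / L / 2 := by
    field_simp
    norm_num
  rw [h2]
  have hp4 : 0 < p0 ^ 4 := by positivity
  have h7 : p0 ^ 3 / 2 ^ 25 * p0 / 4 = p0 ^ 4 / 2 ^ 27 := by ring
  rw [h7]
  have h8 : p0 ^ 4 / 2 ^ 27 = p0 ^ 4 / 2 ^ 28 + p0 ^ 4 / 2 ^ 28 := by ring
  have h9 : 18 * (p0 ^ 4 / 2 ^ 33) ≤ p0 ^ 4 / 2 ^ 28 := by
    have : p0 ^ 4 / 2 ^ 28 = 32 * (p0 ^ 4 / 2 ^ 33) := by ring
    rw [this]
    have : 0 < p0 ^ 4 / 2 ^ 33 := by positivity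
    linarith
  rw [h8]
  linarith

open Classical in
theorem A0 (c q : ℝ) (hc : 0 < c) (hq : 0 < q) :
    ∃ ε : ℝ, 0 < ε ∧ ∃ n₀ : ℕ, ∀ n ≥ n₀, ∀ K : Graph n → Finset (Fin n),
      (∀ x, K x = ∅ ∨ (IsClique x (K x) ∧ c * lg n ≤ ((K x).card : ℝ))) →
      (∀ x, ((K x).card : ℝ) ≤ 9 * lg n) →
      q ≤ avg (fun x => if K x = ∅ then (0 : ℝ) else 1) →
      ε * lg n ≤ avgNoise (1 / (lg n) ^ 2) (fun x y => ((K x \ K y).card : ℝ)) := by
  have hex : Real.exp (-(c ^ 2 / 4)) < 1 := by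
    rw [← Real.exp_zero]
    apply Real.exp_lt_exp.2
    have : 0 < c ^ 2 := by positivity
    linarith
  obtain ⟨p0, hp0⟩ : ∃ p0, p0 = q * (1 - Real.exp (-(c ^ 2 / 4))) := ⟨_, rfl⟩
  have hp : 0 < p0 := by
    rw [hp0]
    exact mul_pos hq (by linarith)
  obtain ⟨n₁, hn₁⟩ := near (p0 / 8) (by positivity)
  obtain ⟨n₂, hn₂⟩ := a0_lim (max (14580 * 2 ^ 28 / p0 ^ 4) (max 1 (2 / c)))
  refine ⟨p0 ^ 4 / 2 ^ 33, by positivity, max 4 (max n₁ n₂), ?_⟩
  intro n hn K hK hK9 hKq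
  have hn4 : 4 ≤ n := le_trans (le_max_left _ _) hn
  have h1 := hn₁ n (le_trans (le_trans (le_max_left _ _) (le_max_right _ _)) hn)
  have h2 := hn₂ n (le_trans (le_trans (le_max_right _ _) (le_max_right _ _)) hn)
  generalize hLn : lg n = L at *
  have hM : 14580 * 2 ^ 28 / p0 ^ 4 ≤ L := le_trans (le_max_left _ _) h2
  have hL1 : 1 ≤ L := le_trans (le_trans (le_max_left _ _) (le_max_right _ _)) h2
  have hcL : 2 ≤ c * L := by
    have h3 : 2 / c ≤ L := le_trans (le_trans (le_max_right _ _) (le_max_right _ _)) h2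
    rw [div_le_iff₀ hc] at h3
    linarith
  have hL : 0 < L := by linarith
  have hτ0 : 0 ≤ 1 / L ^ 2 := by positivity
  have hτ1 : 1 / L ^ 2 ≤ 1 := by
    rw [div_le_one (by positivity)]
    nlinarith
  by_contra hcon
  push Not at hcon
  have hcl : ∀ g, IsClique g (K g) := by
    intro g
    rcases hK g with h | h
    · rw [h]
      exact a0_emp g
    · exact h.1
  have hav := a0_avg hc hL1 hcL K hK hKq
  rw [← hp0] at hav
  have hxb := le_trans (xbound hτ0 hτ1 K hcl hK9) (a0_num hL1 hp hM hcon.le)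
  obtain ⟨x, hT, hpx, hXx⟩ := pick (fun x => ∑ e, lam (1 / L ^ 2) K x e)
    (fun x => ∑ e, ∑ f, (if ∃ v ∈ e.1, ∃ w ∈ f.1, Non x v w then
      lam (1 / L ^ 2) K x e * lam (1 / L ^ 2) K x f else 0)) (fun x => Typ x) p0
    (p0 ^ 3 / 2 ^ 25) hp (by positivity) (fun x => sum_lam_le hτ0 hτ1 K x)
    (fun x => sum_nonneg fun e _ => sum_nonneg fun f _ => by
      split_ifs
      · exact mul_nonneg (lam_nonneg hτ0 hτ1 K x e) (lam_nonneg hτ0 hτ1 K x f)
      · exact le_rfl) hav hxb (by linarith)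
  refine conc hn4 x hT (fun e => lam (1 / L ^ 2) K x e) (fun e => lam_nonneg hτ0 hτ1 K x e)
    (fun e => ?_) (fun e he => lam_supp _ K hcl x e he) (by linarith)
    (sum_lam_le hτ0 hτ1 K x) (le_trans hXx ?_)
  · rw [hLn]
    exact lam_le hτ0 hτ1 K x e
  · have h3 := pow_le_pow_left₀ (by positivity) hpx 3
    have h4 : p0 ^ 3 / 2 ^ 25 = (p0 / 2) ^ 3 / 2 ^ 22 := by ring
    rw [h4]
    exact div_le_div_of_nonneg_right h3 (by positivity)

end LDK
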