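import Pool.Agent.LDK.A0

/-!
# Aa (difficulty 3): noise sensitivity of all maps which find cliques

Uses A0, near (stubs). PROOF. Put K' x := if Typ x then K x else ∅. For Typ x every clique A of x has fewer than sz n vertices:
otherwise take S ⊆ A with |S| = sz n; inside S has no pair with x e = false, so Typ gives (inside S).card < 0. So
|K' x| ≤ sz n - 1 + ... ≤ 9 lg n for n ≥ 4 (sz n ≤ 8 lg n + 2 ≤ 9 lg n as lg n ≥ 2). This is the lemma typ_card (prove it, it is
used again). Let ε0, n0 be from A0 with c and q/2; η := min (q/2) (ε0/18); near with η. For large n: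
avg [K' x ≠ ∅] ≥ avg [K x ≠ ∅] - avg [¬ Typ x] ≥ q - q/2 = q/2. So ε0 L ≤ avgNoise |K' x \ K' y|. Now
|K' x \ K' y| ≤ |K x \ K y| + 9 L [¬ Typ y], so avgNoise |K' x \ K' y| ≤ avgNoise |K x \ K y| + 9 L η (the noise average of a function
of y alone is the average: avgNoise_symm, avgNoise_eq, rho_sum), and 9 L η ≤ ε0 L / 2. Take ε = ε0/2.
-/

namespace LDK

open Finset

theorem aa_lg {n : ℕ} (hn : 4 ≤ n) : 2 ≤ lg n := by
  unfold lg
  rw [Real.le_logb_iff_rpow_le (by norm_num) (by exact_mod_cast (by omega : 0 < n))]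
  have : (4 : ℝ) ≤ n := by exact_mod_cast hn
  have h2 : (2 : ℝ) ^ (2 : ℝ) = 4 := by norm_num
  rw [h2]
  exact this

theorem typ_card {n : ℕ} (hn : 4 ≤ n) {x : Graph n} (hx : Typ x) {A : Finset (Fin n)}
    (hA : IsClique x A) : (A.card : ℝ) ≤ 9 * lg n := by
  have hL := aa_lg hn
  have h1 : A.card < sz n := by
    by_contra hlt
    push Not at hlt
    obtain ⟨S, hSA, hS⟩ := Finset.exists_subset_card_eq hlt
    have h2 := hx S hS
    have h3 : (inside S).filter (fun e => x e = false) = ∅ := by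
      rw [Finset.filter_eq_empty_iff]
      intro e he h4
      have h5 := hA e fun v hv => hSA (mem_inside.1 he v hv)
      rw [h5] at h4
      exact Bool.noConfusion h4
    have h6 : ((inside S).filter (fun e => x e = false)).card = 0 := by
      rw [h3, Finset.card_empty]
    have h7 : (inside S).card < 16 * 0 := by
      rw [← h6]
      convert h2
    omega
  have h2 : A.card ≤ ⌈8 * lg n⌉₊ := by
    unfold sz at h1
    omega
  have h3 : (A.card : ℝ) ≤ (⌈8 * lg n⌉₊ : ℝ) := by exact_mod_cast h2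
  have h4 := Nat.ceil_lt_add_one (show 0 ≤ 8 * lg n by linarith)
  linarith

theorem avgNoise_right {n : ℕ} (τ : ℝ) (g : Graph n → ℝ) : avgNoise τ (fun _ y => g y) = avg g := by
  rw [avgNoise_symm, avgNoise_eq]
  refine avg_congr fun x => ?_
  rw [← Finset.sum_mul, rho_sum, one_mul]

open Classical in
theorem Aa (c q : ℝ) (hc : 0 < c) (hq : 0 < q) :
    ∃ ε : ℝ, 0 < ε ∧ ∃ n₀ : ℕ, ∀ n ≥ n₀, ∀ K : Graph n → Finset (Fin n),
      (∀ x, K x = ∅ ∨ (IsClique x (K x) ∧ c * lg n ≤ ((K x).card : ℝ))) →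
      q ≤ avg (fun x => if K x = ∅ then (0 : ℝ) else 1) →
      ε * lg n ≤ avgNoise (1 / (lg n) ^ 2) (fun x y => ((K x \ K y).card : ℝ)) := by
  obtain ⟨ε0, hε0, n0, h0⟩ := A0 c (q / 2) hc (by linarith)
  obtain ⟨n1, h1⟩ := near (min (q / 2) (ε0 / 18)) (lt_min (by linarith) (by linarith))
  refine ⟨ε0 / 2, by linarith, max 4 (max n0 n1), ?_⟩
  intro n hn K hK hq'
  have hn4 : 4 ≤ n := (le_max_left _ _).trans hn
  have hn0 : n0 ≤ n := (le_max_left _ _).trans ((le_max_right _ _).trans hn)
  have hn1 : n1 ≤ n := (le_max_right _ _).trans ((le_max_right _ _).trans hn)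
  have hL := aa_lg hn4
  have hη := h1 n hn1
  have hη1 := hη.trans (min_le_left _ _)
  have hη2 := hη.trans (min_le_right _ _)
  have hτ0 : 0 ≤ 1 / (lg n) ^ 2 := by positivity
  have hτ1 : 1 / (lg n) ^ 2 ≤ 1 := by
    rw [div_le_one (by positivity)]
    nlinarith
  set K' : Graph n → Finset (Fin n) := fun x => if Typ x then K x else ∅ with hK'
  have hT : ∀ x, Typ x → K' x = K x := fun x hx => if_pos hx
  have hN : ∀ x, ¬ Typ x → K' x = ∅ := fun x hx => if_neg hx
  have hcard : ∀ x, Typ x → ((K x).card : ℝ) ≤ 9 * lg n := by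
    intro x hx
    rcases hK x with h | h
    · rw [h, Finset.card_empty]
      push_cast
      linarith
    · exact typ_card hn4 hx h.1
  have k1 : ∀ x, K' x = ∅ ∨ (IsClique x (K' x) ∧ c * lg n ≤ ((K' x).card : ℝ)) := by
    intro x
    by_cases hx : Typ x
    · rw [hT x hx]
      exact hK x
    · exact Or.inl (hN x hx)
  have k2 : ∀ x, ((K' x).card : ℝ) ≤ 9 * lg n := by
    intro x
    by_cases hx : Typ x
    · rw [hT x hx]
      exact hcard x hx
    · rw [hN x hx, Finset.card_empty]
      push_cast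
      linarith
  have k3 : q / 2 ≤ avg (fun x => if K' x = ∅ then (0 : ℝ) else 1) := by
    have h2 : avg (fun x : Graph n => if K x = ∅ then (0 : ℝ) else 1) ≤
        avg (fun x => (if K' x = ∅ then (0 : ℝ) else 1) + (if Typ x then (0 : ℝ) else 1)) := by
      refine avg_mono fun x => ?_
      by_cases hx : Typ x
      · rw [hT x hx, if_pos hx]
        linarith
      · rw [hN x hx, if_neg hx, if_pos rfl]
        split_ifs <;> norm_num
    rw [avg_add] at h2
    linarith
  have h2 := h0 n hn0 K' k1 k2 k3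
  have h3 : avgNoise (1 / (lg n) ^ 2) (fun x y => ((K' x \ K' y).card : ℝ)) ≤
      avgNoise (1 / (lg n) ^ 2) (fun x y => ((K x \ K y).card : ℝ) +
        9 * lg n * (if Typ y then (0 : ℝ) else 1)) := by
    refine avgNoise_mono hτ0 hτ1 fun x y => ?_
    by_cases hx : Typ x
    · by_cases hy : Typ y
      · rw [hT x hx, hT y hy, if_pos hy]
        linarith
      · rw [hT x hx, hN y hy, if_neg hy, Finset.sdiff_empty]
        have h4 := hcard x hx
        have h5 : (0 : ℝ) ≤ ((K x \ K y).card : ℝ) := Nat.cast_nonneg _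
        linarith
    · rw [hN x hx, Finset.empty_sdiff, Finset.card_empty]
      have h5 : (0 : ℝ) ≤ ((K x \ K y).card : ℝ) := Nat.cast_nonneg _
      have h6 : (0 : ℝ) ≤ 9 * lg n * (if Typ y then (0 : ℝ) else 1) := by
        split_ifs <;> linarith
      push_cast
      linarith
  rw [avgNoise_add, avgNoise_mul_left, avgNoise_right] at h3
  have h4 : 9 * lg n * avg (fun y : Graph n => if Typ y then (0 : ℝ) else 1) ≤ 9 * lg n * (ε0 / 18) :=
    mul_le_mul_of_nonneg_left hη2 (by linarith)
  linarith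

end LDK
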