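import Pool.Agent.LDK.Defs

/-!
# Basic facts
-/

namespace LDK

open Finset

variable {n : ℕ}

theorem card_graph_pos : (0 : ℝ) < Fintype.card (Graph n) := by
  have : 0 < Fintype.card (Graph n) := Fintype.card_pos
  exact_mod_cast this

theorem card_graph : (Fintype.card (Graph n) : ℝ) = 2 ^ Fintype.card (Pair n) := by
  rw [Fintype.card_fun, Fintype.card_bool]
  push_cast
  rfl

theorem avg_const (c : ℝ) : avg (fun _ : Graph n => c) = c := by
  unfold avg
  rw [sum_const, card_univ, nsmul_eq_mul]
  field_simp [card_graph_pos.ne']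

theorem avg_add (f g : Graph n → ℝ) : avg (fun x => f x + g x) = avg f + avg g := by
  unfold avg
  rw [sum_add_distrib, add_div]

theorem avg_sub (f g : Graph n → ℝ) : avg (fun x => f x - g x) = avg f - avg g := by
  unfold avg
  rw [sum_sub_distrib, sub_div]

theorem avg_mul_left (c : ℝ) (f : Graph n → ℝ) : avg (fun x => c * f x) = c * avg f := by
  unfold avg
  rw [← mul_sum, mul_div_assoc]

theorem avg_sum {ι : Type*} (s : Finset ι) (f : ι → Graph n → ℝ) :
    avg (fun x => ∑ i ∈ s, f i x) = ∑ i ∈ s, avg (f i) := by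
  unfold avg
  rw [sum_comm, sum_div]

theorem avg_mono {f g : Graph n → ℝ} (h : ∀ x, f x ≤ g x) : avg f ≤ avg g := by
  unfold avg
  exact div_le_div_of_nonneg_right (sum_le_sum fun x _ => h x) card_graph_pos.le

theorem avg_nonneg {f : Graph n → ℝ} (h : ∀ x, 0 ≤ f x) : 0 ≤ avg f := by
  unfold avg
  exact div_nonneg (sum_nonneg fun x _ => h x) card_graph_pos.le

theorem avg_congr {f g : Graph n → ℝ} (h : ∀ x, f x = g x) : avg f = avg g := by
  rw [show f = g from funext h]

theorem flip_flip (x F : Graph n) : flip (flip x F) F = x := by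
  funext e
  unfold flip
  cases x e <;> cases F e <;> rfl

theorem flip_comm (x F G : Graph n) : flip (flip x F) G = flip (flip x G) F := by
  funext e
  unfold flip
  cases x e <;> cases F e <;> cases G e <;> rfl

theorem sum_flip (φ : Graph n → ℝ) (F : Graph n) : ∑ x, φ (flip x F) = ∑ x, φ x :=
  Fintype.sum_equiv ⟨fun x => flip x F, fun x => flip x F, fun x => flip_flip x F,
    fun x => flip_flip x F⟩ _ _ fun _ => rfl

theorem avg_flip (φ : Graph n → ℝ) (F : Graph n) : avg (fun x => φ (flip x F)) = avg φ := by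
  unfold avg
  rw [sum_flip φ F]

theorem rho_nonneg {τ : ℝ} (h0 : 0 ≤ τ) (h1 : τ ≤ 1) (F : Graph n) : 0 ≤ rho τ F := by
  unfold rho
  apply prod_nonneg
  intro e _
  split_ifs <;> linarith

theorem avgNoise_eq (τ : ℝ) (f : Graph n → Graph n → ℝ) :
    avgNoise τ f = avg fun x => ∑ F, rho τ F * f x (flip x F) := by
  unfold avgNoise
  apply avg_congr
  intro x
  apply Fintype.sum_equiv ⟨fun y => flip x y, fun y => flip x y, fun y => ?_, fun y => ?_⟩
  · intro y
    simp only [Equiv.coe_fn_mk]
    have h1 : flip x (flip x y) = y := by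
      funext e
      unfold flip
      cases x e <;> cases y e <;> rfl
    rw [h1]
    congr 1
    unfold rho
    apply prod_congr rfl
    intro e _
    unfold flip
    cases x e <;> cases y e <;> simp
  · funext e
    simp only [flip]
    cases x e <;> cases y e <;> rfl
  · funext e
    simp only [flip]
    cases x e <;> cases y e <;> rfl

theorem avgNoise_symm (τ : ℝ) (f : Graph n → Graph n → ℝ) :
    avgNoise τ f = avgNoise τ (fun x y => f y x) := by
  unfold avgNoise avg
  congr 1
  rw [sum_comm]
  apply sum_congr rfl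
  intro y _
  apply sum_congr rfl
  intro x _
  congr 1
  apply prod_congr rfl
  intro e _
  by_cases h : x e = y e
  · rw [if_pos h, if_pos h.symm]
  · rw [if_neg h, if_neg (Ne.symm h)]

theorem avgNoise_mono {τ : ℝ} (h0 : 0 ≤ τ) (h1 : τ ≤ 1) {f g : Graph n → Graph n → ℝ}
    (h : ∀ x y, f x y ≤ g x y) : avgNoise τ f ≤ avgNoise τ g := by
  rw [avgNoise_eq, avgNoise_eq]
  apply avg_mono
  intro x
  exact sum_le_sum fun F _ => mul_le_mul_of_nonneg_left (h _ _) (rho_nonneg h0 h1 F)

theorem avgNoise_nonneg {τ : ℝ} (h0 : 0 ≤ τ) (h1 : τ ≤ 1) {f : Graph n → Graph n → ℝ}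
    (h : ∀ x y, 0 ≤ f x y) : 0 ≤ avgNoise τ f := by
  rw [avgNoise_eq]
  apply avg_nonneg
  intro x
  exact sum_nonneg fun F _ => mul_nonneg (rho_nonneg h0 h1 F) (h _ _)

theorem avgNoise_add (τ : ℝ) (f g : Graph n → Graph n → ℝ) :
    avgNoise τ (fun x y => f x y + g x y) = avgNoise τ f + avgNoise τ g := by
  unfold avgNoise
  rw [← avg_add]
  apply avg_congr
  intro x
  rw [← sum_add_distrib]
  exact sum_congr rfl fun y _ => by ring

theorem avgNoise_mul_left (τ c : ℝ) (f : Graph n → Graph n → ℝ) :
    avgNoise τ (fun x y => c * f x y) = c * avgNoise τ f := by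
  unfold avgNoise
  rw [← avg_mul_left]
  apply avg_congr
  intro x
  rw [mul_sum]
  exact sum_congr rfl fun y _ => by ring

theorem avgNoise_sum {ι : Type*} (s : Finset ι) (τ : ℝ) (f : ι → Graph n → Graph n → ℝ) :
    avgNoise τ (fun x y => ∑ i ∈ s, f i x y) = ∑ i ∈ s, avgNoise τ (f i) := by
  unfold avgNoise
  rw [← avg_sum]
  apply avg_congr
  intro x
  rw [sum_comm]
  exact sum_congr rfl fun y _ => by rw [mul_sum]

theorem sum_prod (g : Pair n → Bool → ℝ) :
    ∑ F : Graph n, ∏ e, g e (F e) = ∏ e, (g e true + g e false) := by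
  rw [← Fintype.piFinset_univ, ← prod_univ_sum]
  apply prod_congr rfl
  intro e _
  rw [Fintype.sum_bool]

theorem rho_sum (τ : ℝ) : ∑ F : Graph n, rho τ F = 1 := by
  unfold rho
  rw [sum_prod (fun _ b => if b = true then τ else 1 - τ)]
  simp

theorem rho_prod (τ : ℝ) (S : Finset (Pair n)) (a b : ℝ) :
    ∑ F : Graph n, rho τ F * ∏ e ∈ S, (if F e = true then a else b) =
      (τ * a + (1 - τ) * b) ^ S.card := by
  have h1 : ∀ F : Graph n, rho τ F * ∏ e ∈ S, (if F e = true then a else b) =
      ∏ e, (fun (e : Pair n) (t : Bool) => (if t = true then τ else 1 - τ) *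
        (if e ∈ S then (if t = true then a else b) else 1)) e (F e) := by
    intro F
    simp only
    rw [prod_mul_distrib, prod_ite_mem, univ_inter]
    rfl
  simp only [h1]
  rw [sum_prod (fun (e : Pair n) (t : Bool) => (if t = true then τ else 1 - τ) *
        (if e ∈ S then (if t = true then a else b) else 1))]
  have h2 : ∀ e : Pair n, ((if (true : Bool) = true then τ else 1 - τ) *
      (if e ∈ S then (if (true : Bool) = true then a else b) else 1) +
      (if (false : Bool) = true then τ else 1 - τ) *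
      (if e ∈ S then (if (false : Bool) = true then a else b) else 1)) =
      if e ∈ S then (τ * a + (1 - τ) * b) else 1 := by
    intro e
    by_cases he : e ∈ S <;> simp [he]
  rw [prod_congr rfl fun e _ => h2 e, prod_ite_mem, univ_inter, prod_const]

theorem rho_on (τ : ℝ) (S : Finset (Pair n)) :
    ∑ F : Graph n, rho τ F * (if ∀ e ∈ S, F e = true then 1 else 0) = τ ^ S.card := by
  have h := rho_prod (n := n) τ S 1 0
  rw [mul_one, mul_zero, add_zero] at h
  rw [← h]
  apply sum_congr rfl
  intro F _
  congr 1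
  by_cases hF : ∀ e ∈ S, F e = true
  · rw [if_pos hF, prod_eq_one fun e he => if_pos (hF e he)]
  · rw [if_neg hF]
    push Not at hF
    obtain ⟨e, he, h1⟩ := hF
    rw [prod_eq_zero he (if_neg h1)]

theorem rho_off (τ : ℝ) (S : Finset (Pair n)) :
    ∑ F : Graph n, rho τ F * (if ∀ e ∈ S, F e = false then 1 else 0) = (1 - τ) ^ S.card := by
  have h := rho_prod (n := n) τ S 0 1
  rw [mul_one, mul_zero, zero_add] at h
  rw [← h]
  apply sum_congr rfl
  intro F _
  congr 1
  by_cases hF : ∀ e ∈ S, F e = false
  · rw [if_pos hF, prod_eq_one fun e he => if_neg (by rw [hF e he]; decide)]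
  · rw [if_neg hF]
    push Not at hF
    obtain ⟨e, he, h1⟩ := hF
    have h2 : F e = true := by simpa using h1
    exact (prod_eq_zero he (by rw [if_pos h2])).symm

theorem rho_one (τ : ℝ) (e : Pair n) :
    ∑ F : Graph n, rho τ F * (if F e = true then 1 else 0) = τ := by
  have h := rho_on (n := n) τ {e}
  simpa using h

theorem avg_prod (S : Finset (Pair n)) (a b : ℝ) :
    avg (fun x : Graph n => ∏ e ∈ S, (if x e = true then a else b)) = ((a + b) / 2) ^ S.card := by
  have h := rho_prod (n := n) (1 / 2) S a b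
  have h2 : ∀ F : Graph n, rho (1 / 2) F = (Fintype.card (Graph n) : ℝ)⁻¹ := by
    intro F
    unfold rho
    rw [card_graph, prod_congr rfl fun e _ => show (if F e = true then (1 / 2 : ℝ) else 1 - 1 / 2) =
      1 / 2 by split_ifs <;> norm_num]
    rw [prod_const, card_univ]
    simp
  simp only [h2] at h
  rw [← mul_sum] at h
  unfold avg
  rw [div_eq_inv_mul, h]
  congr 1
  ring

theorem avg_clique (A : Finset (Fin n)) [DecidablePred fun x : Graph n => IsClique x A] :
    avg (fun x : Graph n => if IsClique x A then 1 else 0) = (1 / 2) ^ (inside A).card := by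
  have h := avg_prod (n := n) (inside A) 1 0
  rw [add_zero] at h
  rw [← h]
  apply avg_congr
  intro x
  by_cases hx : IsClique x A
  · rw [if_pos hx, prod_eq_one]
    intro e he
    unfold inside at he
    rw [mem_filter] at he
    exact if_pos (hx e he.2)
  · rw [if_neg hx]
    unfold IsClique at hx
    push Not at hx
    obtain ⟨e, he, h1⟩ := hx
    rw [prod_eq_zero (i := e) (by unfold inside; rw [mem_filter]; exact ⟨mem_univ _, he⟩)
      (if_neg h1)]

theorem mem_inside {A : Finset (Fin n)} {e : Pair n} : e ∈ inside A ↔ ∀ v ∈ e.1, v ∈ A := by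
  unfold inside
  rw [mem_filter]
  exact ⟨fun h => h.2, fun h => ⟨mem_univ _, h⟩⟩

theorem inside_inter (A B : Finset (Fin n)) : inside (A ∩ B) = inside A ∩ inside B := by
  ext e
  rw [mem_inter, mem_inside, mem_inside, mem_inside]
  constructor
  · intro h
    exact ⟨fun v hv => (mem_inter.1 (h v hv)).1, fun v hv => (mem_inter.1 (h v hv)).2⟩
  · rintro ⟨h1, h2⟩ v hv
    exact mem_inter.2 ⟨h1 v hv, h2 v hv⟩

theorem inside_mono {A B : Finset (Fin n)} (h : A ⊆ B) : inside A ⊆ inside B := by
  intro e he
  rw [mem_inside] at he ⊢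
  exact fun v hv => h (he v hv)

theorem card_inside (A : Finset (Fin n)) : (inside A).card = A.card.choose 2 := by
  classical
  have h1 : (inside A).map (Function.Embedding.subtype _) = A.sym2.filter fun e => ¬ e.IsDiag := by
    ext e
    rw [mem_map, mem_filter, mem_sym2_iff]
    constructor
    · rintro ⟨⟨e', he'⟩, h, rfl⟩
      exact ⟨mem_inside.1 h, he'⟩
    · rintro ⟨h, h2⟩
      exact ⟨⟨e, h2⟩, mem_inside.2 h, rfl⟩
  rw [← card_map, h1]
  have h2 := card_filter_add_card_filter_not (s := A.sym2) (fun e => e.IsDiag)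
  have h3 : (A.sym2.filter fun e => e.IsDiag).card = A.card := by
    rw [show (A.sym2.filter fun e => e.IsDiag) = A.image Sym2.diag by
      ext e
      rw [mem_filter, mem_image, mem_sym2_iff]
      constructor
      · rintro ⟨h, h2⟩
        induction e using Sym2.ind with
        | _ a b =>
          rw [Sym2.mk_isDiag_iff] at h2
          subst h2
          exact ⟨a, h a (by simp), rfl⟩
      · rintro ⟨a, ha, rfl⟩
        refine ⟨?_, Sym2.diag_isDiag a⟩
        intro v hv
        simp [Sym2.diag] at hv
        subst hv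
        exact ha]
    rw [card_image_of_injective _ Sym2.diag_injective]
  have h4 := card_sym2 A
  rw [Nat.choose_two_right, Nat.add_sub_cancel] at h4
  rw [Nat.choose_two_right]
  have h5 : (A.card + 1) * A.card / 2 = A.card * (A.card - 1) / 2 + A.card := by
    rcases Nat.eq_zero_or_pos A.card with h0 | h0
    · rw [h0]
    · obtain ⟨m, hm⟩ := Nat.exists_eq_succ_of_ne_zero h0.ne'
      rw [hm]
      have : (m.succ + 1) * m.succ = m.succ * (m.succ - 1) + 2 * m.succ := by
        simp only [Nat.succ_eq_add_one, Nat.add_sub_cancel]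
        ring
      rw [this, Nat.add_mul_div_left _ _ (by norm_num)]
  omega

end LDK
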