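import Pool.Agent.LDK.Lam

/-!
# Bb (difficulty 3): created pairs are stable

PROOF. If first K (flip x F) F = some e and v ∈ e.1, v ∉ K (flip (flip x F) G) then (first_some) e ∈ inside (K (flip x F)) and
F e = true. So the indicator is at most
∑ e ∈ inside (K (flip x F)), (if F e = true then 1 else 0) * ∑ v ∈ K (flip x F) with v ∈ e.1 and v ∉ K (flip (flip x F) G), 1.
For fixed F, G substitute g = flip x F (avg_flip applied to the function of g; note flip x F occurs only as g), then for fixed
g, G the sum over F of rho F * (if F e = true then 1 else 0) is τ (rho_one). What remains is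
avg g of ∑ G, rho G * τ * ∑ v ∈ K g \ K (flip g G), #{e ∈ inside (K g) : v ∈ e.1}
and #{e ∈ inside (K g) : v ∈ e.1} ≤ (K g).card ≤ κ (the other endpoint lies in K g; injection e ↦ other endpoint).
So it is ≤ τ * κ * avg g of ∑ G, rho G * (K g \ K (flip g G)).card = τ κ avgNoise τ (...) by avgNoise_eq.
-/

namespace LDK

open Finset

variable {n : ℕ}

open Classical in
theorem bb_deg (A : Finset (Fin n)) (v : Fin n) :
    ((inside A).filter fun e => v ∈ e.1).card ≤ A.card := by
  rw [← card_image_of_injective _ Subtype.val_injective]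
  refine le_trans (card_le_card (t := A.image fun w => s(v, w)) ?_) card_image_le
  intro e he
  rw [mem_image] at he
  obtain ⟨e', he', rfl⟩ := he
  rw [mem_filter, mem_inside] at he'
  obtain ⟨w, hw⟩ := he'.2
  rw [mem_image]
  exact ⟨w, he'.1 w (by rw [hw]; exact Sym2.mem_mk_right v w), hw.symm⟩

open Classical in
theorem bb_count (A D : Finset (Fin n)) :
    (∑ e ∈ inside A, ((D.filter fun v => v ∈ e.1).card : ℝ)) ≤ (D.card : ℝ) * A.card := by
  have h1 : (∑ e ∈ inside A, ((D.filter fun v => v ∈ e.1).card : ℝ)) =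
      ∑ v ∈ D, (((inside A).filter fun e => v ∈ e.1).card : ℝ) := by
    have h2 : ∀ e : Pair n, ((D.filter fun v => v ∈ e.1).card : ℝ) =
        ∑ v ∈ D, if v ∈ e.1 then (1 : ℝ) else 0 := by
      intro e
      rw [sum_boole]
    have h3 : ∀ v : Fin n, (((inside A).filter fun e => v ∈ e.1).card : ℝ) =
        ∑ e ∈ inside A, if v ∈ e.1 then (1 : ℝ) else 0 := by
      intro v
      rw [sum_boole]
    rw [sum_congr rfl fun e _ => h2 e, sum_congr rfl fun v _ => h3 v, sum_comm]
  rw [h1, ← nsmul_eq_mul]
  apply sum_le_card_nsmul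
  intro v _
  exact_mod_cast bb_deg A v

open Classical in
theorem bndB {τ κ : ℝ} (h0 : 0 ≤ τ) (h1 : τ ≤ 1) (K : Graph n → Finset (Fin n))
    (hκ : ∀ g, ((K g).card : ℝ) ≤ κ) :
    avg (fun x : Graph n => ∑ F : Graph n, ∑ G : Graph n, rho τ F * rho τ G *
      (if ∃ e : Pair n, first K (flip x F) F = some e ∧ ∃ v ∈ e.1, v ∉ K (flip (flip x F) G)
        then 1 else 0)) ≤
      τ * κ * avgNoise τ (fun x y => ((K x \ K y).card : ℝ)) := by
  have s1 : avg (fun x : Graph n => ∑ F : Graph n, ∑ G : Graph n, rho τ F * rho τ G *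
      (if ∃ e : Pair n, first K (flip x F) F = some e ∧ ∃ v ∈ e.1, v ∉ K (flip (flip x F) G)
        then 1 else 0)) ≤
      avg (fun x : Graph n => ∑ F : Graph n, ∑ G : Graph n, rho τ F * rho τ G *
        ∑ e ∈ inside (K (flip x F)), (if F e = true then (1 : ℝ) else 0) *
          (((K (flip x F) \ K (flip (flip x F) G)).filter fun v => v ∈ e.1).card : ℝ)) := by
    apply avg_mono
    intro x
    apply sum_le_sum
    intro F _
    apply sum_le_sum
    intro G _
    apply mul_le_mul_of_nonneg_left _ (mul_nonneg (rho_nonneg h0 h1 F) (rho_nonneg h0 h1 G))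
    have hnn : ∀ e ∈ inside (K (flip x F)), 0 ≤ (if F e = true then (1 : ℝ) else 0) *
          (((K (flip x F) \ K (flip (flip x F) G)).filter fun v => v ∈ e.1).card : ℝ) := by
      intro e _
      apply mul_nonneg _ (Nat.cast_nonneg _)
      split_ifs <;> norm_num
    split_ifs with h
    · obtain ⟨e, he, v, hv, hv'⟩ := h
      obtain ⟨h2, h3⟩ := first_some he
      refine le_trans ?_ (single_le_sum hnn h2)
      rw [if_pos h3, one_mul]
      have h4 : 0 < ((K (flip x F) \ K (flip (flip x F) G)).filter fun v => v ∈ e.1).card :=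
        card_pos.2 ⟨v, mem_filter.2 ⟨mem_sdiff.2 ⟨mem_inside.1 h2 v hv, hv'⟩, hv⟩⟩
      exact_mod_cast h4
    · exact sum_nonneg hnn
  refine le_trans s1 ?_
  have s2 : avg (fun x : Graph n => ∑ F : Graph n, ∑ G : Graph n, rho τ F * rho τ G *
        ∑ e ∈ inside (K (flip x F)), (if F e = true then (1 : ℝ) else 0) *
          (((K (flip x F) \ K (flip (flip x F) G)).filter fun v => v ∈ e.1).card : ℝ)) =
      avg (fun g : Graph n => ∑ F : Graph n, ∑ G : Graph n, rho τ F * rho τ G *
        ∑ e ∈ inside (K g), (if F e = true then (1 : ℝ) else 0) *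
          (((K g \ K (flip g G)).filter fun v => v ∈ e.1).card : ℝ)) := by
    rw [avg_sum, avg_sum]
    apply sum_congr rfl
    intro F _
    exact avg_flip (fun g : Graph n => ∑ G : Graph n, rho τ F * rho τ G *
        ∑ e ∈ inside (K g), (if F e = true then (1 : ℝ) else 0) *
          (((K g \ K (flip g G)).filter fun v => v ∈ e.1).card : ℝ)) F
  rw [s2, avgNoise_eq, ← avg_mul_left]
  apply avg_mono
  intro g
  rw [sum_comm, mul_sum]
  apply sum_le_sum
  intro G _
  have s3 : ∑ F : Graph n, rho τ F * rho τ G *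
        ∑ e ∈ inside (K g), (if F e = true then (1 : ℝ) else 0) *
          (((K g \ K (flip g G)).filter fun v => v ∈ e.1).card : ℝ) =
      rho τ G * (τ * ∑ e ∈ inside (K g), (((K g \ K (flip g G)).filter fun v => v ∈ e.1).card : ℝ)) := by
    have h2 : ∀ F : Graph n, rho τ F * rho τ G *
        ∑ e ∈ inside (K g), (if F e = true then (1 : ℝ) else 0) *
          (((K g \ K (flip g G)).filter fun v => v ∈ e.1).card : ℝ) =
        ∑ e ∈ inside (K g), rho τ G * (((K g \ K (flip g G)).filter fun v => v ∈ e.1).card : ℝ) *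
          (rho τ F * (if F e = true then (1 : ℝ) else 0)) := by
      intro F
      rw [mul_sum]
      exact sum_congr rfl fun e _ => by ring
    rw [sum_congr rfl fun F _ => h2 F, sum_comm]
    rw [mul_sum, mul_sum]
    apply sum_congr rfl
    intro e _
    rw [← mul_sum, rho_one]
    ring
  rw [s3]
  have h4 := bb_count (K g) (K g \ K (flip g G))
  have h5 : ((K g \ K (flip g G)).card : ℝ) * (K g).card ≤ ((K g \ K (flip g G)).card : ℝ) * κ :=
    mul_le_mul_of_nonneg_left (hκ g) (Nat.cast_nonneg _)
  have h6 := mul_le_mul_of_nonneg_left (mul_le_mul_of_nonneg_left (h4.trans h5) h0)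
    (rho_nonneg h0 h1 G)
  refine h6.trans (le_of_eq ?_)
  ring

end LDK
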