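import Pool.Agent.LDK.Pol

/-!
# Stab (difficulty 2): polynomials of degree D are stable under noise of rate much less than 1/D

Uses pol_expand, chi_orth, chi_noise (stubs). PROOF. Let val p x = ∑ S, a S * chi S x. Then
(val p x - val p y)^2 = val p x ^2 + val p y ^2 - 2 val p x val p y. Average over the noise: the first two terms give
2 * avg (val p)^2 = 2 ∑ S, (a S)^2 (avgNoise of a function of x alone is its average: avgNoise_eq, rho_sum; of y alone by
avgNoise_symm), the third one -2 ∑ S, (a S)^2 (1-2τ)^|S|. So the value is 2 ∑ S, (a S)^2 (1 - (1-2τ)^|S|) and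
1 - (1-2τ)^m ≤ 2 τ m ≤ 2 τ D (one_add_mul_le_pow, needs -2 ≤ -2τ) for m ≤ D; a S = 0 otherwise.
-/

namespace LDK

open Finset

variable {n : ℕ}

theorem stab (p : MvPolynomial (Pair n) ℝ) (D : ℕ) (hD : p.totalDegree ≤ D) (τ : ℝ) (h0 : 0 ≤ τ)
    (h1 : τ ≤ 1) :
    avgNoise τ (fun x y => (val p x - val p y) ^ 2) ≤
      4 * τ * D * avg (fun x : Graph n => val p x ^ 2) := by
  obtain ⟨a, ha, hx⟩ := pol_expand p D hD
  have hpars : avg (fun x : Graph n => val p x ^ 2) = ∑ S : Finset (Pair n), a S ^ 2 := by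
    have h2 : ∀ x : Graph n, val p x ^ 2 =
        ∑ S : Finset (Pair n), ∑ T : Finset (Pair n), a S * a T * (chi S x * chi T x) := by
      intro x
      rw [hx, sq, sum_mul_sum]
      exact sum_congr rfl fun S _ => sum_congr rfl fun T _ => by ring
    rw [avg_congr h2, avg_sum]
    refine sum_congr rfl fun S _ => ?_
    rw [avg_sum]
    simp only [avg_mul_left, chi_orth]
    simp [sq]
  have hcross : avgNoise τ (fun x y : Graph n => val p x * val p y) =
      ∑ S : Finset (Pair n), a S ^ 2 * (1 - 2 * τ) ^ S.card := by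
    have h2 : (fun x y : Graph n => val p x * val p y) =
        fun x y => ∑ S : Finset (Pair n), ∑ T : Finset (Pair n), a S * a T * (chi S x * chi T y) := by
      funext x y
      rw [hx, hx, sum_mul_sum]
      exact sum_congr rfl fun S _ => sum_congr rfl fun T _ => by ring
    rw [h2, avgNoise_sum]
    refine sum_congr rfl fun S _ => ?_
    rw [avgNoise_sum]
    simp only [avgNoise_mul_left, chi_noise]
    simp [sq]
  have hone : avgNoise τ (fun x _ : Graph n => val p x ^ 2) = avg (fun x : Graph n => val p x ^ 2) := by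
    rw [avgNoise_eq]
    apply avg_congr
    intro x
    rw [← sum_mul, rho_sum, one_mul]
  have htwo : avgNoise τ (fun _ y : Graph n => val p y ^ 2) = avg (fun x : Graph n => val p x ^ 2) := by
    rw [avgNoise_symm, hone]
  have hall : avgNoise τ (fun x y : Graph n => (val p x - val p y) ^ 2) =
      2 * avg (fun x : Graph n => val p x ^ 2) - 2 * avgNoise τ (fun x y : Graph n => val p x * val p y) := by
    have h2 : (fun x y : Graph n => (val p x - val p y) ^ 2) =
        fun x y => (val p x ^ 2 + val p y ^ 2) + (-2) * (val p x * val p y) := by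
      funext x y
      ring
    rw [h2, avgNoise_add, avgNoise_add, avgNoise_mul_left, hone, htwo]
    ring
  rw [hall, hpars, hcross, mul_sum, mul_sum, mul_sum, ← sum_sub_distrib]
  apply sum_le_sum
  intro S _
  rcases lt_or_ge D S.card with h | h
  · rw [ha S h]
    simp
  · have h3 : 1 + (S.card : ℝ) * (-(2 * τ)) ≤ (1 + -(2 * τ)) ^ S.card :=
      one_add_mul_le_pow (by linarith) _
    have h4 : (S.card : ℝ) ≤ D := by exact_mod_cast h
    have h5 : (1 - 2 * τ) ^ S.card ≥ 1 - 2 * τ * S.card := by
      have e : 1 - 2 * τ = 1 + -(2 * τ) := by ring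
      rw [e]
      linarith
    have h6 : 2 * (a S ^ 2) - 2 * (a S ^ 2 * (1 - 2 * τ) ^ S.card) = a S ^ 2 * (2 - 2 * (1 - 2 * τ) ^ S.card) := by ring
    have h7 : 4 * τ * D * a S ^ 2 = a S ^ 2 * (4 * τ * D) := by ring
    rw [h6, h7]
    apply mul_le_mul_of_nonneg_left _ (sq_nonneg _)
    have h8 : τ * S.card ≤ τ * D := mul_le_mul_of_nonneg_left h4 h0
    linarith

end LDK
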