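import Pool.Agent.LDK.Aa
import Pool.Agent.LDK.Stab

/-!
# Bpol (difficulty 4): polynomials of degree at most a lg^2 n do not find cliques with c lg n vertices

Uses A0, near, typ_card, avgNoise_right, stab (stubs). PROOF. L = lg n, τ = 1/L^2. Let ε0 be from A0 with c and q = 1/2.
Choose a > 0 with 2 a ≤ 1/8, (16 a γ + 10 a) ≤ ε0 / 8 (e.g. a = min (1/16) (ε0 / (8 (16 γ + 10)))) and η ≤ min (1/32) (ε0/72) for near.
Assume P(Finds) > 1 - a. For ω ∈ Ω, x : if Typ x ∧ Finds c a (f ω) x let A be a chosen clique as in Finds and K ω x := A, otherwise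
K ω x := ∅. K ω satisfies the hypotheses of A0 (typ_card). Let b ω := avg [K ω x = ∅] and E ω := avgNoise τ |K ω x \ K ω y|.
(1) For every ω: 1 ≤ 2 b ω + E ω / (ε0 L): if b ω < 1/2 then avg [K ω x ≠ ∅] ≥ 1/2 and A0 gives E ω ≥ ε0 L.
(2) mean of b ω over ω ≤ a + η.
(3) |K ω x \ K ω y| ≤ 4 ∑ v, (f_v x - f_v y)^2 + a L + 9 L [K ω y = ∅] for all x, y, where f_v = val (f ω v): if K ω x = ∅ clear; if
K ω y = ∅ use |K ω x| ≤ 9 L; otherwise every v ∈ K ω x \ K ω y has f_v x ≥ 1 and either f_v y ≤ 1/2, so (f_v x - f_v y)^2 ≥ 1/4, or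
v ∉ A(y), f_v y > 1/2: at most a L such v. Average over the noise (stab with D = ⌊a L^2⌋₊, so D ≤ a L^2 and τ D ≤ a; avgNoise_sum,
avgNoise_right): E ω ≤ 16 a * avg (∑ v, f_v^2) + a L + 9 L b ω.
(4) mean over ω: mean E ≤ 16 a γ L + a L + 9 L (a + η).
(5) mean of (1): 1 ≤ 2 (a + η) + (16 a γ + 10 a + 9 η) / ε0 ≤ 1/8 + 1/16 + 1/8 + 1/8 < 1, contradiction.
-/

namespace LDK

open Finset

open Classical in
/-- The chosen clique. -/
noncomputable def bpol_K {n : ℕ} (c a : ℝ) (f : Fin n → MvPolynomial (Pair n) ℝ) (x : Graph n) :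
    Finset (Fin n) :=
  if h : Typ x ∧ Finds c a f x then h.2.choose else ∅

theorem bpol_spec {n : ℕ} {c a : ℝ} {f : Fin n → MvPolynomial (Pair n) ℝ} {x : Graph n}
    (h : bpol_K c a f x ≠ ∅) : Typ x ∧ IsClique x (bpol_K c a f x) ∧
      c * lg n ≤ ((bpol_K c a f x).card : ℝ) ∧ (∀ v ∈ bpol_K c a f x, 1 ≤ val (f v) x) ∧
      ((Finset.univ.filter fun v => v ∉ bpol_K c a f x ∧ 1 / 2 < val (f v) x).card : ℝ) ≤
        a * lg n := by
  classical
  have h1 : Typ x ∧ Finds c a f x := by
    by_contra h2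
    apply h
    unfold bpol_K
    rw [dif_neg h2]
  have h3 : bpol_K c a f x = h1.2.choose := by
    unfold bpol_K
    rw [dif_pos h1]
  rw [h3]
  obtain ⟨h4, h5, h6, h7⟩ := h1.2.choose_spec
  refine ⟨h1.1, h4, h5, h6, ?_⟩
  convert h7

theorem bpol_ne {n : ℕ} {c a : ℝ} {f : Fin n → MvPolynomial (Pair n) ℝ} {x : Graph n}
    (hc : 0 < c * lg n) (h : Typ x ∧ Finds c a f x) : bpol_K c a f x ≠ ∅ := by
  classical
  have h3 : bpol_K c a f x = h.2.choose := by
    unfold bpol_K
    rw [dif_pos h]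
  obtain ⟨h4, h5, h6, h7⟩ := h.2.choose_spec
  intro h8
  rw [h3] at h8
  have h9 : c * lg n ≤ ((h.2.choose).card : ℝ) := h5
  rw [h8] at h9
  simp at h9
  linarith

open Classical in
theorem bpol_diff {n : ℕ} (hn : 4 ≤ n) {c a : ℝ} (ha : 0 ≤ a) (hL : 0 ≤ lg n)
    (f : Fin n → MvPolynomial (Pair n) ℝ) (x y : Graph n) :
    ((bpol_K c a f x \ bpol_K c a f y).card : ℝ) ≤
      4 * ∑ v, (val (f v) x - val (f v) y) ^ 2 +
        (a * lg n + 9 * lg n * (if bpol_K c a f y = ∅ then 1 else 0)) := by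
  have h0 : 0 ≤ ∑ v, (val (f v) x - val (f v) y) ^ 2 := sum_nonneg fun v _ => sq_nonneg _
  by_cases hx : bpol_K c a f x = ∅
  · rw [hx, empty_sdiff, card_empty]
    split_ifs <;> simp <;> positivity
  · obtain ⟨h1, h2, -, h3, -⟩ := bpol_spec hx
    have h4 := typ_card hn h1 h2
    by_cases hy : bpol_K c a f y = ∅
    · rw [if_pos hy, hy, sdiff_empty]
      have : 0 ≤ a * lg n := by positivity
      linarith
    · rw [if_neg hy]
      obtain ⟨-, -, -, -, h5⟩ := bpol_spec hy
      have h6 : bpol_K c a f x \ bpol_K c a f y ⊆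
          ((bpol_K c a f x \ bpol_K c a f y).filter fun v => val (f v) y ≤ 1 / 2) ∪
          (univ.filter fun v => v ∉ bpol_K c a f y ∧ 1 / 2 < val (f v) y) := by
        intro v hv
        rw [mem_union, mem_filter, mem_filter]
        by_cases h7 : val (f v) y ≤ 1 / 2
        · exact Or.inl ⟨hv, h7⟩
        · exact Or.inr ⟨mem_univ _, (mem_sdiff.1 hv).2, not_le.1 h7⟩
      have h7 : ((bpol_K c a f x \ bpol_K c a f y).card : ℝ) ≤
          (((bpol_K c a f x \ bpol_K c a f y).filter fun v => val (f v) y ≤ 1 / 2).card : ℝ) +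
          ((univ.filter fun v => v ∉ bpol_K c a f y ∧ 1 / 2 < val (f v) y).card : ℝ) := by
        exact_mod_cast (card_le_card h6).trans (card_union_le _ _)
      have h8 : (((bpol_K c a f x \ bpol_K c a f y).filter fun v => val (f v) y ≤ 1 / 2).card : ℝ) ≤
          4 * ∑ v, (val (f v) x - val (f v) y) ^ 2 := by
        rw [mul_sum]
        calc (((bpol_K c a f x \ bpol_K c a f y).filter fun v => val (f v) y ≤ 1 / 2).card : ℝ)
            = ∑ v ∈ (bpol_K c a f x \ bpol_K c a f y).filter fun v => val (f v) y ≤ 1 / 2,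
                (1 : ℝ) := by simp
          _ ≤ ∑ v ∈ (bpol_K c a f x \ bpol_K c a f y).filter fun v => val (f v) y ≤ 1 / 2,
                4 * (val (f v) x - val (f v) y) ^ 2 := by
              apply sum_le_sum
              intro v hv
              rw [mem_filter, mem_sdiff] at hv
              have h9 := h3 v hv.1.1
              nlinarith [hv.2]
          _ ≤ _ := by
              apply sum_le_sum_of_subset_of_nonneg (subset_univ _)
              intro v _ _
              positivity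
      linarith

open Classical in
theorem Bpol (c γ : ℝ) (hc : 0 < c) (hγ : 0 < γ) :
    ∃ a : ℝ, 0 < a ∧ ∃ n₀ : ℕ, ∀ n ≥ n₀, ∀ (Ω : Type) [Fintype Ω] [Nonempty Ω]
      (f : Ω → Fin n → MvPolynomial (Pair n) ℝ),
      (∀ ω v, ((f ω v).totalDegree : ℝ) ≤ a * (lg n) ^ 2) →
      (∑ ω, avg (fun x => ∑ v, val (f ω v) x ^ 2)) / Fintype.card Ω ≤ γ * lg n →
      (∑ ω, avg (fun x => if Finds c a (f ω) x then (1 : ℝ) else 0)) / Fintype.card Ω ≤ 1 - a := by
  obtain ⟨ε0, hε0, n1, hA0⟩ := A0 c (1 / 2) hc (by norm_num)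
  set a : ℝ := min (1 / 16) (ε0 / (8 * (16 * γ + 10))) with had
  have ha : 0 < a := by positivity
  have ha1 : a ≤ 1 / 16 := min_le_left _ _
  have ha2 : (16 * γ + 10) * a ≤ ε0 / 8 := by
    have h1 : a ≤ ε0 / (8 * (16 * γ + 10)) := min_le_right _ _
    rw [le_div_iff₀ (by positivity)] at h1
    linarith
  obtain ⟨n2, hnear⟩ := near (min (1 / 32) (ε0 / 72)) (by positivity)
  refine ⟨a, ha, max (max n1 n2) 4, ?_⟩
  intro n hn Ω _ _ f hdeg hnorm
  have hn1 : n1 ≤ n := le_trans (le_trans (le_max_left _ _) (le_max_left _ _)) hn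
  have hn2 : n2 ≤ n := le_trans (le_trans (le_max_right _ _) (le_max_left _ _)) hn
  have hn4 : 4 ≤ n := le_trans (le_max_right _ _) hn
  set η : ℝ := min (1 / 32) (ε0 / 72) with hηd
  have hη1 : η ≤ 1 / 32 := min_le_left _ _
  have hη2 : 9 * η ≤ ε0 / 8 := by
    have : η ≤ ε0 / 72 := min_le_right _ _
    linarith
  have hη := hnear n hn2
  have hL2 : 2 ≤ lg n := by
    have h1 : (2 : ℝ) = Real.logb 2 4 := by
      rw [show (4 : ℝ) = 2 ^ (2 : ℝ) by norm_num, Real.logb_rpow (by norm_num) (by norm_num)]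
    rw [h1]
    exact Real.logb_le_logb_of_le (by norm_num) (by norm_num) (by exact_mod_cast hn4)
  set L := lg n with hLd
  have hL : 0 < L := by linarith
  set τ : ℝ := 1 / L ^ 2 with hτd
  have hτ0 : 0 ≤ τ := by positivity
  have hτ1 : τ ≤ 1 := by
    rw [hτd, div_le_one (by positivity)]
    nlinarith
  have hcL : 0 < c * lg n := by rw [← hLd]; positivity
  -- the numbers
  have hkey : ∀ ω, (1 : ℝ) ≤ (2 + 9 / ε0) * (η + 1 - avg (fun x => if Finds c a (f ω) x then (1 : ℝ) else 0)) +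
      16 * a / (ε0 * L) * avg (fun x => ∑ v, val (f ω v) x ^ 2) + a / ε0 := by
    intro ω
    set K := bpol_K c a (f ω) with hKd
    set b := avg (fun x => if K x = ∅ then (1 : ℝ) else 0) with hbd
    set W := avg (fun x => ∑ v, val (f ω v) x ^ 2) with hWd
    set P := avg (fun x => if Finds c a (f ω) x then (1 : ℝ) else 0) with hPd
    set EE := avgNoise τ (fun x y => ((K x \ K y).card : ℝ)) with hEd
    have hb : b ≤ η + 1 - P := by
      have h1 : b ≤ avg (fun x : Graph n => (if Typ x then (0 : ℝ) else 1) +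
          (1 - (if Finds c a (f ω) x then (1 : ℝ) else 0))) := by
        apply avg_mono
        intro x
        by_cases h1 : Typ x
        · by_cases h2 : Finds c a (f ω) x
          · rw [if_neg (bpol_ne hcL ⟨h1, h2⟩), if_pos h1, if_pos h2]
            norm_num
          · rw [if_pos h1, if_neg h2]
            split_ifs <;> norm_num
        · rw [if_neg h1]
          split_ifs <;> norm_num
      rw [avg_add, avg_sub, avg_const] at h1
      linarith
    have hb0 : 0 ≤ b := avg_nonneg fun x => by split_ifs <;> norm_num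
    have hE0 : 0 ≤ EE := avgNoise_nonneg hτ0 hτ1 fun x y => Nat.cast_nonneg _
    have hE1 : 1 ≤ 2 * b + EE / (ε0 * L) := by
      by_cases h1 : b ≤ 1 / 2
      · have h2 : (1 / 2 : ℝ) ≤ avg (fun x => if K x = ∅ then (0 : ℝ) else 1) := by
          have h3 : avg (fun x => if K x = ∅ then (0 : ℝ) else 1) = 1 - b := by
            have h4 : avg (fun x => (1 : ℝ) - (if K x = ∅ then (1 : ℝ) else 0)) = 1 - b := by
              rw [avg_sub, avg_const]
            rw [← h4]
            apply avg_congr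
            intro x
            split_ifs <;> norm_num
          rw [h3]
          linarith
        have h3 := hA0 n hn1 K (fun x => ?_) (fun x => ?_) h2
        · have h4 : 1 ≤ EE / (ε0 * L) := by
            rw [le_div_iff₀ (by positivity)]
            linarith
          linarith
        · by_cases h4 : K x = ∅
          · exact Or.inl h4
          · exact Or.inr ⟨(bpol_spec h4).2.1, (bpol_spec h4).2.2.1⟩
        · by_cases h4 : K x = ∅
          · rw [h4, card_empty]
            simp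
            positivity
          · exact typ_card hn4 (bpol_spec h4).1 (bpol_spec h4).2.1
      · push Not at h1
        have : 0 ≤ EE / (ε0 * L) := by positivity
        linarith
    have hE2 : EE ≤ 16 * a * W + (a * L + 9 * L * b) := by
      have h1 : EE ≤ avgNoise τ (fun x y => 4 * ∑ v, (val (f ω v) x - val (f ω v) y) ^ 2 +
          (a * L + 9 * L * (if K y = ∅ then 1 else 0))) :=
        avgNoise_mono hτ0 hτ1 fun x y => bpol_diff hn4 ha.le hL.le (f ω) x y
      have h2 : avgNoise τ (fun x y => 4 * ∑ v, (val (f ω v) x - val (f ω v) y) ^ 2) =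
          4 * ∑ v, avgNoise τ (fun x y => (val (f ω v) x - val (f ω v) y) ^ 2) := by
        rw [avgNoise_mul_left, avgNoise_sum]
      have h3 : avgNoise τ (fun _ y => (a * L + 9 * L * (if K y = ∅ then 1 else 0))) =
          a * L + 9 * L * b := by
        rw [avgNoise_right τ (fun y => (a * L + 9 * L * (if K y = ∅ then (1 : ℝ) else 0))), avg_add,
          avg_const, avg_mul_left]
      rw [avgNoise_add, h2, h3] at h1
      have h4 : ∀ v, avgNoise τ (fun x y => (val (f ω v) x - val (f ω v) y) ^ 2) ≤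
          4 * a * avg (fun x : Graph n => val (f ω v) x ^ 2) := by
        intro v
        have h5 := stab (f ω v) ⌊a * L ^ 2⌋₊ (Nat.le_floor (hdeg ω v)) τ hτ0 hτ1
        have h6 : τ * (⌊a * L ^ 2⌋₊ : ℝ) ≤ a := by
          calc τ * (⌊a * L ^ 2⌋₊ : ℝ) ≤ τ * (a * L ^ 2) :=
                mul_le_mul_of_nonneg_left (Nat.floor_le (by positivity)) hτ0
            _ = a := by rw [hτd]; field_simp
        have h7 : 0 ≤ avg (fun x : Graph n => val (f ω v) x ^ 2) := avg_nonneg fun x => sq_nonneg _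
        nlinarith [mul_le_mul_of_nonneg_right h6 h7]
      have h5 : ∑ v, avgNoise τ (fun x y => (val (f ω v) x - val (f ω v) y) ^ 2) ≤ 4 * a * W := by
        rw [hWd, avg_sum, mul_sum]
        exact sum_le_sum fun v _ => h4 v
      linarith
    have h1 : EE / (ε0 * L) ≤ 16 * a / (ε0 * L) * W + a / ε0 + 9 / ε0 * b := by
      rw [div_le_iff₀ (by positivity)]
      have : (16 * a / (ε0 * L) * W + a / ε0 + 9 / ε0 * b) * (ε0 * L) =
          16 * a * W + (a * L + 9 * L * b) := by
        field_simp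
        ring
      linarith
    have h2 : (2 + 9 / ε0) * b ≤ (2 + 9 / ε0) * (η + 1 - P) :=
      mul_le_mul_of_nonneg_left hb (by positivity)
    linarith
  by_contra hcon
  push Not at hcon
  have hN : (0 : ℝ) < Fintype.card Ω := by
    have : 0 < Fintype.card Ω := Fintype.card_pos
    exact_mod_cast this
  rw [lt_div_iff₀ hN] at hcon
  rw [div_le_iff₀ hN] at hnorm
  have h1 : ∑ ω : Ω, (1 : ℝ) ≤ ∑ ω, ((2 + 9 / ε0) * (η + 1 - avg (fun x => if Finds c a (f ω) x then (1 : ℝ) else 0)) +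
      16 * a / (ε0 * L) * avg (fun x => ∑ v, val (f ω v) x ^ 2) + a / ε0) :=
    sum_le_sum fun ω _ => hkey ω
  rw [sum_add_distrib, sum_add_distrib, ← mul_sum, ← mul_sum, sum_sub_distrib, sum_const, sum_const,
    sum_const, card_univ, nsmul_eq_mul, nsmul_eq_mul, nsmul_eq_mul] at h1
  set N : ℝ := (Fintype.card Ω : ℝ) with hNd
  set SP := ∑ ω, avg (fun x => if Finds c a (f ω) x then (1 : ℝ) else 0) with hSPd
  set SW := ∑ ω, avg (fun x => ∑ v, val (f ω v) x ^ 2) with hSWd
  have h2 : (2 + 9 / ε0) * (N * (η + 1) - SP) ≤ (2 + 9 / ε0) * (N * (η + a)) :=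
    mul_le_mul_of_nonneg_left (by nlinarith) (by positivity)
  have h3 : 16 * a / (ε0 * L) * SW ≤ 16 * a / (ε0 * L) * (γ * L * N) :=
    mul_le_mul_of_nonneg_left hnorm (by positivity)
  have h4 : 16 * a / (ε0 * L) * (γ * L * N) = 16 * a * γ / ε0 * N := by
    field_simp
  have h5 : (2 + 9 / ε0) * (N * (η + a)) + 16 * a * γ / ε0 * N + N * (a / ε0) =
      (2 * (η + a) + (9 * η) / ε0 + ((16 * γ + 10) * a) / ε0) * N := by
    field_simp
    ring
  have h6 : (9 * η) / ε0 ≤ 1 / 8 := by
    rw [div_le_iff₀ hε0]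
    linarith
  have h7 : ((16 * γ + 10) * a) / ε0 ≤ 1 / 8 := by
    rw [div_le_iff₀ hε0]
    linarith
  have h8 : (2 * (η + a) + (9 * η) / ε0 + ((16 * γ + 10) * a) / ε0) * N < 1 * N :=
    mul_lt_mul_of_pos_right (by linarith) hN
  linarith

end LDK
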