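import Pool.Agent.LDK.Basic

/-!
# Cap (difficulty 4): no spread out measure lives on a near clique

PROOF. Put L = lg n ≥ 2 (as n ≥ 4), z = sz n, so 8 L + 1 ≤ z ≤ 8 L + 2 ≤ 9 L, z ≥ 17; s = 2 z ≤ 18 L;
M = ∑ v, μ v > 0. For w : Fin s → Fin n put W w = ∏ i, μ (w i) ≥ 0 and
Φ w = ∑ i, ∑ j, (if i ≠ j then (if Non x (w i) (w j) then 1 else 0) + L * (if w i = w j then 1 else 0) else 0).
(1) ∑ w, W w = M ^ s (Finset.prod_univ_sum / Fintype.piFinset_univ, as in Basic.sum_prod).
(2) For i ≠ j and a kernel k : Fin n → Fin n → ℝ: ∑ w, W w * k (w i) (w j) = M ^ (s-2) * ∑ v, ∑ u, μ v * μ u * k v u.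
(3) ∑ v, μ v ^ 2 ≤ M * (M / (256 L)), hence L * ∑ μ^2 ≤ M^2 / 256; with hN:
∑ w, W w * Φ w ≤ s (s-1) M^(s-2) (M^2/256 + M^2/256) = s (s-1) / 128 * M^s.
(4) Hence there is w with Φ w ≤ s (s-1) / 128 ≤ s^2 / 128 (otherwise W w * Φ w > ... for a w with W w > 0; such w
exists because the sum of the W w is M^s > 0).
(5) Let C = number of ordered pairs i ≠ j with w i = w j. L * C ≤ Φ w, so C ≤ s^2 / (128 L) ≤ 18 s / 128 ≤ s / 7.
Let I = image of w. With m_v = number of i with w i = v: s^2 = (∑ v ∈ I, m_v)^2 ≤ |I| * ∑ m_v^2 = |I| (s + C)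
(sq_sum_le_card_mul_sum_sq), so |I| ≥ s^2 / (s + s/7) = 7 s / 8 ≥ z = s/2.
(6) Choose S ⊆ I with |S| = z (exists_subset_card_eq). Each non-edge e = s(a,b) of x inside S gives two ordered pairs
(i, j), i ≠ j, with {w i, w j} = {a, b}, and different non-edges give different ordered pairs. (One ordered pair per
non-edge is enough with the constants below.) So number of non-edges inside S ≤ Φ w ≤ s^2/128 = z^2/32 ; better with two
pairs: ≤ z^2/64.
(7) Typ x: z (z-1) / 2 = (inside S).card < 16 * (non-edges) ≤ 16 * z^2 / 64 = z^2 / 4, so 2 (z - 1) < z, z < 2: contradiction.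
(Here the factor two in (6) is needed: count ordered pairs (i,j): the map (i,j) ↦ s(w i, w j) restricted to Non pairs
has every non-edge inside I in its range with at least two preimages (i,j) and (j,i).)
-/

namespace LDK

open Finset

variable {n : ℕ}

theorem cap_prod {s : ℕ} {i j : Fin s} (hij : i ≠ j) (a b M : ℝ) :
    ∏ l : Fin s, (if l = i then a else if l = j then b else M) = a * b * M ^ (s - 2) := by
  classical
  have hj : j ∈ (univ : Finset (Fin s)).erase i := mem_erase.2 ⟨hij.symm, mem_univ j⟩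
  rw [← mul_prod_erase univ _ (mem_univ i), if_pos rfl, ← mul_prod_erase _ _ hj, if_neg hij.symm, if_pos rfl]
  have h1 : ∏ l ∈ ((univ : Finset (Fin s)).erase i).erase j, (if l = i then a else if l = j then b else M) =
      ∏ l ∈ ((univ : Finset (Fin s)).erase i).erase j, M := by
    apply prod_congr rfl
    intro l hl
    rw [mem_erase, mem_erase] at hl
    rw [if_neg hl.2.1, if_neg hl.1]
  rw [h1, prod_const, card_erase_of_mem hj, card_erase_of_mem (mem_univ i), card_univ, Fintype.card_fin,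
    Nat.sub_sub, ← mul_assoc]

theorem cap_fix {s : ℕ} {i j : Fin s} (hij : i ≠ j) (μ : Fin n → ℝ) (v u : Fin n) :
    ∑ w : Fin s → Fin n, (∏ l, μ (w l)) * ((if w i = v then 1 else 0) * (if w j = u then 1 else 0)) =
      μ v * μ u * (∑ v, μ v) ^ (s - 2) := by
  classical
  set g : Fin s → Fin n → ℝ := fun l a => μ a * ((if l = i then (if a = v then 1 else 0) else 1) *
    (if l = j then (if a = u then 1 else 0) else 1)) with hg
  have h1 : ∀ w : Fin s → Fin n, (∏ l, μ (w l)) * ((if w i = v then 1 else 0) * (if w j = u then 1 else 0)) =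
      ∏ l, g l (w l) := by
    intro w
    rw [hg]
    simp only
    rw [prod_mul_distrib, prod_mul_distrib, prod_ite_eq' univ i, prod_ite_eq' univ j, if_pos (mem_univ i),
      if_pos (mem_univ j)]
  have h2 : ∀ l, ∑ a, g l a = if l = i then μ v else if l = j then μ u else ∑ v, μ v := by
    intro l
    rw [hg]
    simp only
    by_cases hi : l = i
    · have hj : l ≠ j := by
        rw [hi]
        exact hij
      simp [hi, hij]
    · by_cases hj : l = j
      · have hji : j ≠ i := hij.symm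
        simp [hj, hji]
      · simp [hi, hj]
  rw [sum_congr rfl fun w _ => h1 w, ← Fintype.piFinset_univ, ← prod_univ_sum, prod_congr rfl fun l _ => h2 l,
    cap_prod hij]

theorem cap_ker {s : ℕ} {i j : Fin s} (hij : i ≠ j) (μ : Fin n → ℝ) (κ : Fin n → Fin n → ℝ) :
    ∑ w : Fin s → Fin n, (∏ l, μ (w l)) * κ (w i) (w j) =
      (∑ v, μ v) ^ (s - 2) * ∑ v, ∑ u, μ v * μ u * κ v u := by
  classical
  have h1 : ∀ w : Fin s → Fin n, (∏ l, μ (w l)) * κ (w i) (w j) = ∑ v, ∑ u,
      ((∏ l, μ (w l)) * ((if w i = v then 1 else 0) * (if w j = u then 1 else 0))) * κ v u := by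
    intro w
    rw [sum_eq_single (w i), sum_eq_single (w j)]
    · simp
    · intro u _ hu
      rw [if_neg (Ne.symm hu)]
      ring
    · intro h
      exact absurd (mem_univ _) h
    · intro v _ hv
      apply sum_eq_zero
      intro u _
      rw [if_neg (Ne.symm hv)]
      ring
    · intro h
      exact absurd (mem_univ _) h
  rw [sum_congr rfl fun w _ => h1 w, sum_comm, mul_sum]
  apply sum_congr rfl
  intro v _
  rw [sum_comm, mul_sum]
  apply sum_congr rfl
  intro u _
  rw [← sum_mul, cap_fix hij]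
  ring

theorem cap_tot (s : ℕ) (μ : Fin n → ℝ) : ∑ w : Fin s → Fin n, (∏ l, μ (w l)) = (∑ v, μ v) ^ s := by
  classical
  rw [← Fintype.piFinset_univ, ← prod_univ_sum (fun _ => univ) (fun (_ : Fin s) a => μ a), prod_const, card_univ,
    Fintype.card_fin]

/-- the sum over ordered pairs of indices -/
noncomputable def capPhi {s : ℕ} (κ : Fin n → Fin n → ℝ) (w : Fin s → Fin n) : ℝ :=
  ∑ i, ∑ j, if i ≠ j then κ (w i) (w j) else 0

theorem cap_mean {s : ℕ} (μ : Fin n → ℝ) (κ : Fin n → Fin n → ℝ) :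
    ∑ w : Fin s → Fin n, (∏ l, μ (w l)) * capPhi κ w =
      ((s : ℝ) * (s - 1)) * ((∑ v, μ v) ^ (s - 2) * ∑ v, ∑ u, μ v * μ u * κ v u) := by
  classical
  unfold capPhi
  have h1 : ∀ w : Fin s → Fin n, (∏ l, μ (w l)) * (∑ i, ∑ j, if i ≠ j then κ (w i) (w j) else 0) =
      ∑ i, ∑ j, if i ≠ j then (∏ l, μ (w l)) * κ (w i) (w j) else 0 := by
    intro w
    rw [mul_sum]
    apply sum_congr rfl
    intro i _
    rw [mul_sum]
    apply sum_congr rfl
    intro j _
    split_ifs
    · rfl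
    · ring
  rw [sum_congr rfl fun w _ => h1 w, sum_comm]
  have h2 : ∀ i : Fin s, ∑ w : Fin s → Fin n, ∑ j, (if i ≠ j then (∏ l, μ (w l)) * κ (w i) (w j) else 0) =
      ∑ j, if i ≠ j then ((∑ v, μ v) ^ (s - 2) * ∑ v, ∑ u, μ v * μ u * κ v u) else 0 := by
    intro i
    rw [sum_comm]
    apply sum_congr rfl
    intro j _
    by_cases hij : i ≠ j
    · simp only [if_pos hij]
      exact cap_ker hij μ κ
    · simp only [if_neg hij, sum_const_zero]
  rw [sum_congr rfl fun i _ => h2 i]
  set A := (∑ v, μ v) ^ (s - 2) * ∑ v, ∑ u, μ v * μ u * κ v u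
  have h3 : ∀ i : Fin s, (∑ j, if i ≠ j then A else 0) = ((s : ℝ) - 1) * A := by
    intro i
    have h4 : ∀ j : Fin s, (if i ≠ j then A else 0) = A - if i = j then A else 0 := by
      intro j
      by_cases h : i = j
      · simp [h]
      · simp [h]
    rw [sum_congr rfl fun j _ => h4 j, sum_sub_distrib, sum_ite_eq, if_pos (mem_univ i), sum_const, card_univ,
      Fintype.card_fin, nsmul_eq_mul]
    ring
  rw [sum_congr rfl fun i _ => h3 i, sum_const, card_univ, Fintype.card_fin, nsmul_eq_mul]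
  ring

/-- a good sample -/
theorem cap_exists {s : ℕ} (hs : 2 ≤ s) (μ : Fin n → ℝ) (h0 : ∀ v, 0 ≤ μ v) (hM : 0 < ∑ v, μ v)
    (κ : Fin n → Fin n → ℝ) {K : ℝ} (hK : ∑ v, ∑ u, μ v * μ u * κ v u ≤ (∑ v, μ v) ^ 2 * K) :
    ∃ w : Fin s → Fin n, capPhi κ w ≤ (s : ℝ) * (s - 1) * K := by
  classical
  set W : (Fin s → Fin n) → ℝ := fun w => ∏ l, μ (w l) with hW
  have hW0 : ∀ w, 0 ≤ W w := fun w => prod_nonneg fun l _ => h0 _
  have hWs : ∑ w, W w = (∑ v, μ v) ^ s := cap_tot s μ
  set P : Finset (Fin s → Fin n) := univ.filter fun w => 0 < W w with hP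
  have hsub : ∀ f : (Fin s → Fin n) → ℝ, ∑ w ∈ P, W w * f w = ∑ w, W w * f w := by
    intro f
    apply sum_subset (filter_subset _ _)
    intro w _ hw
    have h1 : ¬ 0 < W w := fun h => hw (mem_filter.2 ⟨mem_univ w, h⟩)
    have h2 : W w = 0 := le_antisymm (not_lt.1 h1) (hW0 w)
    rw [h2, zero_mul]
  have hPne : P.Nonempty := by
    by_contra hc
    rw [not_nonempty_iff_eq_empty] at hc
    have h1 := hsub fun _ => 1
    rw [hc, sum_empty] at h1
    simp only [mul_one] at h1
    rw [hWs] at h1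
    exact (pow_pos hM s).ne h1
  have hs1 : (0 : ℝ) ≤ (s : ℝ) * (s - 1) := by
    have : (2 : ℝ) ≤ s := by exact_mod_cast hs
    nlinarith
  have hle : ∑ w ∈ P, W w * capPhi κ w ≤ ∑ w ∈ P, W w * ((s : ℝ) * (s - 1) * K) := by
    rw [hsub, hsub, ← sum_mul, hWs, hW]
    simp only
    rw [cap_mean]
    have h1 : (∑ v, μ v) ^ s = (∑ v, μ v) ^ (s - 2) * (∑ v, μ v) ^ 2 := by
      rw [← pow_add]
      congr 1
      omega
    rw [h1]
    have h2 : (∑ v, μ v) ^ (s - 2) * ∑ v, ∑ u, μ v * μ u * κ v u ≤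
        (∑ v, μ v) ^ (s - 2) * ((∑ v, μ v) ^ 2 * K) := mul_le_mul_of_nonneg_left hK (pow_pos hM _).le
    calc _ ≤ ((s : ℝ) * (s - 1)) * ((∑ v, μ v) ^ (s - 2) * ((∑ v, μ v) ^ 2 * K)) :=
          mul_le_mul_of_nonneg_left h2 hs1
      _ = _ := by ring
  obtain ⟨w, hw, h1⟩ := exists_le_of_sum_le hPne hle
  have hwp : 0 < W w := (mem_filter.1 hw).2
  exact ⟨w, le_of_mul_le_mul_left h1 hwp⟩

open Classical in
theorem cap_col {s : ℕ} (w : Fin s → Fin n) :
    s ≤ (univ.image w).card + ((univ : Finset (Fin s × Fin s)).filter fun p => p.1 ≠ p.2 ∧ w p.1 = w p.2).card := by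
  rcases Nat.eq_zero_or_pos s with h0 | hs
  · exact h0.le.trans (Nat.zero_le _)
  have : Nonempty (Fin s) := ⟨⟨0, hs⟩⟩
  set g : Fin n → Fin s := Function.invFun w with hg
  have hgw : ∀ i, w (g (w i)) = w i := fun i => Function.invFun_eq ⟨i, rfl⟩
  set A : Finset (Fin s) := univ.filter fun i => g (w i) = i with hA
  set B : Finset (Fin s) := univ.filter fun i => g (w i) ≠ i with hB
  have hAB : A.card + B.card = s := by
    have := card_filter_add_card_filter_not (s := (univ : Finset (Fin s))) (fun i => g (w i) = i)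
    rw [card_univ, Fintype.card_fin] at this
    exact this
  have h1 : A.card ≤ (univ.image w).card := by
    apply card_le_card_of_injOn w
    · intro i _
      exact mem_coe.2 (mem_image_of_mem w (mem_univ i))
    · intro i hi j hj he
      have hi' := (mem_filter.1 (mem_coe.1 hi)).2
      have hj' := (mem_filter.1 (mem_coe.1 hj)).2
      rw [← hi', ← hj', he]
  have h2 : B.card ≤ ((univ : Finset (Fin s × Fin s)).filter fun p => p.1 ≠ p.2 ∧ w p.1 = w p.2).card := by
    apply card_le_card_of_injOn fun i => (i, g (w i))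
    · intro i hi
      have hi' := (mem_filter.1 (mem_coe.1 hi)).2
      rw [mem_coe, mem_filter]
      exact ⟨mem_univ _, Ne.symm hi', (hgw i).symm⟩
    · intro i _ j _ he
      exact (Prod.mk.inj he).1
  omega

open Classical in
theorem cap_non {s : ℕ} (x : Graph n) (w : Fin s → Fin n) {S : Finset (Fin n)} (hS : S ⊆ univ.image w) :
    2 * ((inside S).filter fun e => x e = false).card ≤
      ((univ : Finset (Fin s × Fin s)).filter fun p => p.1 ≠ p.2 ∧ Non x (w p.1) (w p.2)).card := by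
  rcases S.eq_empty_or_nonempty with h0 | ⟨v₀, hv₀⟩
  · have h1 : ((inside S).filter fun e => x e = false) = ∅ := by
      rw [h0, filter_eq_empty_iff]
      intro e he
      exfalso
      rw [mem_inside] at he
      obtain ⟨e, hed⟩ := e
      induction e using Sym2.ind with
      | _ a b => exact absurd (he a (Sym2.mem_mk_left a b)) (notMem_empty a)
    rw [h1, card_empty]
    exact Nat.zero_le _
  obtain ⟨i₀, -, -⟩ := mem_image.1 (hS hv₀)
  have : Nonempty (Fin s) := ⟨i₀⟩
  set g : Fin n → Fin s := Function.invFun w with hg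
  have hgw : ∀ v ∈ S, w (g v) = v := by
    intro v hv
    obtain ⟨i, -, hi⟩ := mem_image.1 (hS hv)
    exact Function.invFun_eq ⟨i, hi⟩
  set Q : Finset (Fin n × Fin n) := (S ×ˢ S).filter fun p => Non x p.1 p.2 with hQ
  have h1 : Q.card ≤ ((univ : Finset (Fin s × Fin s)).filter fun p => p.1 ≠ p.2 ∧ Non x (w p.1) (w p.2)).card := by
    apply card_le_card_of_injOn fun p => (g p.1, g p.2)
    · intro p hp
      rw [mem_coe, mem_filter, mem_product] at hp
      rw [mem_coe, mem_filter]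
      refine ⟨mem_univ _, ?_, ?_⟩
      · intro he
        have he' : g p.1 = g p.2 := he
        have h2 : p.1 = p.2 := by rw [← hgw _ hp.1.1, ← hgw _ hp.1.2, he']
        obtain ⟨e, he1, -⟩ := hp.2
        apply e.2
        rw [he1, h2]
        exact Sym2.mk_isDiag_iff.2 rfl
      · show Non x (w (g p.1)) (w (g p.2))
        rw [hgw _ hp.1.1, hgw _ hp.1.2]
        exact hp.2
    · intro p hp q hq he
      rw [mem_coe, mem_filter, mem_product] at hp hq
      obtain ⟨e1, e2⟩ := Prod.mk.inj he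
      refine Prod.ext ?_ ?_
      · rw [← hgw _ hp.1.1, ← hgw _ hq.1.1, e1]
      · rw [← hgw _ hp.1.2, ← hgw _ hq.1.2, e2]
  refine le_trans ?_ h1
  set Nn : Finset (Pair n) := (inside S).filter fun e => x e = false with hN
  -- fibres
  have h2 : ∑ e ∈ Nn, 2 ≤ ∑ e ∈ Nn, (Q.filter fun p => s(p.1, p.2) = e.1).card := by
    apply sum_le_sum
    rintro ⟨e, hed⟩ he
    rw [hN, mem_filter, mem_inside] at he
    induction e using Sym2.ind with
    | _ a b =>
      have hab : a ≠ b := fun h => hed (Sym2.mk_isDiag_iff.2 h)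
      have haS : a ∈ S := he.1 a (Sym2.mem_mk_left a b)
      have hbS : b ∈ S := he.1 b (Sym2.mem_mk_right a b)
      have h3 : ({(a, b), (b, a)} : Finset (Fin n × Fin n)) ⊆ Q.filter fun p => s(p.1, p.2) = s(a, b) := by
        intro p hp
        rw [mem_insert, mem_singleton] at hp
        rw [mem_filter, hQ, mem_filter, mem_product]
        rcases hp with rfl | rfl
        · exact ⟨⟨⟨haS, hbS⟩, ⟨⟨s(a, b), hed⟩, rfl, he.2⟩⟩, rfl⟩
        · exact ⟨⟨⟨hbS, haS⟩, ⟨⟨s(a, b), hed⟩, Sym2.eq_swap, he.2⟩⟩, Sym2.eq_swap⟩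
      have h4 := card_le_card h3
      rw [card_pair (fun h => hab (Prod.mk.inj h).1)] at h4
      exact h4
  have h3 : ∑ e ∈ Nn, (Q.filter fun p => s(p.1, p.2) = e.1).card ≤ Q.card := by
    rw [← card_biUnion]
    · apply card_le_card
      intro p hp
      rw [mem_biUnion] at hp
      obtain ⟨e, -, he⟩ := hp
      exact (mem_filter.1 he).1
    · intro e _ e' _ hne
      change Disjoint _ _
      rw [disjoint_left]
      intro p hp hp'
      apply hne
      apply Subtype.ext
      rw [← (mem_filter.1 hp).2, ← (mem_filter.1 hp').2]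
  rw [sum_const, smul_eq_mul, mul_comm] at h2
  exact h2.trans h3

open Classical in
theorem cap (hn : 4 ≤ n) (x : Graph n) (hx : Typ x) (μ : Fin n → ℝ) (h0 : ∀ v, 0 ≤ μ v)
    (hM : 0 < ∑ v, μ v) (hs : ∀ v, μ v ≤ (∑ v, μ v) / (256 * lg n))
    (hN : ∑ v, ∑ w, (if Non x v w then μ v * μ w else 0) ≤ (∑ v, μ v) ^ 2 / 256) : False := by
  have hL : 2 ≤ lg n := by
    have h1 : Real.logb 2 4 ≤ Real.logb 2 n :=
      Real.logb_le_logb_of_le (by norm_num) (by norm_num) (by exact_mod_cast hn)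
    have h2 : Real.logb 2 4 = 2 := by
      rw [show (4 : ℝ) = 2 ^ (2 : ℝ) by norm_num, Real.logb_rpow (by norm_num) (by norm_num)]
    linarith
  set L : ℝ := lg n with hLd
  set M : ℝ := ∑ v, μ v with hMd
  set z : ℕ := sz n with hz
  have hz1 : 8 * L + 1 ≤ (z : ℝ) := by
    have := Nat.le_ceil (8 * lg n)
    rw [hz]
    unfold sz
    push_cast
    linarith
  have hz2 : (z : ℝ) ≤ 9 * L := by
    have := Nat.ceil_lt_add_one (a := 8 * lg n) (by linarith)
    rw [hz]
    unfold sz
    push_cast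
    linarith
  have hz17 : (17 : ℝ) ≤ z := by linarith
  have hzN : 17 ≤ z := by exact_mod_cast hz17
  set κ : Fin n → Fin n → ℝ := fun v u => (if Non x v u then 1 else 0) + L * (if v = u then 1 else 0) with hκ
  have hK : ∑ v, ∑ u, μ v * μ u * κ v u ≤ M ^ 2 * (1 / 128) := by
    have h1 : ∀ v u, μ v * μ u * κ v u = (if Non x v u then μ v * μ u else 0) + L * (if v = u then μ v * μ u else 0) := by
      intro v u
      rw [hκ]
      simp only
      split_ifs <;> ring
    have h2 : ∑ v, ∑ u, μ v * μ u * κ v u = (∑ v, ∑ u, if Non x v u then μ v * μ u else 0) + L * ∑ v, μ v * μ v := by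
      rw [mul_sum, ← sum_add_distrib]
      apply sum_congr rfl
      intro v _
      rw [sum_congr rfl fun u _ => h1 v u, sum_add_distrib, ← mul_sum, sum_ite_eq, if_pos (mem_univ v)]
    have h3 : ∑ v, μ v * μ v ≤ ∑ v, μ v * (M / (256 * L)) :=
      sum_le_sum fun v _ => mul_le_mul_of_nonneg_left (hs v) (h0 v)
    rw [← sum_mul] at h3
    have h4 : L * ∑ v, μ v * μ v ≤ M ^ 2 / 256 := by
      have h5 : L * ∑ v, μ v * μ v ≤ L * (M * (M / (256 * L))) := mul_le_mul_of_nonneg_left h3 (by linarith)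
      have h6 : L * (M * (M / (256 * L))) = M ^ 2 / 256 := by
        have : L ≠ 0 := by linarith
        field_simp
      linarith
    rw [h2]
    linarith
  obtain ⟨w, hw⟩ := cap_exists (s := 2 * z) (by omega) μ h0 hM κ hK
  set Cs := ((univ : Finset (Fin (2 * z) × Fin (2 * z))).filter fun p => p.1 ≠ p.2 ∧ w p.1 = w p.2) with hCs
  set Ns := ((univ : Finset (Fin (2 * z) × Fin (2 * z))).filter fun p => p.1 ≠ p.2 ∧ Non x (w p.1) (w p.2)) with hNs
  have hPhi : capPhi κ w = (Ns.card : ℝ) + L * (Cs.card : ℝ) := by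
    unfold capPhi
    rw [hNs, hCs, card_filter, card_filter]
    push_cast
    rw [mul_sum, ← sum_add_distrib, Fintype.sum_prod_type]
    apply sum_congr rfl
    intro i _
    apply sum_congr rfl
    intro j _
    rw [hκ]
    simp only
    by_cases h1 : i = j
    · simp [h1]
    · simp [h1]
  rw [hPhi] at hw
  push_cast at hw
  have hC0 : (0 : ℝ) ≤ Cs.card := Nat.cast_nonneg _
  have hN0 : (0 : ℝ) ≤ Ns.card := Nat.cast_nonneg _
  have hLC : 0 ≤ L * (Cs.card : ℝ) := mul_nonneg (by linarith) hC0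
  have hzz : 2 * (z : ℝ) * (2 * z - 1) * (1 / 128) ≤ (z : ℝ) ^ 2 / 32 := by nlinarith
  have hC1 : (Cs.card : ℝ) ≤ 9 * z / 32 := by
    have h1 : L * (Cs.card : ℝ) ≤ (z : ℝ) ^ 2 / 32 := by linarith
    have h2 : (z : ℝ) ^ 2 / 32 ≤ L * (9 * z / 32) := by nlinarith
    exact le_of_mul_le_mul_left (h1.trans h2) (by linarith)
  have hcol := cap_col w
  have hI : z ≤ (univ.image w).card := by
    have h1 : ((2 * z : ℕ) : ℝ) ≤ ((univ.image w).card : ℝ) + (Cs.card : ℝ) := by exact_mod_cast hcol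
    push_cast at h1
    have h2 : (z : ℝ) ≤ ((univ.image w).card : ℝ) := by linarith
    exact_mod_cast h2
  obtain ⟨S, hSI, hSz⟩ := exists_subset_card_eq hI
  have hnon := cap_non x w hSI
  have htyp := hx S hSz
  rw [card_inside, hSz] at htyp
  have h1 : (2 : ℝ) * (((inside S).filter fun e => x e = false).card : ℝ) ≤ Ns.card := by exact_mod_cast hnon
  have h2 : ((z.choose 2 : ℕ) : ℝ) < 16 * (((inside S).filter fun e => x e = false).card : ℝ) := by exact_mod_cast htyp
  rw [Nat.cast_choose_two] at h2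
  nlinarith

end LDK
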