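import Pool.Agent.LDK.Par

/-!
# Cc (difficulty 3): the positive results

Uses par, Fp_good, deg_Fp, Fp_congr, avg_clique, card_inside (stubs). PROOFS.
Cpol: s, n₀ from par; C := 8 * s... f := Fp A. totalDegree ≤ s * k.choose 2 ≤ s * k^2/2 ≤ s (2 L + 1)^2 / 2 ≤ s * (3 L)^2 ≤ 9 s L^2 with L = lg n ≥ 2 (C = 9 s + 1). Norm: 3 k ≤ 3 (2 L + 1) ≤ 8 L.
Success: on the event of par, Fp_good gives the clique A i l with k ≥ c L vertices.
Dnoise: same data. K x := if (event at x) then univ.filter (fun v => val (Fp A v) x = 1) else ∅. On the event K x = A i l of Fp_good. So K x = ∅ or a clique with k ≥ c L vertices;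
|K x| ≤ k. K x ≠ ∅ on the event, because k ≥ c L > 0 (so A i l is nonempty). K x depends only on the values Y (A i l) x (Fp_congr; Z is a sum of Y). So
|K x \ K y| ≤ k * ∑ i l, [Y (A i l) x ≠ Y (A i l) y] (if all are equal, K x = K y and the left side is 0; otherwise the left side is ≤ k).
[Y_A x ≠ Y_A y] = [A clique of x, not of y] + [A clique of y, not of x]; both have the same noise average (avgNoise_symm), and
avgNoise [A clique of x, not of y] ≤ avg over x of [A clique of x] * ∑ F, rho F [∃ e ∈ inside A, F e = true] ≤ (1/2)^m * m τ (avgNoise_eq, union bound with rho_one, avg_clique),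
m = k.choose 2. Total ≤ k * (s M) * 2 * (1/2)^m * m * τ ≤ 2 s k m τ ≤ s k^3 τ ≤ s (3 L)^3 τ = 27 s L^3 τ.
-/

namespace LDK

open Finset

theorem cc_k {L k : ℝ} (h1 : k ≤ 2 * L + 1) (h2 : 2 ≤ L) : k ≤ 3 * L := by linarith

theorem cc_choose {L : ℝ} {k : ℕ} (h1 : (k : ℝ) ≤ 3 * L) : ((k.choose 2 : ℕ) : ℝ) ≤ 9 * L ^ 2 := by
  have h2 : k.choose 2 ≤ k ^ 2 := Nat.choose_le_pow k 2
  have h3 : ((k.choose 2 : ℕ) : ℝ) ≤ (k : ℝ) ^ 2 := by exact_mod_cast h2
  have h0 : (0 : ℝ) ≤ k := Nat.cast_nonneg k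
  nlinarith

open Classical in
theorem Cpol (c ε : ℝ) (hc : 0 < c) (hc2 : c < 2) (hε : 0 < ε) :
    ∃ C : ℝ, ∃ n₀ : ℕ, ∀ n ≥ n₀, ∃ f : Fin n → MvPolynomial (Pair n) ℝ,
      (∀ v, ((f v).totalDegree : ℝ) ≤ C * (lg n) ^ 2) ∧
      avg (fun x => ∑ v, val (f v) x ^ 2) ≤ 8 * lg n ∧
      1 - ε ≤ avg (fun x => if ∃ A : Finset (Fin n), IsClique x A ∧ c * lg n ≤ (A.card : ℝ) ∧
        ∀ v, val (f v) x = (if v ∈ A then 1 else 0) then (1 : ℝ) else 0) := by
  obtain ⟨s, n₀, h⟩ := par c ε hc hc2 hε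
  refine ⟨9 * s, n₀, fun n hn => ?_⟩
  obtain ⟨k, M, A, h1, h2, h3, h4, h5, h6, h7⟩ := h n hn
  have hk0 : (0 : ℝ) ≤ k := Nat.cast_nonneg k
  have hk3 : (k : ℝ) ≤ 3 * lg n := cc_k h2 h3
  refine ⟨Fp A, fun v => ?_, ?_, ?_⟩
  · have hd : (Fp A v).totalDegree ≤ s * k.choose 2 := deg_Fp A k h4 v
    have hd2 : ((Fp A v).totalDegree : ℝ) ≤ s * ((k.choose 2 : ℕ) : ℝ) := by exact_mod_cast hd
    have hs : (0 : ℝ) ≤ s := Nat.cast_nonneg s
    have := mul_le_mul_of_nonneg_left (cc_choose hk3) hs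
    linarith
  · linarith
  · have h8 : ∀ x : Graph n, 1 - (if (∀ i, Z (A i) x ≤ 1) ∧ ∃ i, Z (A i) x = 1 then (0 : ℝ) else 1) ≤
        (if ∃ B : Finset (Fin n), IsClique x B ∧ c * lg n ≤ (B.card : ℝ) ∧
          ∀ v, val (Fp A v) x = (if v ∈ B then 1 else 0) then (1 : ℝ) else 0) := by
      intro x
      by_cases ha : (∀ i, Z (A i) x ≤ 1) ∧ ∃ i, Z (A i) x = 1
      · obtain ⟨i, l, hc1, hv⟩ := Fp_good A x ha.1 ha.2
        have hb : ∃ B : Finset (Fin n), IsClique x B ∧ c * lg n ≤ (B.card : ℝ) ∧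
            ∀ v, val (Fp A v) x = (if v ∈ B then 1 else 0) := by
          refine ⟨A i l, hc1, ?_, fun v => ?_⟩
          · rw [h4 i l]
            exact h1
          · rw [hv v]
        rw [if_pos ha, if_pos hb]
        norm_num
      · rw [if_neg ha]
        split_ifs <;> norm_num
    refine le_trans ?_ (avg_mono h8)
    rw [avg_sub (fun _ => 1)
      (fun x => (if (∀ i, Z (A i) x ≤ 1) ∧ ∃ i, Z (A i) x = 1 then (0 : ℝ) else 1)), avg_const]
    linarith

open Classical in
/-- The noise makes a clique disappear with small probability. -/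
theorem cc_noise {n : ℕ} (B : Finset (Fin n)) {τ : ℝ} (h0 : 0 ≤ τ) (h1 : τ ≤ 1) :
    avgNoise τ (fun x y => if IsClique x B ∧ ¬ IsClique y B then (1 : ℝ) else 0) ≤
      (1 / 2) ^ (inside B).card * ((inside B).card * τ) := by
  rw [avgNoise_eq]
  have h2 : ∀ x : Graph n, ∑ F, rho τ F *
      (if IsClique x B ∧ ¬ IsClique (flip x F) B then (1 : ℝ) else 0) ≤
      ((inside B).card * τ) * (if IsClique x B then (1 : ℝ) else 0) := by
    intro x
    by_cases hx : IsClique x B
    · have h3 : ∀ F : Graph n, rho τ F *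
          (if IsClique x B ∧ ¬ IsClique (flip x F) B then (1 : ℝ) else 0) ≤
          ∑ e ∈ inside B, rho τ F * (if F e = true then 1 else 0) := by
        intro F
        have hr := rho_nonneg h0 h1 F
        have hnn : ∀ e ∈ inside B, 0 ≤ rho τ F * (if F e = true then (1 : ℝ) else 0) := by
          intro e _
          split_ifs <;> simp [hr]
        by_cases hy : IsClique (flip x F) B
        · rw [if_neg (fun h => h.2 hy), mul_zero]
          exact sum_nonneg hnn
        · rw [if_pos ⟨hx, hy⟩, mul_one]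
          have hy2 : ∃ e : Pair n, (∀ v ∈ e.1, v ∈ B) ∧ flip x F e ≠ true := by
            unfold IsClique at hy
            push Not at hy
            exact hy
          obtain ⟨e, he, hf⟩ := hy2
          have hxe : x e = true := hx e he
          have hFe : F e = true := by
            unfold flip at hf
            rw [hxe] at hf
            cases hFe : F e
            · rw [hFe] at hf
              exact absurd rfl hf
            · rfl
          have h4 : rho τ F * (if F e = true then (1 : ℝ) else 0) ≤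
              ∑ e ∈ inside B, rho τ F * (if F e = true then (1 : ℝ) else 0) :=
            single_le_sum (f := fun e => rho τ F * (if F e = true then (1 : ℝ) else 0)) hnn
              (mem_inside.2 he)
          rw [if_pos hFe, mul_one] at h4
          exact h4
      refine (sum_le_sum fun F _ => h3 F).trans ?_
      rw [sum_comm, if_pos hx, mul_one]
      have h5 : ∀ e ∈ inside B, ∑ F : Graph n, rho τ F * (if F e = true then (1 : ℝ) else 0) = τ :=
        fun e _ => rho_one τ e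
      rw [sum_congr rfl h5, sum_const, nsmul_eq_mul]
    · rw [if_neg hx, mul_zero]
      apply le_of_eq
      apply sum_eq_zero
      intro F _
      rw [if_neg (fun h => hx h.1), mul_zero]
  refine (avg_mono h2).trans ?_
  rw [avg_mul_left ((inside B).card * τ) fun x => (if IsClique x B then (1 : ℝ) else 0), avg_clique]
  apply le_of_eq
  ring

open Classical in
theorem cc_noise2 {n : ℕ} (B : Finset (Fin n)) {τ : ℝ} (h0 : 0 ≤ τ) (h1 : τ ≤ 1) :
    avgNoise τ (fun x y => if Y B x = Y B y then (0 : ℝ) else 1) ≤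
      2 * ((1 / 2) ^ (inside B).card * ((inside B).card * τ)) := by
  have h2 : ∀ x y : Graph n, (if Y B x = Y B y then (0 : ℝ) else 1) ≤
      (if IsClique x B ∧ ¬ IsClique y B then (1 : ℝ) else 0) +
      (if IsClique y B ∧ ¬ IsClique x B then (1 : ℝ) else 0) := by
    intro x y
    unfold Y
    by_cases hx : IsClique x B <;> by_cases hy : IsClique y B <;> simp [hx, hy]
  refine (avgNoise_mono h0 h1 h2).trans ?_
  rw [avgNoise_add τ (fun x y => if IsClique x B ∧ ¬ IsClique y B then (1 : ℝ) else 0)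
    (fun x y => if IsClique y B ∧ ¬ IsClique x B then (1 : ℝ) else 0)]
  have h3 := avgNoise_symm τ (fun x y : Graph n => if IsClique x B ∧ ¬ IsClique y B then (1 : ℝ) else 0)
  have h4 := cc_noise B h0 h1
  linarith

open Classical in
theorem Dnoise (c ε : ℝ) (hc : 0 < c) (hc2 : c < 2) (hε : 0 < ε) :
    ∃ C : ℝ, ∃ n₀ : ℕ, ∀ n ≥ n₀, ∃ K : Graph n → Finset (Fin n),
      (∀ x, K x = ∅ ∨ (IsClique x (K x) ∧ c * lg n ≤ ((K x).card : ℝ))) ∧
      1 - ε ≤ avg (fun x => if K x = ∅ then (0 : ℝ) else 1) ∧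
      ∀ τ : ℝ, 0 ≤ τ → τ ≤ 1 →
        avgNoise τ (fun x y => ((K x \ K y).card : ℝ)) ≤ C * τ * (lg n) ^ 3 := by
  obtain ⟨s, n₀, h⟩ := par c ε hc hc2 hε
  refine ⟨54 * s, n₀, fun n hn => ?_⟩
  obtain ⟨k, M, A, h1, h2, h3, h4, h5, h6, h7⟩ := h n hn
  have hk0 : (0 : ℝ) ≤ k := Nat.cast_nonneg k
  have hk3 : (k : ℝ) ≤ 3 * lg n := cc_k h2 h3
  have hkpos : 0 < k := by
    have hpos : 0 < c * lg n := mul_pos hc (by linarith)
    have : (0 : ℝ) < k := lt_of_lt_of_le hpos h1
    exact_mod_cast this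
  obtain ⟨K, hK⟩ : ∃ K : Graph n → Finset (Fin n), K = fun x =>
      if (∀ i, Z (A i) x ≤ 1) ∧ ∃ i, Z (A i) x = 1 then
        univ.filter (fun v => val (Fp A v) x = 1) else ∅ := ⟨_, rfl⟩
  have hKneg : ∀ x, ¬ ((∀ i, Z (A i) x ≤ 1) ∧ ∃ i, Z (A i) x = 1) → K x = ∅ := by
    intro x hx
    rw [hK]
    exact if_neg hx
  have hKpos : ∀ x, ((∀ i, Z (A i) x ≤ 1) ∧ ∃ i, Z (A i) x = 1) →
      ∃ i l, IsClique x (A i l) ∧ K x = A i l := by
    intro x hx
    obtain ⟨i, l, hc1, hv⟩ := Fp_good A x hx.1 hx.2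
    refine ⟨i, l, hc1, ?_⟩
    have hK2 : K x = univ.filter (fun v => val (Fp A v) x = 1) := by
      rw [hK]
      exact if_pos hx
    rw [hK2]
    ext v
    rw [mem_filter, hv v]
    by_cases hvm : v ∈ A i l
    · simp [hvm]
    · simp [hvm]
  have hKcard : ∀ x, (K x).card ≤ k := by
    intro x
    by_cases hx : (∀ i, Z (A i) x ≤ 1) ∧ ∃ i, Z (A i) x = 1
    · obtain ⟨i, l, _, h8⟩ := hKpos x hx
      rw [h8, h4]
    · rw [hKneg x hx]
      simp
  have hKcongr : ∀ x y, (∀ i l, Y (A i l) x = Y (A i l) y) → K x = K y := by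
    intro x y hxy
    have hZ : ∀ i, Z (A i) x = Z (A i) y := fun i => sum_congr rfl fun l _ => hxy i l
    have hF : ∀ v, val (Fp A v) x = val (Fp A v) y := fun v => Fp_congr A x y hxy v
    rw [hK]
    simp only [hZ, hF]
  refine ⟨K, ?_, ?_, ?_⟩
  · intro x
    by_cases hx : (∀ i, Z (A i) x ≤ 1) ∧ ∃ i, Z (A i) x = 1
    · obtain ⟨i, l, hc1, h8⟩ := hKpos x hx
      right
      rw [h8, h4]
      exact ⟨hc1, h1⟩
    · left
      exact hKneg x hx
  · have h8 : ∀ x : Graph n, 1 - (if (∀ i, Z (A i) x ≤ 1) ∧ ∃ i, Z (A i) x = 1 then (0 : ℝ) else 1) ≤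
        (if K x = ∅ then (0 : ℝ) else 1) := by
      intro x
      by_cases hx : (∀ i, Z (A i) x ≤ 1) ∧ ∃ i, Z (A i) x = 1
      · obtain ⟨i, l, hc1, h8⟩ := hKpos x hx
        have h9 : K x ≠ ∅ := by
          rw [h8, ← Finset.card_pos.trans Finset.nonempty_iff_ne_empty, h4]
          exact hkpos
        rw [if_pos hx, if_neg h9]
        norm_num
      · rw [if_neg hx]
        split_ifs <;> norm_num
    refine le_trans ?_ (avg_mono h8)
    rw [avg_sub (fun _ => 1)
      (fun x => (if (∀ i, Z (A i) x ≤ 1) ∧ ∃ i, Z (A i) x = 1 then (0 : ℝ) else 1)), avg_const]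
    linarith
  · intro τ hτ0 hτ1
    have h8 : ∀ x y : Graph n, ((K x \ K y).card : ℝ) ≤
        ∑ i, ∑ l, (k : ℝ) * (if Y (A i l) x = Y (A i l) y then (0 : ℝ) else 1) := by
      intro x y
      have hnn : ∀ i l, 0 ≤ (k : ℝ) * (if Y (A i l) x = Y (A i l) y then (0 : ℝ) else 1) := by
        intro i l
        split_ifs
        · simp
        · simp
      by_cases hxy : ∀ i l, Y (A i l) x = Y (A i l) y
      · rw [hKcongr x y hxy, sdiff_self]
        have he : (((⊥ : Finset (Fin n)).card : ℕ) : ℝ) = 0 := by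
          rw [bot_eq_empty, card_empty, Nat.cast_zero]
        rw [he]
        exact sum_nonneg fun i _ => sum_nonneg fun l _ => hnn i l
      · push Not at hxy
        obtain ⟨i, l, hil⟩ := hxy
        have h9 : (k : ℝ) * (if Y (A i l) x = Y (A i l) y then (0 : ℝ) else 1) ≤
            ∑ l, (k : ℝ) * (if Y (A i l) x = Y (A i l) y then (0 : ℝ) else 1) :=
          single_le_sum (f := fun l => (k : ℝ) * (if Y (A i l) x = Y (A i l) y then (0 : ℝ) else 1))
            (fun l _ => hnn i l) (mem_univ l)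
        have h10 : ∑ l, (k : ℝ) * (if Y (A i l) x = Y (A i l) y then (0 : ℝ) else 1) ≤
            ∑ i, ∑ l, (k : ℝ) * (if Y (A i l) x = Y (A i l) y then (0 : ℝ) else 1) :=
          single_le_sum (f := fun i => ∑ l, (k : ℝ) *
            (if Y (A i l) x = Y (A i l) y then (0 : ℝ) else 1))
            (fun i _ => sum_nonneg fun l _ => hnn i l) (mem_univ i)
        rw [if_neg hil, mul_one] at h9
        have h11 : ((K x \ K y).card : ℝ) ≤ k := by
          have : (K x \ K y).card ≤ k := (card_le_card sdiff_subset).trans (hKcard x)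
          exact_mod_cast this
        linarith
    refine (avgNoise_mono hτ0 hτ1 h8).trans ?_
    rw [avgNoise_sum univ τ fun i x y =>
      ∑ l, (k : ℝ) * (if Y (A i l) x = Y (A i l) y then (0 : ℝ) else 1)]
    have h9 : ∀ i, avgNoise τ (fun x y =>
        ∑ l, (k : ℝ) * (if Y (A i l) x = Y (A i l) y then (0 : ℝ) else 1)) ≤
        k * (2 * (((k.choose 2 : ℕ) : ℝ) * τ)) := by
      intro i
      rw [avgNoise_sum univ τ fun l x y =>
        (k : ℝ) * (if Y (A i l) x = Y (A i l) y then (0 : ℝ) else 1)]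
      have h10 : ∀ l, avgNoise τ (fun x y =>
          (k : ℝ) * (if Y (A i l) x = Y (A i l) y then (0 : ℝ) else 1)) ≤
          k * (2 * ((1 / 2) ^ (k.choose 2) * (((k.choose 2 : ℕ) : ℝ) * τ))) := by
        intro l
        rw [avgNoise_mul_left τ k fun x y => (if Y (A i l) x = Y (A i l) y then (0 : ℝ) else 1)]
        have h11 := cc_noise2 (A i l) hτ0 hτ1
        rw [card_inside, h4] at h11
        exact mul_le_mul_of_nonneg_left h11 hk0
      refine (sum_le_sum fun l _ => h10 l).trans ?_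
      rw [sum_const, card_univ, Fintype.card_fin, nsmul_eq_mul]
      have h12 : (M : ℝ) * (k * (2 * ((1 / 2) ^ (k.choose 2) * (((k.choose 2 : ℕ) : ℝ) * τ)))) =
          ((M : ℝ) * (1 / 2) ^ (k.choose 2)) * (k * (2 * (((k.choose 2 : ℕ) : ℝ) * τ))) := by ring
      rw [h12]
      have h13 : (0 : ℝ) ≤ k * (2 * (((k.choose 2 : ℕ) : ℝ) * τ)) :=
        mul_nonneg hk0 (mul_nonneg (by norm_num) (mul_nonneg (Nat.cast_nonneg _) hτ0))
      calc ((M : ℝ) * (1 / 2) ^ (k.choose 2)) * (k * (2 * (((k.choose 2 : ℕ) : ℝ) * τ)))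
          ≤ 1 * (k * (2 * (((k.choose 2 : ℕ) : ℝ) * τ))) := mul_le_mul_of_nonneg_right h5 h13
        _ = _ := one_mul _
    refine (sum_le_sum fun i _ => h9 i).trans ?_
    rw [sum_const, card_univ, Fintype.card_fin, nsmul_eq_mul]
    have hL : 0 ≤ lg n := by linarith
    have h14 : (k : ℝ) * (((k.choose 2 : ℕ) : ℝ)) ≤ 3 * lg n * (9 * lg n ^ 2) :=
      mul_le_mul hk3 (cc_choose hk3) (Nat.cast_nonneg _) (by linarith)
    have hs : (0 : ℝ) ≤ s := Nat.cast_nonneg s
    calc (s : ℝ) * (k * (2 * (((k.choose 2 : ℕ) : ℝ) * τ)))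
        = (s * (2 * τ)) * (k * (((k.choose 2 : ℕ) : ℝ))) := by ring
      _ ≤ (s * (2 * τ)) * (3 * lg n * (9 * lg n ^ 2)) :=
          mul_le_mul_of_nonneg_left h14 (mul_nonneg hs (by linarith))
      _ = 54 * s * τ * lg n ^ 3 := by ring

end LDK
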