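import Pool.Agent.LDK.Basic

/-!
# Chi (difficulty 2): characters and noise

PROOFS. chi_flip: pointwise: (if xor a b then -1 else 1) = (if a then -1 else 1) * (if b then -1 else 1), prod_mul_distrib.
chi_orth: chi S x * chi T x = ∏ e, a_e(x e) with a_e(b) = (sign if e ∈ S) * (sign if e ∈ T); sum over x by Basic.sum_prod: for e in exactly
one of S, T the factor is (-1) + 1 = 0; if S = T every factor is 2 and the sum is 2^(number of pairs) = card (card_graph).
(Alternative: for S ≠ T choose e in the symmetric difference and use the involution flipping e.)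
chi_noise: avgNoise_eq, chi_flip: = avg (chi S * chi T) * ∑ F, rho F * chi T F, and ∑ F, rho F * chi T F = (1 - 2τ)^|T| is rho_prod with
a = -1, b = 1.
-/

namespace LDK

open Finset

variable {n : ℕ}

/-- The character of a set of pairs. -/
noncomputable def chi (S : Finset (Pair n)) (x : Graph n) : ℝ :=
  ∏ e ∈ S, (if x e = true then (-1 : ℝ) else 1)

theorem chi_flip (S : Finset (Pair n)) (x F : Graph n) : chi S (flip x F) = chi S x * chi S F := by
  unfold chi
  rw [← prod_mul_distrib]
  apply prod_congr rfl
  intro e _
  unfold flip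
  cases x e <;> cases F e <;> simp

theorem chi_symm (S T : Finset (Pair n)) (x : Graph n) : chi S x * chi T x = chi (symmDiff S T) x := by
  have h : ∀ U : Finset (Pair n), chi U x = ∏ e, (if e ∈ U then (if x e = true then (-1 : ℝ) else 1) else 1) := by
    intro U
    unfold chi
    rw [prod_ite_mem, univ_inter]
  rw [h S, h T, h (symmDiff S T), ← prod_mul_distrib]
  apply prod_congr rfl
  intro e _
  by_cases h1 : e ∈ S <;> by_cases h2 : e ∈ T <;> cases x e <;> simp [h1, h2, mem_symmDiff]

theorem chi_orth (S T : Finset (Pair n)) :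
    avg (fun x : Graph n => chi S x * chi T x) = if S = T then (1 : ℝ) else 0 := by
  have h1 : avg (fun x : Graph n => chi S x * chi T x) = (((-1 : ℝ) + 1) / 2) ^ (symmDiff S T).card := by
    rw [← avg_prod]
    apply avg_congr
    intro x
    exact chi_symm S T x
  rw [h1]
  by_cases h : S = T
  · rw [if_pos h, h, symmDiff_self]
    simp
  · rw [if_neg h]
    have h2 : (symmDiff S T).card ≠ 0 := by
      rw [Ne, card_eq_zero]
      intro h3
      exact h (symmDiff_eq_bot.1 h3)
    rw [neg_add_cancel, zero_div, zero_pow h2]

theorem chi_noise (τ : ℝ) (S T : Finset (Pair n)) :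
    avgNoise τ (fun x y => chi S x * chi T y) = if S = T then (1 - 2 * τ) ^ S.card else 0 := by
  have h1 : ∑ F : Graph n, rho τ F * chi T F = (1 - 2 * τ) ^ T.card := by
    have h := rho_prod (n := n) τ T (-1) 1
    unfold chi
    rw [h]
    congr 1
    ring
  rw [avgNoise_eq]
  have h2 : ∀ x : Graph n, ∑ F, rho τ F * (chi S x * chi T (flip x F)) =
      (1 - 2 * τ) ^ T.card * (chi S x * chi T x) := by
    intro x
    rw [← h1, sum_mul]
    apply sum_congr rfl
    intro F _
    rw [chi_flip]
    ring
  rw [avg_congr h2, avg_mul_left, chi_orth]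
  by_cases h : S = T
  · rw [if_pos h, if_pos h, mul_one, h]
  · rw [if_neg h, if_neg h, mul_zero]

end LDK
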