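import Mathlib

/-!
# Noise, low degree polynomials and cliques of random graphs: definitions
-/

namespace LDK

/-- Unordered pairs of distinct vertices of `{0, ..., n-1}`. -/
abbrev Pair (n : ℕ) := {e : Sym2 (Fin n) // ¬ e.IsDiag}

/-- Graphs on `{0, ..., n-1}`: the value at a pair tells whether the pair is an edge. -/
abbrev Graph (n : ℕ) := Pair n → Bool

/-- `A` is a clique of `x`. -/
def IsClique {n : ℕ} (x : Graph n) (A : Finset (Fin n)) : Prop :=
  ∀ e : Pair n, (∀ v ∈ e.1, v ∈ A) → x e = true

/-- Average over the uniform random graph. -/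
noncomputable def avg {n : ℕ} (f : Graph n → ℝ) : ℝ :=
  (∑ x, f x) / Fintype.card (Graph n)

/-- Average over pairs `(x, y)`, where `x` is uniform and `y` arises from `x` by flipping each pair
independently with probability `τ`. -/
noncomputable def avgNoise {n : ℕ} (τ : ℝ) (f : Graph n → Graph n → ℝ) : ℝ :=
  avg fun x => ∑ y, (∏ e, if x e = y e then 1 - τ else τ) * f x y

/-- Value of a polynomial, in one variable per pair, at (the `0/1` indicator of) a graph. -/
noncomputable def val {n : ℕ} (p : MvPolynomial (Pair n) ℝ) (x : Graph n) : ℝ :=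
  MvPolynomial.eval (fun e => if x e = true then (1 : ℝ) else 0) p

open Classical in
/-- The polynomials `f v` find a clique of `x` with at least `c log n` vertices: there is such a clique `A` with `f v ≥ 1` on `A`,
and `f v ≤ 1/2` outside `A` with at most `a log n` exceptions. -/
def Finds {n : ℕ} (c a : ℝ) (f : Fin n → MvPolynomial (Pair n) ℝ) (x : Graph n) : Prop :=
  ∃ A : Finset (Fin n), IsClique x A ∧ c * Real.logb 2 n ≤ (A.card : ℝ) ∧
    (∀ v ∈ A, 1 ≤ val (f v) x) ∧
    (((Finset.univ.filter fun v => v ∉ A ∧ 1 / 2 < val (f v) x).card : ℕ) : ℝ) ≤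
      a * Real.logb 2 n

/-! ### Auxiliary notions -/

/-- Flip the pairs of `F`. -/
def flip {n : ℕ} (x F : Graph n) : Graph n := fun e => xor (x e) (F e)

/-- Weight of the random set `F` which contains each pair with probability `τ`. -/
noncomputable def rho {n : ℕ} (τ : ℝ) (F : Graph n) : ℝ :=
  ∏ e, if F e = true then τ else 1 - τ

open Classical in
/-- Pairs inside `A`. -/
noncomputable def inside {n : ℕ} (A : Finset (Fin n)) : Finset (Pair n) :=
  Finset.univ.filter fun e => ∀ v ∈ e.1, v ∈ A

/-- `v`, `w` are distinct and not adjacent. -/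
def Non {n : ℕ} (x : Graph n) (v w : Fin n) : Prop := ∃ e : Pair n, e.1 = s(v, w) ∧ x e = false

/-- The binary logarithm of `n`. -/
noncomputable abbrev lg (n : ℕ) : ℝ := Real.logb 2 n

/-- A size at which there are no near cliques. -/
noncomputable def sz (n : ℕ) : ℕ := ⌈8 * lg n⌉₊ + 1

open Classical in
/-- No set of `sz n` vertices is nearly complete. -/
def Typ {n : ℕ} (x : Graph n) : Prop :=
  ∀ S : Finset (Fin n), S.card = sz n →
    (inside S).card < 16 * ((inside S).filter fun e => x e = false).card

end LDK
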