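import Pool.Agent.LDK.Basic

/-!
# Dep (difficulty 3): independence of functions of disjoint sets of pairs

PROOFS. avg_mul_dep: N = card. (∑ x, f x)(∑ y, g y) = ∑ (x, y), f x * g y = ∑ (x, y), f (x') * g (x') where x' = (x on E, y off E), because f x = f x' (agree on E) and
g y = g x' (agree on E', as E' is disjoint from E). (x, y) ↦ (x', y') with y' = (y on E, x off E) is a bijection (an involution), so this is
∑ (x', y'), f x' * g x' = N * ∑ x, f x * g x. (See spl / indep in Pool/Agent/Karp/Alg1.lean for the same bijection.)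
avg_prod_dep: induction on the finset I with avg_mul_dep; ∏ j ∈ I', f j depends only on the union of the E j, which is disjoint from E i.
-/

namespace LDK

open Finset

variable {n : ℕ}

/-- `f` depends only on the pairs in `E`. -/
def DepOn (E : Finset (Pair n)) (f : Graph n → ℝ) : Prop :=
  ∀ x y : Graph n, (∀ e ∈ E, x e = y e) → f x = f y

theorem avg_mul_dep {E E' : Finset (Pair n)} (h : Disjoint E E') {f g : Graph n → ℝ}
    (hf : DepOn E f) (hg : DepOn E' g) : avg (fun x => f x * g x) = avg f * avg g := by
  classical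
  set N : ℝ := (Fintype.card (Graph n) : ℝ) with hN
  have hN0 : N ≠ 0 := card_graph_pos.ne'
  let sp : Graph n → Graph n → Graph n := fun x y e => if e ∈ E then x e else y e
  let iv : Graph n × Graph n → Graph n × Graph n := fun q => (sp q.1 q.2, sp q.2 q.1)
  have hiv : Function.Involutive iv := by
    rintro ⟨x, y⟩
    refine Prod.ext ?_ ?_
    · funext e
      by_cases he : e ∈ E <;> simp [iv, sp, he]
    · funext e
      by_cases he : e ∈ E <;> simp [iv, sp, he]
  have h1 : (∑ x, f x) * (∑ y, g y) = ∑ q : Graph n × Graph n, f q.1 * g q.2 := by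
    rw [sum_mul_sum, Fintype.sum_prod_type]
  have h2 : ∀ q : Graph n × Graph n, f q.1 * g q.2 = (fun r : Graph n × Graph n => f r.1 * g r.1) (hiv.toPerm iv q) := by
    rintro ⟨x, y⟩
    have e1 : f x = f (sp x y) := hf _ _ fun e he => by simp [sp, he]
    have e2 : g y = g (sp x y) := hg _ _ fun e he => by
      have : e ∉ E := fun h' => Finset.disjoint_left.1 h h' he
      simp [sp, this]
    change f x * g y = f (sp x y) * g (sp x y)
    rw [← e1, ← e2]
  have h3 : (∑ x, f x) * (∑ y, g y) = N * ∑ x, f x * g x := by
    rw [h1, sum_congr rfl fun q _ => h2 q,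
      Equiv.sum_comp (hiv.toPerm iv) (fun r : Graph n × Graph n => f r.1 * g r.1), Fintype.sum_prod_type, mul_sum]
    refine sum_congr rfl fun x _ => ?_
    change ∑ _y : Graph n, f x * g x = N * (f x * g x)
    rw [sum_const, card_univ, nsmul_eq_mul]
  unfold avg
  rw [← hN]
  field_simp
  linarith

theorem avg_prod_dep {ι : Type*} [DecidableEq ι] (I : Finset ι) (E : ι → Finset (Pair n))
    (hE : ∀ i ∈ I, ∀ j ∈ I, i ≠ j → Disjoint (E i) (E j)) (f : ι → Graph n → ℝ)
    (hf : ∀ i ∈ I, DepOn (E i) (f i)) :
    avg (fun x => ∏ i ∈ I, f i x) = ∏ i ∈ I, avg (f i) := by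
  induction I using Finset.induction_on with
  | empty =>
    simp only [prod_empty]
    exact avg_const 1
  | insert i I hi ih =>
    have h1 : ∀ x : Graph n, ∏ j ∈ insert i I, f j x = f i x * ∏ j ∈ I, f j x := fun x => prod_insert hi
    rw [avg_congr h1, prod_insert hi, avg_mul_dep (E := E i) (E' := I.biUnion E)]
    · rw [ih]
      · exact fun j hj k hk => hE j (mem_insert_of_mem hj) k (mem_insert_of_mem hk)
      · exact fun j hj => hf j (mem_insert_of_mem hj)
    · rw [Finset.disjoint_biUnion_right]
      intro j hj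
      exact hE i (mem_insert_self _ _) j (mem_insert_of_mem hj) (by rintro rfl; exact hi hj)
    · exact hf i (mem_insert_self _ _)
    · intro x y hxy
      refine prod_congr rfl fun j hj => ?_
      exact hf j (mem_insert_of_mem hj) x y fun e he => hxy e (mem_biUnion.2 ⟨j, hj, he⟩)

end LDK
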