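import Pool.Agent.LDK.Aa

/-!
# Dnf (difficulty 4): DNF formulas with n ^ (a log n) terms do not find cliques with c lg n vertices

Uses A0, near, typ_card, avgNoise_right (proved in A0, Near, Aa). PROOF (same scheme as Bpol.lean). L = lg n, τ = 1/L^2, ε0 from A0 with c and q = 1/2;
a := min (1/16) (ε0 / 400) > 0; η := min (1/32) (ε0 / 72) for near. w0 := ⌊2 a L^2⌋₊ + 1, so 2 a L^2 < w0 ≤ 2 a L^2 + 1.
sat t x := ∀ e b, t e = some b → x e = b; wid t := number of e with t e ≠ none. Wide x := ∃ v, ∃ t ∈ T v, w0 ≤ wid t ∧ sat t x.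
(1) For fixed t: avg [sat t x] = (1/2)^(wid t) (product measure: write the indicator as ∏ e ∈ supp t, (if x e = b_e then 1 else 0); the function x ↦ flip x F with F = {e : t e = some false}
turns it into avg_clique style ∏ e ∈ supp t, [x e = true]: avg_flip and avg_prod with a = 1, b = 0).
So avg [Wide] ≤ ∑ v, ∑ t ∈ T v, (1/2)^w0 ≤ n * n^(a L) * 2^(-2 a L^2) = 2^(L + a L^2 - 2 a L^2) = 2^(L - a L^2) ≤ η for large n.
(2) Let out x be the output set and suppose the conclusion fails: P(success) > 1 - a. K x := if Typ x ∧ success x ∧ ¬ Wide x then out x else ∅. Hypotheses of A0: clique, size ≥ c L,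
size ≤ 9 L (typ_card), avg [K x = ∅] ≤ a + η + η ≤ 1/2. So A0: ε0 L ≤ avgNoise |K x \ K y|.
(3) |K x \ K y| ≤ (∑ v ∈ K x, [v ∉ out y]) + 9 L [K y = ∅]. For v ∈ K x choose t ∈ T v with sat t x; ¬ Wide x gives wid t ≤ w0 - 1 (< w0); if v ∉ out y then ¬ sat t y, so y
differs from x at some e with t e ≠ none. Noise average for fixed x (avgNoise_eq, y = flip x F): ∑ F, rho F * [∃ e ∈ supp t, F e = true] ≤ wid t * τ (union bound, rho_one) ≤ w0 τ ≤ 2 a + 1/L^2.
So avgNoise |K x \ K y| ≤ 9 L (2 a + 1/L^2) + 9 L (a + 2 η) ≤ L (27 a + 18 η + 9/L^2) < ε0 L for large n: 27 a ≤ ε0/14, 18 η ≤ ε0/4. Contradiction.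
-/

namespace LDK

open Finset

open Classical in
/-- The set of vertices chosen by DNF formulas: `v` is chosen if `x` satisfies a term of `T v`. A term is a partial assignment of the pairs. -/
noncomputable def dnf {n : ℕ} (T : Fin n → Finset (Pair n → Option Bool)) (x : Graph n) :
    Finset (Fin n) :=
  Finset.univ.filter fun v => ∃ t ∈ T v, ∀ e b, t e = some b → x e = b

/-- `x` satisfies the term `t` -/
def dnf_sat {n : ℕ} (t : Pair n → Option Bool) (x : Graph n) : Prop := ∀ e b, t e = some b → x e = b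

open Classical in
/-- the pairs of a term -/
noncomputable def dnf_supp {n : ℕ} (t : Pair n → Option Bool) : Finset (Pair n) :=
  Finset.univ.filter fun e => t e ≠ none

/-- `x` satisfies a wide term -/
def dnf_wide {n : ℕ} (w : ℕ) (T : Fin n → Finset (Pair n → Option Bool)) (x : Graph n) : Prop :=
  ∃ v, ∃ t ∈ T v, w ≤ (dnf_supp t).card ∧ dnf_sat t x

theorem dnf_mem_supp {n : ℕ} {t : Pair n → Option Bool} {e : Pair n} : e ∈ dnf_supp t ↔ t e ≠ none := by
  unfold dnf_supp
  rw [mem_filter]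
  exact ⟨fun h => h.2, fun h => ⟨mem_univ _, h⟩⟩

theorem dnf_mem {n : ℕ} {T : Fin n → Finset (Pair n → Option Bool)} {x : Graph n} {v : Fin n} :
    v ∈ dnf T x ↔ ∃ t ∈ T v, dnf_sat t x := by
  unfold dnf
  rw [mem_filter]
  exact ⟨fun h => h.2, fun h => ⟨mem_univ _, h⟩⟩

theorem dnf_flip {n : ℕ} (t : Pair n → Option Bool) (x : Graph n) :
    dnf_sat t (flip x fun e => decide (t e = some false)) ↔ ∀ e ∈ dnf_supp t, x e = true := by
  constructor
  · intro h e he
    rw [dnf_mem_supp] at he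
    obtain ⟨b, hb⟩ := Option.ne_none_iff_exists'.1 he
    have h1 := h e b hb
    change (x e ^^ decide (t e = some false)) = b at h1
    rw [hb] at h1
    cases b <;> cases hx : x e <;> simp_all
  · intro h e b hb
    have h1 := h e (dnf_mem_supp.2 (by rw [hb]; simp))
    change (x e ^^ decide (t e = some false)) = b
    rw [hb, h1]
    cases b <;> simp

open Classical in
theorem dnf_avg {n : ℕ} (t : Pair n → Option Bool) :
    avg (fun x : Graph n => if dnf_sat t x then (1 : ℝ) else 0) = (1 / 2) ^ (dnf_supp t).card := by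
  rw [← avg_flip (fun x : Graph n => if dnf_sat t x then (1 : ℝ) else 0) (fun e => decide (t e = some false))]
  have h := avg_prod (n := n) (dnf_supp t) 1 0
  rw [add_zero] at h
  rw [← h]
  apply avg_congr
  intro x
  by_cases hx : ∀ e ∈ dnf_supp t, x e = true
  · rw [if_pos ((dnf_flip t x).2 hx), prod_eq_one]
    intro e he
    exact if_pos (hx e he)
  · rw [if_neg (fun h1 => hx ((dnf_flip t x).1 h1))]
    push Not at hx
    obtain ⟨e, he, h1⟩ := hx
    rw [prod_eq_zero (i := e) he (if_neg h1)]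

open Classical in
theorem dnf_wide_avg {n : ℕ} (w : ℕ) (T : Fin n → Finset (Pair n → Option Bool)) {M : ℝ}
    (hT : ∀ v, ((T v).card : ℝ) ≤ M) :
    avg (fun x : Graph n => if dnf_wide w T x then (1 : ℝ) else 0) ≤ n * (M * (1 / 2) ^ w) := by
  have h1 : avg (fun x : Graph n => if dnf_wide w T x then (1 : ℝ) else 0) ≤
      avg (fun x : Graph n => ∑ v, ∑ t ∈ T v, if w ≤ (dnf_supp t).card ∧ dnf_sat t x then (1 : ℝ) else 0) := by
    apply avg_mono
    intro x
    have hnn : ∀ v, 0 ≤ ∑ t ∈ T v, (if w ≤ (dnf_supp t).card ∧ dnf_sat t x then (1 : ℝ) else 0) := fun v =>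
      sum_nonneg fun t _ => by split_ifs <;> norm_num
    by_cases h : dnf_wide w T x
    · rw [if_pos h]
      obtain ⟨v, t, ht, h2⟩ := h
      have h3 : (1 : ℝ) ≤ ∑ t ∈ T v, if w ≤ (dnf_supp t).card ∧ dnf_sat t x then (1 : ℝ) else 0 := by
        have h4 := single_le_sum (f := fun t => if w ≤ (dnf_supp t).card ∧ dnf_sat t x then (1 : ℝ) else 0)
          (fun t _ => by
            change (0 : ℝ) ≤ if w ≤ (dnf_supp t).card ∧ dnf_sat t x then (1 : ℝ) else 0
            split_ifs <;> norm_num) ht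
        have h5 : (if w ≤ (dnf_supp t).card ∧ dnf_sat t x then (1 : ℝ) else 0) = 1 := if_pos h2
        exact h5.ge.trans h4
      exact h3.trans (single_le_sum (f := fun v => ∑ t ∈ T v,
        if w ≤ (dnf_supp t).card ∧ dnf_sat t x then (1 : ℝ) else 0) (fun v _ => hnn v) (mem_univ v))
    · rw [if_neg h]
      exact sum_nonneg fun v _ => hnn v
  refine h1.trans ?_
  rw [avg_sum]
  have h2 : ∀ v ∈ (univ : Finset (Fin n)), avg (fun x : Graph n => ∑ t ∈ T v,
      if w ≤ (dnf_supp t).card ∧ dnf_sat t x then (1 : ℝ) else 0) ≤ M * (1 / 2) ^ w := by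
    intro v _
    rw [avg_sum]
    have h3 : ∀ t ∈ T v, avg (fun x : Graph n =>
        if w ≤ (dnf_supp t).card ∧ dnf_sat t x then (1 : ℝ) else 0) ≤ (1 / 2) ^ w := by
      intro t _
      by_cases hw : w ≤ (dnf_supp t).card
      · have h4 : avg (fun x : Graph n => if w ≤ (dnf_supp t).card ∧ dnf_sat t x then (1 : ℝ) else 0) =
            avg (fun x : Graph n => if dnf_sat t x then (1 : ℝ) else 0) := by
          apply avg_congr
          intro x
          simp only [hw, true_and]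
        rw [h4, dnf_avg]
        exact pow_le_pow_of_le_one (by norm_num) (by norm_num) hw
      · have h4 : avg (fun x : Graph n => if w ≤ (dnf_supp t).card ∧ dnf_sat t x then (1 : ℝ) else 0) =
            avg (fun _ : Graph n => (0 : ℝ)) := by
          apply avg_congr
          intro x
          simp only [hw, false_and, if_false]
        rw [h4, avg_const]
        positivity
    calc ∑ t ∈ T v, avg (fun x : Graph n => if w ≤ (dnf_supp t).card ∧ dnf_sat t x then (1 : ℝ) else 0)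
        ≤ ∑ t ∈ T v, (1 / 2 : ℝ) ^ w := sum_le_sum h3
      _ = ((T v).card : ℝ) * (1 / 2) ^ w := by rw [sum_const, nsmul_eq_mul]
      _ ≤ M * (1 / 2) ^ w := mul_le_mul_of_nonneg_right (hT v) (by positivity)
  calc ∑ v, avg (fun x : Graph n => ∑ t ∈ T v, if w ≤ (dnf_supp t).card ∧ dnf_sat t x then (1 : ℝ) else 0)
      ≤ ∑ _v : Fin n, M * (1 / 2) ^ w := sum_le_sum h2
    _ = n * (M * (1 / 2) ^ w) := by rw [sum_const, card_univ, Fintype.card_fin, nsmul_eq_mul]

open Classical in
theorem dnf_noise {n : ℕ} {τ : ℝ} (h0 : 0 ≤ τ) (h1 : τ ≤ 1) {t : Pair n → Option Bool} {x : Graph n}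
    (hx : dnf_sat t x) :
    ∑ F, rho τ F * (if dnf_sat t (flip x F) then (0 : ℝ) else 1) ≤ (dnf_supp t).card * τ := by
  have h2 : ∀ F : Graph n, rho τ F * (if dnf_sat t (flip x F) then (0 : ℝ) else 1) ≤
      ∑ e ∈ dnf_supp t, rho τ F * (if F e = true then 1 else 0) := by
    intro F
    rw [← mul_sum]
    apply mul_le_mul_of_nonneg_left _ (rho_nonneg h0 h1 F)
    by_cases h : dnf_sat t (flip x F)
    · rw [if_pos h]
      exact sum_nonneg fun e _ => by split_ifs <;> norm_num
    · rw [if_neg h]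
      unfold dnf_sat at h
      push Not at h
      obtain ⟨e, b, h3, h4⟩ := h
      have h5 := hx e b h3
      have h6 : F e = true := by
        by_contra h7
        rw [Bool.not_eq_true] at h7
        apply h4
        unfold flip
        rw [h7, h5, Bool.xor_false]
      have h8 := single_le_sum (f := fun e => if F e = true then (1 : ℝ) else 0)
        (fun e _ => by
          change (0 : ℝ) ≤ if F e = true then (1 : ℝ) else 0
          split_ifs <;> norm_num) (dnf_mem_supp.2 (by rw [h3]; simp) : e ∈ dnf_supp t)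
      have h9 : (if F e = true then (1 : ℝ) else 0) = 1 := if_pos h6
      exact h9.ge.trans h8
  refine (sum_le_sum fun F _ => h2 F).trans ?_
  rw [sum_comm]
  rw [sum_congr rfl fun e _ => rho_one τ e, sum_const, nsmul_eq_mul]

open Classical in
/-- the clique, if it is good -/
noncomputable def dnf_K {n : ℕ} (c : ℝ) (w : ℕ) (T : Fin n → Finset (Pair n → Option Bool)) (x : Graph n) :
    Finset (Fin n) :=
  if Typ x ∧ (IsClique x (dnf T x) ∧ c * lg n ≤ ((dnf T x).card : ℝ)) ∧ ¬ dnf_wide w T x then dnf T x else ∅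

theorem dnf_K_spec {n : ℕ} {c : ℝ} {w : ℕ} {T : Fin n → Finset (Pair n → Option Bool)} {x : Graph n}
    (h : dnf_K c w T x ≠ ∅) : dnf_K c w T x = dnf T x ∧ Typ x ∧ IsClique x (dnf T x) ∧
      c * lg n ≤ ((dnf T x).card : ℝ) ∧ ¬ dnf_wide w T x := by
  have h1 : Typ x ∧ (IsClique x (dnf T x) ∧ c * lg n ≤ ((dnf T x).card : ℝ)) ∧ ¬ dnf_wide w T x := by
    by_contra h2
    apply h
    unfold dnf_K
    rw [if_neg h2]
  refine ⟨?_, h1.1, h1.2.1.1, h1.2.1.2, h1.2.2⟩
  unfold dnf_K
  rw [if_pos h1]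

theorem dnf_K_ne {n : ℕ} {c : ℝ} {w : ℕ} {T : Fin n → Finset (Pair n → Option Bool)} {x : Graph n}
    (hc : 0 < c * lg n) (h1 : Typ x) (h2 : IsClique x (dnf T x) ∧ c * lg n ≤ ((dnf T x).card : ℝ))
    (h3 : ¬ dnf_wide w T x) : dnf_K c w T x ≠ ∅ := by
  unfold dnf_K
  rw [if_pos ⟨h1, h2, h3⟩]
  intro h4
  have h5 := h2.2
  rw [h4] at h5
  simp at h5
  linarith

open Classical in
theorem dnf_diff {n : ℕ} (hn : 4 ≤ n) {c : ℝ} {w : ℕ} (hL : 0 ≤ lg n)
    (T : Fin n → Finset (Pair n → Option Bool)) (x y : Graph n) :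
    ((dnf_K c w T x \ dnf_K c w T y).card : ℝ) ≤
      (∑ v ∈ dnf_K c w T x, if v ∈ dnf T y then (0 : ℝ) else 1) +
        9 * lg n * (if dnf_K c w T y = ∅ then 1 else 0) := by
  have h0 : 0 ≤ ∑ v ∈ dnf_K c w T x, if v ∈ dnf T y then (0 : ℝ) else 1 :=
    sum_nonneg fun v _ => by split_ifs <;> norm_num
  by_cases hx : dnf_K c w T x = ∅
  · rw [hx, empty_sdiff, card_empty]
    have : (0 : ℝ) ≤ 9 * lg n * (if dnf_K c w T y = ∅ then 1 else 0) := by
      split_ifs
      · linarith
      · simp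
    rw [hx] at h0
    push_cast
    linarith
  · obtain ⟨h1, h2, h3, -, -⟩ := dnf_K_spec hx
    by_cases hy : dnf_K c w T y = ∅
    · rw [if_pos hy, hy, sdiff_empty]
      have h4 := typ_card hn h2 h3
      rw [← h1] at h4
      linarith
    · rw [if_neg hy]
      obtain ⟨h5, -, -, -, -⟩ := dnf_K_spec hy
      rw [h5, mul_zero, add_zero]
      have h6 : dnf_K c w T x \ dnf T y = (dnf_K c w T x).filter fun v => v ∉ dnf T y := by
        ext v
        rw [mem_sdiff, mem_filter]
      rw [h6, card_filter]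
      push_cast
      apply le_of_eq
      apply sum_congr rfl
      intro v _
      by_cases h7 : v ∈ dnf T y
      · rw [if_pos h7, if_neg (fun h => h h7)]
      · rw [if_neg h7, if_pos h7]

open Classical in
theorem dnf_diff_noise {n : ℕ} (hn : 4 ≤ n) {c : ℝ} {w : ℕ} {τ m : ℝ} (h0 : 0 ≤ τ) (h1 : τ ≤ 1)
    (hm : ∀ k : ℕ, k < w → (k : ℝ) * τ ≤ m) (hm0 : 0 ≤ m)
    (T : Fin n → Finset (Pair n → Option Bool)) :
    avgNoise τ (fun x y => ∑ v ∈ dnf_K c w T x, if v ∈ dnf T y then (0 : ℝ) else 1) ≤ 9 * lg n * m := by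
  have hL : 0 ≤ lg n := by linarith [aa_lg hn]
  rw [avgNoise_eq, ← avg_const (n := n) (9 * lg n * m)]
  apply avg_mono
  intro x
  by_cases hx : dnf_K c w T x = ∅
  · rw [hx]
    simp only [sum_empty, mul_zero, sum_const_zero]
    positivity
  · obtain ⟨h2, h3, h4, -, h5⟩ := dnf_K_spec hx
    have h6 : ∀ v ∈ dnf_K c w T x, ∑ F, rho τ F * (if v ∈ dnf T (flip x F) then (0 : ℝ) else 1) ≤ m := by
      intro v hv
      rw [h2, dnf_mem] at hv
      obtain ⟨t, ht, hs⟩ := hv
      have h7 : (dnf_supp t).card < w := by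
        by_contra h8
        exact h5 ⟨v, t, ht, not_lt.1 h8, hs⟩
      refine le_trans (sum_le_sum fun F _ => ?_) ((dnf_noise h0 h1 hs).trans (hm _ h7))
      apply mul_le_mul_of_nonneg_left _ (rho_nonneg h0 h1 F)
      by_cases h8 : dnf_sat t (flip x F)
      · rw [if_pos h8, if_pos (dnf_mem.2 ⟨t, ht, h8⟩)]
      · rw [if_neg h8]
        split_ifs <;> norm_num
    have h7 : ∑ F, rho τ F * (∑ v ∈ dnf_K c w T x, if v ∈ dnf T (flip x F) then (0 : ℝ) else 1) =
        ∑ v ∈ dnf_K c w T x, ∑ F, rho τ F * (if v ∈ dnf T (flip x F) then (0 : ℝ) else 1) := by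
      rw [sum_comm]
      apply sum_congr rfl
      intro F _
      rw [mul_sum]
    rw [h7]
    refine (sum_le_sum h6).trans ?_
    rw [sum_const, nsmul_eq_mul, h2]
    exact mul_le_mul_of_nonneg_right (typ_card hn h3 h4) hm0

open Classical in
theorem Ddnf (c : ℝ) (hc : 0 < c) :
    ∃ a : ℝ, 0 < a ∧ ∃ n₀ : ℕ, ∀ n ≥ n₀, ∀ T : Fin n → Finset (Pair n → Option Bool),
      (∀ v, ((T v).card : ℝ) ≤ (n : ℝ) ^ (a * lg n)) →
      avg (fun x => if IsClique x (dnf T x) ∧ c * lg n ≤ ((dnf T x).card : ℝ) then (1 : ℝ) else 0) ≤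
        1 - a := by
  obtain ⟨ε0, hε0, n1, hA0⟩ := A0 c (1 / 2) hc (by norm_num)
  set a : ℝ := min (1 / 16) (ε0 / 400) with had
  have ha : 0 < a := by positivity
  have ha1 : a ≤ 1 / 16 := min_le_left _ _
  have ha2 : a ≤ ε0 / 400 := min_le_right _ _
  set η : ℝ := min (1 / 32) (ε0 / 72) with hηd
  have hη0 : 0 < η := by positivity
  have hη1 : η ≤ 1 / 32 := min_le_left _ _
  have hη2 : η ≤ ε0 / 72 := min_le_right _ _
  obtain ⟨n2, hnear⟩ := near η hη0
  obtain ⟨n3, hn3⟩ := a0_lim (2 / a)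
  obtain ⟨n4, hn4'⟩ := exists_nat_gt (1 / η)
  refine ⟨a, ha, max (max (max n1 n2) (max n3 n4)) 4, ?_⟩
  intro n hn T hT
  have hm1 := (le_max_left _ _).trans hn
  have hm2 := (le_max_left _ _).trans hm1
  have hm3 := (le_max_right _ _).trans hm1
  have hn1 : n1 ≤ n := (le_max_left _ _).trans hm2
  have hn2 : n2 ≤ n := (le_max_right _ _).trans hm2
  have hn3' : n3 ≤ n := (le_max_left _ _).trans hm3
  have hn4 : n4 ≤ n := (le_max_right _ _).trans hm3
  have hn44 : 4 ≤ n := (le_max_right _ _).trans hn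
  have hnη := hnear n hn2
  have hL2 : 2 ≤ lg n := aa_lg hn44
  have hLa : 2 / a ≤ lg n := hn3 n hn3'
  set L := lg n with hLd
  have hL : 0 < L := by linarith
  have hnpos : (0 : ℝ) < n := by exact_mod_cast (by omega : 0 < n)
  have h2L : (2 : ℝ) ^ L = n := by
    rw [hLd]
    exact Real.rpow_logb (by norm_num) (by norm_num) hnpos
  set τ : ℝ := 1 / L ^ 2 with hτd
  have hτ0 : 0 ≤ τ := by positivity
  have hτ1 : τ ≤ 1 := by
    rw [hτd, div_le_one (by positivity)]
    nlinarith
  have hcL : 0 < c * lg n := by rw [← hLd]; positivity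
  set w : ℕ := ⌊2 * a * L ^ 2⌋₊ + 1 with hw
  have hw1 : 2 * a * L ^ 2 ≤ w := by
    rw [hw]
    push_cast
    exact (Nat.lt_floor_add_one _).le
  -- wide terms
  have hwide : avg (fun x : Graph n => if dnf_wide w T x then (1 : ℝ) else 0) ≤ η := by
    refine (dnf_wide_avg w T hT).trans ?_
    have e1 : (n : ℝ) ^ (a * L) = (2 : ℝ) ^ (a * L ^ 2) := by
      rw [← h2L, ← Real.rpow_mul (by norm_num)]
      congr 1
      ring
    have e2 : ((1 : ℝ) / 2) ^ w ≤ (2 : ℝ) ^ (-(2 * a * L ^ 2)) := by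
      have e3 : ((1 : ℝ) / 2) ^ w = (2 : ℝ) ^ (-(w : ℝ)) := by
        rw [Real.rpow_neg (by norm_num), Real.rpow_natCast, one_div, inv_pow]
      rw [e3]
      exact Real.rpow_le_rpow_of_exponent_le (by norm_num) (by linarith)
    have e4 : (n : ℝ) * ((n : ℝ) ^ (a * L) * (1 / 2) ^ w) ≤ (2 : ℝ) ^ (-L) := by
      calc (n : ℝ) * ((n : ℝ) ^ (a * L) * (1 / 2) ^ w)
          ≤ (2 : ℝ) ^ L * ((2 : ℝ) ^ (a * L ^ 2) * (2 : ℝ) ^ (-(2 * a * L ^ 2))) := by
            rw [h2L, e1]
            exact mul_le_mul_of_nonneg_left (mul_le_mul_of_nonneg_left e2 (by positivity)) hnpos.le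
        _ = (2 : ℝ) ^ (L + (a * L ^ 2 + -(2 * a * L ^ 2))) := by
            rw [← Real.rpow_add (by norm_num), ← Real.rpow_add (by norm_num)]
        _ ≤ (2 : ℝ) ^ (-L) := by
            apply Real.rpow_le_rpow_of_exponent_le (by norm_num)
            have e5 : 2 ≤ a * L := by
              rw [div_le_iff₀ ha] at hLa
              linarith
            nlinarith
    refine e4.trans ?_
    rw [Real.rpow_neg (by norm_num), h2L]
    have e6 : 1 / η < n := lt_of_lt_of_le hn4' (by exact_mod_cast hn4)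
    rw [inv_le_comm₀ hnpos hη0, ← one_div]
    exact e6.le
  by_contra hcon
  push Not at hcon
  set P := avg (fun x => if IsClique x (dnf T x) ∧ c * lg n ≤ ((dnf T x).card : ℝ) then (1 : ℝ) else 0) with hPd
  have hcon' : 1 - a < P := hcon
  set K := dnf_K c w T with hKd
  set b := avg (fun x => if K x = ∅ then (1 : ℝ) else 0) with hbd
  have hb : b ≤ a + 2 * η := by
    have h1 : b ≤ avg (fun x : Graph n => (if Typ x then (0 : ℝ) else 1) +
        ((1 - (if IsClique x (dnf T x) ∧ c * lg n ≤ ((dnf T x).card : ℝ) then (1 : ℝ) else 0)) +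
          (if dnf_wide w T x then (1 : ℝ) else 0))) := by
      apply avg_mono
      intro x
      by_cases h1 : Typ x
      · by_cases h2 : IsClique x (dnf T x) ∧ c * lg n ≤ ((dnf T x).card : ℝ)
        · by_cases h3 : dnf_wide w T x
          · rw [if_pos h1, if_pos h2, if_pos h3]
            split_ifs <;> norm_num
          · rw [if_neg (dnf_K_ne hcL h1 h2 h3), if_pos h1, if_pos h2, if_neg h3]
            norm_num
        · rw [if_pos h1, if_neg h2]
          split_ifs <;> norm_num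
      · rw [if_neg h1]
        split_ifs <;> norm_num
    rw [avg_add, avg_add, avg_sub, avg_const] at h1
    linarith
  have hq : (1 / 2 : ℝ) ≤ avg (fun x => if K x = ∅ then (0 : ℝ) else 1) := by
    have h3 : avg (fun x => if K x = ∅ then (0 : ℝ) else 1) = 1 - b := by
      have h4 : avg (fun x => (1 : ℝ) - (if K x = ∅ then (1 : ℝ) else 0)) = 1 - b := by
        rw [avg_sub, avg_const]
      rw [← h4]
      apply avg_congr
      intro x
      split_ifs <;> norm_num
    rw [h3]
    linarith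
  have h3 := hA0 n hn1 K (fun x => by
      by_cases h4 : K x = ∅
      · exact Or.inl h4
      · obtain ⟨h5, _, h6, h7, _⟩ := dnf_K_spec h4
        refine Or.inr ?_
        change IsClique x (dnf_K c w T x) ∧ c * lg n ≤ ((dnf_K c w T x).card : ℝ)
        rw [h5]
        exact ⟨h6, h7⟩) (fun x => by
      by_cases h4 : K x = ∅
      · rw [h4, card_empty]
        simp
        positivity
      · obtain ⟨h5, h6, h7, _, _⟩ := dnf_K_spec h4
        change ((dnf_K c w T x).card : ℝ) ≤ 9 * lg n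
        rw [h5]
        exact typ_card hn44 h6 h7) hq
  have h4 : avgNoise τ (fun x y => ((K x \ K y).card : ℝ)) ≤ 9 * L * (2 * a) + 9 * L * b := by
    have h5 : avgNoise τ (fun x y => ((K x \ K y).card : ℝ)) ≤
        avgNoise τ (fun x y => (∑ v ∈ dnf_K c w T x, if v ∈ dnf T y then (0 : ℝ) else 1) +
          9 * lg n * (if dnf_K c w T y = ∅ then 1 else 0)) :=
      avgNoise_mono hτ0 hτ1 fun x y => dnf_diff hn44 hL.le T x y
    have h6 : avgNoise τ (fun (_ : Graph n) y => 9 * lg n * (if dnf_K c w T y = ∅ then (1 : ℝ) else 0)) =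
        9 * L * b := by
      rw [avgNoise_right τ (fun y => 9 * lg n * (if dnf_K c w T y = ∅ then (1 : ℝ) else 0)), avg_mul_left]
    rw [avgNoise_add, h6] at h5
    have h7 : avgNoise τ (fun x y => ∑ v ∈ dnf_K c w T x, if v ∈ dnf T y then (0 : ℝ) else 1) ≤
        9 * lg n * (2 * a) := by
      refine dnf_diff_noise hn44 hτ0 hτ1 ?_ (by positivity) T
      intro k hk
      have h8 : k ≤ ⌊2 * a * L ^ 2⌋₊ := by omega
      have h9 : (k : ℝ) ≤ 2 * a * L ^ 2 :=
        (by exact_mod_cast h8 : (k : ℝ) ≤ (⌊2 * a * L ^ 2⌋₊ : ℝ)).trans (Nat.floor_le (by positivity))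
      calc (k : ℝ) * τ ≤ (2 * a * L ^ 2) * τ := mul_le_mul_of_nonneg_right h9 hτ0
        _ = 2 * a := by rw [hτd]; field_simp
    linarith
  have h5 : ε0 * L ≤ 9 * L * (2 * a) + 9 * L * b := h3.trans h4
  have h6 : 9 * L * (2 * a) + 9 * L * b ≤ (27 * a + 18 * η) * L := by
    nlinarith [mul_le_mul_of_nonneg_left hb hL.le]
  have h7 : (27 * a + 18 * η) * L < ε0 * L := mul_lt_mul_of_pos_right (by linarith) hL
  linarith

end LDK
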