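import Pool.Agent.LDK.Basic
import Pool.Agent.LDK.PairSum

/-!
# Fam (difficulty 3): a family of k-sets with small correlations

PROOF. Put P = powersetCard k V, T = P.card = V.card.choose k > 0 (k ≤ |V| because 2 k^2 2^(k/2) ≥ k). For A ∈ P: pair_sum with L = V,
y = 2^(k/2) (real power; 2^(i.choose 2) = 2^(i(i-1)/2) ≤ 2^(k i / 2) = y^i for i ≤ k) gives, since k^2 y / |V| ≤ 1/2,
∑ B ∈ P, 2^((A ∩ B).card.choose 2) ≤ T * (1 + 2 * (1/2)^2) = (3/2) T.
Average over all maps a : Fin M → P (as elements of the subtype P, or Fintype.piFinset fun _ => P) of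
Φ(a) = ∑ i, ∑ j, (if i ≠ j then 2^((a i ∩ a j).card.choose 2) else 0): for i ≠ j, ∑ over a of g (a i) (a j) = T^(M-2) ∑ A B, g A B
≤ T^(M-2) * T * (3/2) T = (3/2) T^M. So ∑ a, Φ(a) ≤ M (M-1) (3/2) T^M ≤ 2 M^2 * T^M and some a has Φ(a) ≤ 2 M^2.
(For M = 0 or 1 trivial. A way to avoid T^(M-2): the bijection-free statement
∑ a, g (a i) (a j) * T^2 = T^M * ∑ A B, g A B, or choose a 1, a 2, ... greedily by induction on M:
claim: for every M there is a family with ∑_{i<j} 2^(...) ≤ (3/2) * M (M-1) / 2; step: average over the new set A of ∑_{i<M} 2^((a i ∩ A).card.choose 2)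
is ≤ (3/2) M, so some A has ≤ (3/2) M. This induction (Fin.snoc) is perhaps the easiest.)
-/

namespace LDK

open Finset

theorem fam {n : ℕ} (V : Finset (Fin n)) (k M : ℕ) (hk : 1 ≤ k)
    (hV : 2 * (k : ℝ) ^ 2 * (2 : ℝ) ^ ((k : ℝ) / 2) ≤ (V.card : ℝ)) :
    ∃ A : Fin M → Finset (Fin n), (∀ i, A i ⊆ V ∧ (A i).card = k) ∧
      ∑ i, ∑ j, (if i ≠ j then (2 : ℝ) ^ ((A i ∩ A j).card.choose 2) else 0) ≤ 2 * (M : ℝ) ^ 2 := by
  classical
  have hy1 : (1 : ℝ) ≤ (2 : ℝ) ^ ((k : ℝ) / 2) := Real.one_le_rpow (by norm_num) (by positivity)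
  set y : ℝ := (2 : ℝ) ^ ((k : ℝ) / 2) with hy
  have hk1 : (1 : ℝ) ≤ k := by exact_mod_cast hk
  have hVpos : (0 : ℝ) < V.card := by
    have : 0 < 2 * (k : ℝ) ^ 2 * y := by positivity
    linarith
  have hkV : k ≤ V.card := by
    have : (k : ℝ) ≤ V.card := by
      have h1 : (k : ℝ) ≤ 2 * (k : ℝ) ^ 2 * y := by nlinarith [mul_pos (show (0 : ℝ) < k by linarith) (show (0 : ℝ) < k by linarith)]
      linarith
    exact_mod_cast this
  have hy2 : ∀ i ≤ k, (2 : ℝ) ^ (i.choose 2) ≤ y ^ i := by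
    intro i hi
    have h1 : (i.choose 2 : ℝ) ≤ (k : ℝ) / 2 * i := by
      have h2 : (i.choose 2 : ℝ) = i * ((i : ℝ) - 1) / 2 := by
        rw [Nat.cast_choose_two]
      have h3 : (i : ℝ) ≤ k := by exact_mod_cast hi
      have h4 : (0 : ℝ) ≤ i := Nat.cast_nonneg i
      rw [h2]
      nlinarith
    rw [hy, ← Real.rpow_natCast, ← Real.rpow_natCast, ← Real.rpow_mul (by norm_num)]
    exact Real.rpow_le_rpow_of_exponent_le (by norm_num) h1
  have hx : (k : ℝ) ^ 2 * y / V.card ≤ 1 / 2 := by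
    rw [div_le_iff₀ hVpos]
    linarith
  have hx0 : 0 ≤ (k : ℝ) ^ 2 * y / V.card := by positivity
  have key : ∀ A : Finset (Fin n), A ⊆ V → A.card = k →
      ∑ B ∈ powersetCard k V, (2 : ℝ) ^ ((A ∩ B).card.choose 2) ≤ (V.card.choose k) * (3 / 2) := by
    intro A hA hAk
    refine (pair_sum V A k hA hAk hkV (by exact_mod_cast hVpos) (by linarith) hy2 hx).trans ?_
    apply mul_le_mul_of_nonneg_left _ (Nat.cast_nonneg _)
    nlinarith
  have main : ∀ M : ℕ, ∃ A : Fin M → Finset (Fin n), (∀ i, A i ⊆ V ∧ (A i).card = k) ∧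
      ∑ i, ∑ j, (if i ≠ j then (2 : ℝ) ^ ((A i ∩ A j).card.choose 2) else 0) ≤ 3 / 2 * (M : ℝ) ^ 2 := by
    intro M
    induction M with
    | zero => exact ⟨fun i => i.elim0, fun i => i.elim0, by simp⟩
    | succ M ih =>
      obtain ⟨A, hA, hs⟩ := ih
      obtain ⟨B, hB, hBs⟩ : ∃ B ∈ powersetCard k V, ∑ i : Fin M, (2 : ℝ) ^ ((A i ∩ B).card.choose 2) ≤ 3 / 2 * M := by
        refine exists_le_of_sum_le (g := fun _ => 3 / 2 * (M : ℝ)) ?_ ?_
        · rw [← card_pos, card_powersetCard]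
          exact Nat.choose_pos hkV
        · rw [sum_comm, sum_const, card_powersetCard, nsmul_eq_mul]
          calc ∑ i : Fin M, ∑ B ∈ powersetCard k V, (2 : ℝ) ^ ((A i ∩ B).card.choose 2)
              ≤ ∑ i : Fin M, (V.card.choose k : ℝ) * (3 / 2) := sum_le_sum fun i _ => key _ (hA i).1 (hA i).2
            _ = _ := by
              rw [sum_const, card_univ, Fintype.card_fin, nsmul_eq_mul]
              ring
      rw [mem_powersetCard] at hB
      refine ⟨Fin.snoc A B, ?_, ?_⟩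
      · intro i
        refine Fin.lastCases ?_ (fun i => ?_) i
        · rw [Fin.snoc_last]
          exact hB
        · rw [Fin.snoc_castSucc]
          exact hA i
      · have h1 : ∀ i : Fin M, Fin.castSucc i ≠ Fin.last M := fun i => Fin.castSucc_ne_last i
        have h2 : ∀ i : Fin M, Fin.last M ≠ Fin.castSucc i := fun i => (h1 i).symm
        have e : ∑ i : Fin (M + 1), ∑ j : Fin (M + 1), (if i ≠ j then
            (2 : ℝ) ^ (((Fin.snoc A B : Fin (M + 1) → Finset (Fin n)) i ∩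
              (Fin.snoc A B : Fin (M + 1) → Finset (Fin n)) j).card.choose 2) else 0) =
            ∑ i, ∑ j, (if i ≠ j then (2 : ℝ) ^ ((A i ∩ A j).card.choose 2) else 0) +
              2 * ∑ i : Fin M, (2 : ℝ) ^ ((A i ∩ B).card.choose 2) := by
          simp only [Fin.sum_univ_castSucc, Fin.snoc_castSucc, Fin.snoc_last, ne_eq, Fin.castSucc_inj, h1, h2,
            not_false_eq_true, if_true, not_true_eq_false, if_false, add_zero]
          rw [sum_add_distrib, two_mul, add_assoc]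
          congr 2
          exact sum_congr rfl fun i _ => by rw [inter_comm]
        rw [e]
        push_cast
        nlinarith
  obtain ⟨A, h1, h2⟩ := main M
  exact ⟨A, h1, h2.trans (by nlinarith [sq_nonneg (M : ℝ)])⟩

end LDK
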