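import Pool.Agent.LDK.Zed

/-!
# Fv (difficulty 3): the polynomials

PROOFS. val is a ring homomorphism in p (MvPolynomial.eval is). val_Yp: val (∏ X e) = ∏ (if x e then 1 else 0), = 1 iff all pairs inside A are edges.
val_Fp: map_sum, map_mul, map_prod, map_sub. deg_Fp: totalDegree (Yp A) ≤ (inside A).card = k.choose 2 (totalDegree_finset_prod, totalDegree_X),
totalDegree (Zp A) ≤ k.choose 2 (totalDegree_finset_sum), 1 - Zp the same (totalDegree_sub), product over Iio i at most i * k.choose 2, times the last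
factor: at most (i + 1) * k.choose 2 ≤ s * k.choose 2.
Fp_good: Let i0 be the index with Z (A i0) x = 1 which is minimal (or any index such that Z (A j) x = 0 for j < i0): as all Z ≤ 1 and Z is a natural number
(Z_nat), choose i0 minimal with Z (A i0) x = 1, then Z (A j) x = 0 for j < i0. Exactly one l0 has Y (A i0 l0) x = 1, the other Y are 0. Take B = A i0 l0. In val_Fp the term
i = i0 is 1 * (if v ∈ B then 1 else 0); for i < i0 all Y (A i l) x = 0 (a sum of nonnegative terms which is 0); for i > i0 the product contains the factor 1 - Z (A i0) x = 0.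
Fp_congr: val_Fp and Y depend only on the cliques.
-/

namespace LDK

open Finset MvPolynomial

variable {n M s : ℕ}

/-- The polynomial of a clique. -/
noncomputable def Yp (A : Finset (Fin n)) : MvPolynomial (Pair n) ℝ := ∏ e ∈ inside A, X e

/-- The polynomial of the number of cliques in a family. -/
noncomputable def Zp (A : Fin M → Finset (Fin n)) : MvPolynomial (Pair n) ℝ := ∑ l, Yp (A l)

/-- The polynomial of a vertex. -/
noncomputable def Fp (A : Fin s → Fin M → Finset (Fin n)) (v : Fin n) :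
    MvPolynomial (Pair n) ℝ :=
  ∑ i, (∏ j ∈ Finset.Iio i, (1 - Zp (A j))) * ∑ l, (if v ∈ A i l then Yp (A i l) else 0)

theorem val_Yp (A : Finset (Fin n)) (x : Graph n) : val (Yp A) x = Y A x := by
  rw [zed_Y_prod]
  unfold val Yp
  rw [map_prod]
  exact prod_congr rfl fun e _ => eval_X e

theorem fv_val_Zp (A : Fin M → Finset (Fin n)) (x : Graph n) : val (Zp A) x = Z A x := by
  have h : ∀ l, MvPolynomial.eval (fun e => if x e = true then (1 : ℝ) else 0) (Yp (A l)) =
      Y (A l) x := fun l => val_Yp (A l) x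
  unfold val Zp Z
  rw [map_sum]
  exact sum_congr rfl fun l _ => h l

theorem val_Fp (A : Fin s → Fin M → Finset (Fin n)) (v : Fin n) (x : Graph n) :
    val (Fp A v) x = ∑ i, (∏ j ∈ Finset.Iio i, (1 - Z (A j) x)) *
      ∑ l, (if v ∈ A i l then Y (A i l) x else 0) := by
  have h : ∀ B : Finset (Fin n), MvPolynomial.eval (fun e => if x e = true then (1 : ℝ) else 0)
      (Yp B) = Y B x := fun B => val_Yp B x
  have h2 : ∀ B : Fin M → Finset (Fin n), MvPolynomial.eval
      (fun e => if x e = true then (1 : ℝ) else 0) (Zp B) = Z B x := fun B => fv_val_Zp B x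
  unfold val Fp
  rw [map_sum]
  apply sum_congr rfl
  intro i _
  rw [map_mul, map_prod, map_sum]
  congr 1
  · apply prod_congr rfl
    intro j _
    rw [map_sub, map_one, h2]
  · apply sum_congr rfl
    intro l _
    by_cases hv : v ∈ A i l
    · rw [if_pos hv, if_pos hv, h]
    · rw [if_neg hv, if_neg hv, map_zero]

theorem fv_deg_Yp (A : Finset (Fin n)) (k : ℕ) (hk : A.card = k) :
    (Yp A).totalDegree ≤ k.choose 2 := by
  unfold Yp
  refine (totalDegree_finset_prod _ _).trans ?_
  rw [sum_congr rfl fun e _ => totalDegree_X e, sum_const, smul_eq_mul, mul_one, card_inside, hk]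

theorem fv_deg_Zp (A : Fin M → Finset (Fin n)) (k : ℕ) (hk : ∀ l, (A l).card = k) :
    (Zp A).totalDegree ≤ k.choose 2 := by
  unfold Zp
  exact totalDegree_finsetSum_le fun l _ => fv_deg_Yp (A l) k (hk l)

theorem fv_deg_one_sub (A : Fin M → Finset (Fin n)) (k : ℕ) (hk : ∀ l, (A l).card = k) :
    (1 - Zp A).totalDegree ≤ k.choose 2 := by
  refine (totalDegree_sub _ _).trans ?_
  rw [totalDegree_one]
  exact max_le (Nat.zero_le _) (fv_deg_Zp A k hk)

theorem deg_Fp (A : Fin s → Fin M → Finset (Fin n)) (k : ℕ) (hk : ∀ i l, (A i l).card = k)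
    (v : Fin n) : (Fp A v).totalDegree ≤ s * k.choose 2 := by
  unfold Fp
  apply totalDegree_finsetSum_le
  intro i _
  refine (totalDegree_mul _ _).trans ?_
  have h1 : (∏ j ∈ Finset.Iio i, (1 - Zp (A j))).totalDegree ≤ i.val * k.choose 2 := by
    refine (totalDegree_finset_prod _ _).trans ?_
    refine (sum_le_sum fun j _ => fv_deg_one_sub (A j) k (hk j)).trans ?_
    rw [sum_const, smul_eq_mul, Fin.card_Iio]
  have h2 : (∑ l, (if v ∈ A i l then Yp (A i l) else 0)).totalDegree ≤ k.choose 2 := by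
    apply totalDegree_finsetSum_le
    intro l _
    split_ifs
    · exact fv_deg_Yp (A i l) k (hk i l)
    · rw [totalDegree_zero]
      exact Nat.zero_le _
  calc _ ≤ i.val * k.choose 2 + k.choose 2 := add_le_add h1 h2
    _ = (i.val + 1) * k.choose 2 := by ring
    _ ≤ s * k.choose 2 := Nat.mul_le_mul_right _ i.isLt

theorem fv_Y_nonneg (A : Finset (Fin n)) (x : Graph n) : 0 ≤ Y A x := by
  rcases zed_Y_zero_one A x with h | h
  · rw [h]
  · rw [h]
    exact zero_le_one

theorem fv_Y_one {A : Finset (Fin n)} {x : Graph n} (h : Y A x = 1) : IsClique x A := by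
  unfold Y at h
  by_contra h2
  rw [if_neg h2] at h
  exact zero_ne_one h

theorem Fp_good (A : Fin s → Fin M → Finset (Fin n)) (x : Graph n)
    (h1 : ∀ i, Z (A i) x ≤ 1) (h2 : ∃ i, Z (A i) x = 1) :
    ∃ i l, IsClique x (A i l) ∧ ∀ v, val (Fp A v) x = if v ∈ A i l then 1 else 0 := by
  classical
  have hne : (univ.filter fun i => Z (A i) x = 1).Nonempty := by
    obtain ⟨i, hi⟩ := h2
    exact ⟨i, mem_filter.2 ⟨mem_univ _, hi⟩⟩
  obtain ⟨i0, hi0, hmin⟩ := exists_min_image _ (fun i : Fin s => i) hne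
  have hZ : Z (A i0) x = 1 := (mem_filter.1 hi0).2
  have hlt : ∀ j, j < i0 → Z (A j) x = 0 := by
    intro j hj
    obtain ⟨m, hm⟩ := Z_nat (A j) x
    have h3 : m ≤ 1 := by
      have := h1 j
      rw [hm] at this
      exact_mod_cast this
    have h4 : m ≠ 1 := by
      intro h5
      have h6 : Z (A j) x = 1 := by rw [hm, h5]; norm_num
      exact absurd (hmin j (mem_filter.2 ⟨mem_univ _, h6⟩)) (not_le.2 hj)
    have h7 : m = 0 := by omega
    rw [hm, h7]
    norm_num
  have hY : ∀ i l, Z (A i) x = 0 → Y (A i l) x = 0 := by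
    intro i l h
    unfold Z at h
    rw [sum_eq_zero_iff_of_nonneg fun l _ => fv_Y_nonneg _ _] at h
    exact h l (mem_univ _)
  obtain ⟨l0, hl0⟩ : ∃ l0, Y (A i0 l0) x = 1 := by
    by_contra hcon
    push Not at hcon
    have h3 : Z (A i0) x = 0 := by
      unfold Z
      exact sum_eq_zero fun l _ => (zed_Y_zero_one (A i0 l) x).resolve_right (hcon l)
    rw [hZ] at h3
    exact one_ne_zero h3
  have hl : ∀ l, l ≠ l0 → Y (A i0 l) x = 0 := by
    intro l hl
    have h3 : Z (A i0) x = Y (A i0 l0) x + ∑ l ∈ univ.erase l0, Y (A i0 l) x := by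
      unfold Z
      exact (add_sum_erase _ _ (mem_univ l0)).symm
    rw [hZ, hl0] at h3
    have h4 : ∑ l ∈ univ.erase l0, Y (A i0 l) x = 0 := by linarith
    rw [sum_eq_zero_iff_of_nonneg fun l _ => fv_Y_nonneg _ _] at h4
    exact h4 l (mem_erase.2 ⟨hl, mem_univ _⟩)
  refine ⟨i0, l0, fv_Y_one hl0, ?_⟩
  intro v
  rw [val_Fp, sum_eq_single i0]
  · rw [prod_eq_one fun j hj => by rw [hlt j (mem_Iio.1 hj), sub_zero], one_mul,
      sum_eq_single l0]
    · rw [hl0]
    · intro l _ h3
      rw [hl l h3, ite_self]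
    · intro h3
      exact absurd (mem_univ _) h3
  · intro i _ hi
    rcases lt_or_gt_of_ne hi with h3 | h3
    · rw [sum_eq_zero fun l _ => by rw [hY i l (hlt i h3), ite_self], mul_zero]
    · rw [prod_eq_zero (i := i0) (mem_Iio.2 h3) (by rw [hZ, sub_self]), zero_mul]
  · intro h3
    exact absurd (mem_univ _) h3

theorem Fp_congr (A : Fin s → Fin M → Finset (Fin n)) (x y : Graph n)
    (h : ∀ i l, Y (A i l) x = Y (A i l) y) (v : Fin n) : val (Fp A v) x = val (Fp A v) y := by
  rw [val_Fp, val_Fp]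
  have hZ : ∀ i, Z (A i) x = Z (A i) y := by
    intro i
    unfold Z
    exact sum_congr rfl fun l _ => h i l
  apply sum_congr rfl
  intro i _
  congr 1
  · exact prod_congr rfl fun j _ => by rw [hZ j]
  · exact sum_congr rfl fun l _ => by rw [h i l]

end LDK
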