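import Pool.Agent.LDK.Basic

/-!
# Lam (difficulty 2): the created pair

For a map K and graphs g, F: `first K g F` is some pair of F inside K g (none if there is no such pair).
`lam τ K x e` is the probability that `first K (flip x F) F = some e` for the τ-random set F.
PROOFS. first_some, first_none: unfold, split on the dite, choose_spec.
lam_nonneg: rho_nonneg. lam_le: first = some e forces F e = true, then rho_one.
lam_supp: if lam ≠ 0 there is F with first K (flip x F) F = some e, so e ∈ inside (K (flip x F)), F e = true; K (flip x F) is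
a clique of flip x F, so flip x F e = true, i.e. xor (x e) true = true, x e = false.
sum_lam_le: swap sums, for every F at most one e counts, rho_sum.
avg_lam: avg over x of ∑ e lam = avg over x of ∑ F, rho F * (if ∃ e ∈ inside (K (flip x F)), F e = true then 1 else 0);
swap the sums (unfold avg, sum_comm), use avg_flip / sum_flip with φ g = (if ∃ e ∈ inside (K g), F e = true then 1 else 0) for
every fixed F, swap back; for fixed g: ∑ F, rho F * (if ∃ e ∈ inside (K g), F e = true then 1 else 0) =
1 - (1 - τ)^(inside (K g)).card by rho_sum and rho_off.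
-/

namespace LDK

open Finset

variable {n : ℕ}

open Classical in
/-- Some pair of `F` inside `K g`. -/
noncomputable def first (K : Graph n → Finset (Fin n)) (g F : Graph n) : Option (Pair n) :=
  if h : ∃ e, e ∈ inside (K g) ∧ F e = true then some h.choose else none

open Classical in
/-- Probability that the created pair is `e`. -/
noncomputable def lam (τ : ℝ) (K : Graph n → Finset (Fin n)) (x : Graph n) (e : Pair n) : ℝ :=
  ∑ F : Graph n, rho τ F * (if first K (flip x F) F = some e then 1 else 0)

theorem first_some {K : Graph n → Finset (Fin n)} {g F : Graph n} {e : Pair n}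
    (h : first K g F = some e) : e ∈ inside (K g) ∧ F e = true := by
  unfold first at h
  split_ifs at h with h1
  have h2 : h1.choose = e := Option.some.inj h
  have h3 := h1.choose_spec
  rw [h2] at h3
  exact h3

theorem first_none {K : Graph n → Finset (Fin n)} {g F : Graph n} :
    first K g F = none ↔ ∀ e ∈ inside (K g), F e = false := by
  unfold first
  split_ifs with h1
  · constructor
    · intro h
      exact absurd h (by simp)
    · intro h
      obtain ⟨e, he, hF⟩ := h1
      rw [h e he] at hF
      exact absurd hF (by decide)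
  · refine ⟨fun _ e he => ?_, fun _ => rfl⟩
    by_contra h2
    exact h1 ⟨e, he, by simpa using h2⟩

theorem lam_term_nonneg {τ : ℝ} (h0 : 0 ≤ τ) (h1 : τ ≤ 1) (F : Graph n) (p : Prop) [Decidable p] :
    0 ≤ rho τ F * (if p then 1 else 0) := by
  apply mul_nonneg (rho_nonneg h0 h1 F)
  split_ifs <;> norm_num

theorem lam_sum_some (o : Option (Pair n)) [∀ e, Decidable (o = some e)] [Decidable (o = none)] :
    ∑ e, (if o = some e then (1 : ℝ) else 0) = if o = none then 0 else 1 := by
  cases o with
  | none => simp
  | some a =>
    rw [if_neg (by simp), sum_eq_single a]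
    · rw [if_pos rfl]
    · intro b _ hb
      rw [if_neg]
      intro h
      exact hb (Option.some.inj h).symm
    · intro h
      exact absurd (mem_univ a) h

theorem lam_nonneg {τ : ℝ} (h0 : 0 ≤ τ) (h1 : τ ≤ 1) (K : Graph n → Finset (Fin n))
    (x : Graph n) (e : Pair n) : 0 ≤ lam τ K x e := by
  unfold lam
  exact sum_nonneg fun F _ => lam_term_nonneg h0 h1 F _

theorem lam_le {τ : ℝ} (h0 : 0 ≤ τ) (h1 : τ ≤ 1) (K : Graph n → Finset (Fin n))
    (x : Graph n) (e : Pair n) : lam τ K x e ≤ τ := by
  have h2 := rho_one (n := n) τ e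
  unfold lam
  refine le_trans ?_ (le_of_eq h2)
  apply sum_le_sum
  intro F _
  apply mul_le_mul_of_nonneg_left _ (rho_nonneg h0 h1 F)
  by_cases h3 : first K (flip x F) F = some e
  · rw [if_pos h3, if_pos (first_some h3).2]
  · rw [if_neg h3]
    split_ifs <;> norm_num

theorem lam_supp (τ : ℝ) (K : Graph n → Finset (Fin n)) (hK : ∀ g, IsClique g (K g))
    (x : Graph n) (e : Pair n) (he : x e = true) : lam τ K x e = 0 := by
  unfold lam
  apply sum_eq_zero
  intro F _
  rw [if_neg, mul_zero]
  intro h
  obtain ⟨h1, h2⟩ := first_some h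
  have h3 := hK (flip x F) e (mem_inside.1 h1)
  unfold flip at h3
  rw [he, h2] at h3
  exact absurd h3 (by decide)

theorem sum_lam_le {τ : ℝ} (h0 : 0 ≤ τ) (h1 : τ ≤ 1) (K : Graph n → Finset (Fin n))
    (x : Graph n) : ∑ e, lam τ K x e ≤ 1 := by
  classical
  unfold lam
  rw [sum_comm]
  refine le_trans ?_ (le_of_eq (rho_sum (n := n) τ))
  apply sum_le_sum
  intro F _
  rw [← mul_sum, lam_sum_some]
  have h2 := rho_nonneg h0 h1 F
  split_ifs
  · rw [mul_zero]
    exact h2
  · rw [mul_one]

theorem avg_lam {τ : ℝ} (K : Graph n → Finset (Fin n)) :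
    avg (fun x => ∑ e, lam τ K x e) = avg (fun g => 1 - (1 - τ) ^ (inside (K g)).card) := by
  classical
  have h1 : ∀ x : Graph n, ∑ e, lam τ K x e =
      ∑ F : Graph n, rho τ F * (if first K (flip x F) F = none then 0 else 1) := by
    intro x
    unfold lam
    rw [sum_comm]
    apply sum_congr rfl
    intro F _
    rw [← mul_sum, lam_sum_some]
  rw [avg_congr h1, avg_sum]
  have h2 : ∀ F : Graph n, avg (fun x : Graph n => rho τ F * (if first K (flip x F) F = none then (0 : ℝ) else 1)) =
      avg (fun x : Graph n => rho τ F * (if first K x F = none then (0 : ℝ) else 1)) := by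
    intro F
    exact avg_flip (fun x : Graph n => rho τ F * (if first K x F = none then (0 : ℝ) else 1)) F
  rw [sum_congr rfl fun F _ => h2 F, ← avg_sum]
  apply avg_congr
  intro g
  have h3 := rho_off τ (inside (K g))
  have h4 := rho_sum (n := n) τ
  rw [← h3]
  refine Eq.trans ?_ (congrArg (fun t => t - _) h4)
  rw [← sum_sub_distrib]
  apply sum_congr rfl
  intro F _
  by_cases h5 : ∀ e ∈ inside (K g), F e = false
  · rw [if_pos (first_none.2 h5), if_pos h5, mul_zero, mul_one, sub_self]
  · rw [if_neg (fun h => h5 (first_none.1 h)), if_neg h5, mul_zero, mul_one, sub_zero]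

end LDK
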