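import Pool.Agent.LDK.Basic

/-!
# Near (difficulty 3): random graphs have no near cliques with sz n vertices

PROOF. Let s = sz n = ⌈8 lg n⌉₊ + 1, m = s.choose 2 = s (s-1) / 2 = (inside S).card for |S| = s
(card_inside). If Typ x fails there is S with |S| = s and 16 * (number of non-edges of x inside S) ≤ m.
For such x the product P_S x = ∏ e ∈ inside S, (if x e = true then 1 else 1/4)
equals (1/4)^(number of non-edges inside S), and number of non-edges ≤ m/16, so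
(P_S x)^16 ≥ (1/4)^m ; equivalently P_S x * 4^(m/16) ≥ 1 (real power, or use 4^(m/16) = 2^(m/8)).
Hence (if Typ x then 0 else 1) ≤ ∑ S ∈ powersetCard s univ, P_S x * (2:ℝ)^((m:ℝ)/8).
Average (avg_sum, avg_prod with a = 1, b = 1/4): avg P_S = (5/8)^m. So
avg (...) ≤ (n.choose s) * (5/8)^m * 2^(m/8) ≤ n^s * ((5/8) * 2^(1/8))^m.
Now (5/8) * 2^(1/8) ≤ 2^(-1/2), because (5/8)^8 * 2 = 0.0466.. ≤ 2^(-4) = 0.0625. So the bound is
≤ n^s * 2^(-m/2) = 2^(s lg n - s(s-1)/4) ≤ 2^(s lg n - 2 s lg n) = 2^(-s lg n) = (n:ℝ)^(-s) ≤ 1/n for n ≥ 2,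
using s - 1 ≥ 8 lg n. Take n₀ ≥ max 2 (1/η).
-/

namespace LDK

open Finset

/-- the eighth root of two -/
theorem near_root : ∃ C : ℝ, 1 ≤ C ∧ C ^ 8 = 2 := by
  refine ⟨(2 : ℝ) ^ ((1 : ℝ) / 8), Real.one_le_rpow (by norm_num) (by norm_num), ?_⟩
  rw [← Real.rpow_natCast, ← Real.rpow_mul (by norm_num)]
  norm_num

open Classical in
/-- one set -/
theorem near_one {C : ℝ} (hC1 : 1 ≤ C) (hC8 : C ^ 8 = 2) {n : ℕ} (x : Graph n) (S : Finset (Fin n))
    (h : 16 * ((inside S).filter fun e => x e = false).card ≤ (inside S).card) :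
    1 ≤ (∏ e ∈ inside S, (if x e = true then (1 : ℝ) else 1 / 4)) * C ^ (inside S).card := by
  have hC0 : 0 < C := by linarith
  have h1 : (∏ e ∈ inside S, (if x e = true then (1 : ℝ) else 1 / 4)) =
      (1 / 4) ^ ((inside S).filter fun e => x e = false).card := by
    rw [prod_ite, prod_const_one, one_mul, prod_const]
    congr 2
    apply filter_congr
    intro e _
    simp
  have h2 : (4 : ℝ) = C ^ 16 := by
    rw [show (16 : ℕ) = 8 * 2 by norm_num, pow_mul, hC8]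
    norm_num
  rw [h1, one_div, inv_pow, h2, ← pow_mul, inv_mul_eq_div, le_div_iff₀ (by positivity), one_mul]
  exact pow_le_pow_right₀ hC1 h

open Classical in
theorem near_typ {C : ℝ} (hC1 : 1 ≤ C) (hC8 : C ^ 8 = 2) {n : ℕ} (x : Graph n) :
    (if Typ x then (0 : ℝ) else 1) ≤ ∑ S ∈ powersetCard (sz n) univ,
      (∏ e ∈ inside S, (if x e = true then (1 : ℝ) else 1 / 4)) * C ^ (inside S).card := by
  have hC0 : 0 < C := by linarith
  have hnn : ∀ S : Finset (Fin n), 0 ≤ (∏ e ∈ inside S, (if x e = true then (1 : ℝ) else 1 / 4)) *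
      C ^ (inside S).card := by
    intro S
    apply mul_nonneg
    · apply prod_nonneg
      intro e _
      split_ifs <;> norm_num
    · positivity
  by_cases hT : Typ x
  · rw [if_pos hT]
    exact sum_nonneg fun S _ => hnn S
  · rw [if_neg hT]
    unfold Typ at hT
    push Not at hT
    obtain ⟨S, hS, h⟩ := hT
    refine le_trans (near_one hC1 hC8 x S h) ?_
    exact single_le_sum (f := fun S : Finset (Fin n) =>
      (∏ e ∈ inside S, (if x e = true then (1 : ℝ) else 1 / 4)) * C ^ (inside S).card)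
      (fun S _ => hnn S) (mem_powersetCard.2 ⟨subset_univ S, hS⟩)

theorem near_num {C : ℝ} (hC1 : 1 ≤ C) (hC8 : C ^ 8 = 2) {n : ℕ} (hn : 2 ≤ n) :
    ((n.choose (sz n) : ℕ) : ℝ) * ((1 + 1 / 4) / 2 * C) ^ ((sz n).choose 2) ≤ 1 / n := by
  obtain ⟨s, hs⟩ : ∃ s, s = sz n := ⟨_, rfl⟩
  rw [← hs]
  have hn0 : (0 : ℝ) < n := by
    have : 0 < n := by omega
    exact_mod_cast this
  have hn1 : (1 : ℝ) ≤ n := by
    have : 1 ≤ n := by omega
    exact_mod_cast this
  have hC0 : 0 < C := by linarith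
  obtain ⟨r, hr⟩ : ∃ r : ℝ, r = (1 + 1 / 4) / 2 * C := ⟨_, rfl⟩
  rw [← hr]
  have hr0 : 0 < r := by rw [hr]; positivity
  have hr8 : r ^ 8 ≤ (1 / 2) ^ 4 := by
    rw [hr, mul_pow, hC8]
    norm_num
  have hr2 : r ^ 2 ≤ 1 / 2 := by
    have h1 : (r ^ 2) ^ 4 ≤ (1 / 2) ^ 4 := by
      rw [← pow_mul]
      exact hr8
    exact le_of_pow_le_pow_left₀ (by norm_num) (by norm_num) h1
  have hs1 : 1 ≤ s := by rw [hs]; unfold sz; omega
  have h8 : (n : ℝ) ^ 8 ≤ 2 ^ (s - 1) := by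
    have h1 : 8 * lg n ≤ ((s - 1 : ℕ) : ℝ) := by
      rw [hs]
      unfold sz
      rw [Nat.add_sub_cancel]
      exact Nat.le_ceil _
    have h2 : (n : ℝ) = 2 ^ (lg n) := (Real.rpow_logb (by norm_num) (by norm_num) hn0).symm
    have h3 : (n : ℝ) ^ 8 = (2 : ℝ) ^ (8 * lg n) := by
      conv_lhs => rw [h2]
      rw [← Real.rpow_natCast, ← Real.rpow_mul (by norm_num), mul_comm]
      norm_num
    rw [h3, ← Real.rpow_natCast]
    exact Real.rpow_le_rpow_of_exponent_le (by norm_num) h1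
  have h2m : 2 * s.choose 2 = s * (s - 1) := by
    rw [Nat.choose_two_right]
    have := Nat.even_mul_pred_self s
    exact Nat.two_mul_div_two_of_even this
  have hB : ((n : ℝ) ^ s * r ^ (s.choose 2)) ≤ ((n : ℝ) ^ s)⁻¹ := by
    refine le_of_pow_le_pow_left₀ (n := 4) (by norm_num) (by positivity) ?_
    have e1 : ((n : ℝ) ^ s * r ^ (s.choose 2)) ^ 4 = ((n : ℝ) ^ 4 * (r ^ 2) ^ (s - 1)) ^ s := by
      rw [mul_pow, mul_pow, ← pow_mul, ← pow_mul, ← pow_mul, ← pow_mul, ← pow_mul]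
      congr 2
      · ring
      · have : s.choose 2 * 4 = 2 * (2 * s.choose 2) := by ring
        rw [this, h2m]
        ring
    have e2 : (((n : ℝ) ^ s)⁻¹) ^ 4 = (((n : ℝ) ^ 4)⁻¹) ^ s := by
      rw [inv_pow, inv_pow, ← pow_mul, ← pow_mul, mul_comm]
    rw [e1, e2]
    apply pow_le_pow_left₀ (by positivity)
    have e3 : (r ^ 2) ^ (s - 1) ≤ ((n : ℝ) ^ 8)⁻¹ := by
      calc (r ^ 2) ^ (s - 1) ≤ (1 / 2) ^ (s - 1) := pow_le_pow_left₀ (by positivity) hr2 _
        _ = (2 ^ (s - 1))⁻¹ := by rw [one_div, inv_pow]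
        _ ≤ ((n : ℝ) ^ 8)⁻¹ := inv_anti₀ (by positivity) h8
    calc (n : ℝ) ^ 4 * (r ^ 2) ^ (s - 1) ≤ (n : ℝ) ^ 4 * ((n : ℝ) ^ 8)⁻¹ :=
          mul_le_mul_of_nonneg_left e3 (by positivity)
      _ = ((n : ℝ) ^ 4)⁻¹ := by field_simp
  have hch : ((n.choose s : ℕ) : ℝ) ≤ (n : ℝ) ^ s := by
    exact_mod_cast Nat.choose_le_pow n s
  calc ((n.choose s : ℕ) : ℝ) * r ^ (s.choose 2) ≤ (n : ℝ) ^ s * r ^ (s.choose 2) :=
        mul_le_mul_of_nonneg_right hch (by positivity)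
    _ ≤ ((n : ℝ) ^ s)⁻¹ := hB
    _ ≤ 1 / n := by
        rw [one_div]
        apply inv_anti₀ hn0
        calc (n : ℝ) = (n : ℝ) ^ 1 := (pow_one _).symm
          _ ≤ (n : ℝ) ^ s := pow_le_pow_right₀ hn1 hs1

open Classical in
theorem near (η : ℝ) (hη : 0 < η) :
    ∃ n₀ : ℕ, ∀ n ≥ n₀, avg (fun x : Graph n => if Typ x then (0 : ℝ) else 1) ≤ η := by
  obtain ⟨C, hC1, hC8⟩ := near_root
  obtain ⟨m₀, hm₀⟩ := exists_nat_gt (1 / η)
  refine ⟨max 2 m₀, fun n hn => ?_⟩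
  have hn2 : 2 ≤ n := le_trans (le_max_left _ _) hn
  have hnm : m₀ ≤ n := le_trans (le_max_right _ _) hn
  have hn0 : (0 : ℝ) < n := by
    have : 0 < n := by omega
    exact_mod_cast this
  have h1 : avg (fun x : Graph n => if Typ x then (0 : ℝ) else 1) ≤
      avg (fun x : Graph n => ∑ S ∈ powersetCard (sz n) univ,
      (∏ e ∈ inside S, (if x e = true then (1 : ℝ) else 1 / 4)) * C ^ (inside S).card) :=
    avg_mono fun x => near_typ hC1 hC8 x
  refine le_trans h1 ?_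
  rw [avg_sum]
  have h2 : ∀ S ∈ powersetCard (sz n) (univ : Finset (Fin n)),
      avg (fun x : Graph n => (∏ e ∈ inside S, (if x e = true then (1 : ℝ) else 1 / 4)) * C ^ (inside S).card) =
        ((1 + 1 / 4) / 2 * C) ^ ((sz n).choose 2) := by
    intro S hS
    have h3 : (inside S).card = (sz n).choose 2 := by
      rw [card_inside, (mem_powersetCard.1 hS).2]
    have h4 := avg_prod (n := n) (inside S) 1 (1 / 4)
    rw [h3] at h4 ⊢
    rw [mul_pow, ← h4, mul_comm, ← avg_mul_left]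
    apply avg_congr
    intro x
    rw [mul_comm]
  rw [sum_congr rfl h2, sum_const, card_powersetCard, card_univ, Fintype.card_fin, nsmul_eq_mul]
  refine le_trans (near_num hC1 hC8 hn2) ?_
  rw [div_le_iff₀ hn0]
  rw [div_lt_iff₀ hη] at hm₀
  have h5 : (m₀ : ℝ) ≤ n := by exact_mod_cast hnm
  nlinarith

end LDK
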