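import Pool.Agent.LDK.Fv
import Pool.Agent.LDK.Dep

/-!
# Nrm (difficulty 4): norm of the polynomials and probability of success

Uses val_Fp, Z_two, Z_zero, avg_mul_dep, avg_prod_dep (stubs). Setting: the blocks V i are pairwise disjoint, A i l ⊆ V i has k elements, every block has
avg Z = lam and avg Z^2 ≤ lam + 2 lam^2, 0 < lam ≤ 1/4. E i := inside (V i); these are pairwise disjoint (a pair has an endpoint, which would lie in both blocks);
Y (A i l), Z (A i) depend only on E i (inside (A i l) ⊆ inside (V i)).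
nrm. Fix x, v. Terms of val_Fp for different i: at most one block contains v, so at most one term is nonzero and (∑ i, t_i)^2 = ∑ i, t_i^2. Sum over v:
∑ v, (∑ l, [v ∈ A i l] Y_l)^2 = ∑ l l', (A i l ∩ A i l').card * Y_l * Y_l' ≤ k * Z (A i) x ^2. So
∑ v, val (Fp A v) x ^2 ≤ ∑ i, (∏ j ∈ Iio i, (1 - Z (A j) x)^2) * (k * Z (A i) x ^2). Average: avg_prod_dep for the index set Iic i = insert i (Iio i) (or Iio i together
with avg_mul_dep): = ∑ i, (∏ j ∈ Iio i, avg (1 - Z)^2) * k * avg Z^2, avg (1 - Z)^2 = 1 - 2 lam + avg Z^2 ≤ 1 - lam + 2 lam^2 ≤ 1 - lam/2 (lam ≤ 1/4), so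
≤ ∑ i : Fin s, (1 - lam/2)^i * k * (lam + 2 lam^2) ≤ k (lam + 2 lam^2) * (2 / lam) = 2 k (1 + 2 lam) ≤ 3 k.
suc. The complement of the event is contained in the union of the events Z (A i) > 1 (i : Fin s) and the event that all Z (A i) = 0 (Z_nat). avg [Z > 1] ≤
(avg Z^2 - avg Z)/2 ≤ lam^2 (Z_two). avg ∏ i [Z (A i) = 0] = ∏ i avg [Z (A i) = 0] ≤ (1 - lam + lam^2)^s ≤ (1 - lam/2)^s (Z_zero, avg_prod_dep).
-/

namespace LDK

open Finset

variable {n M s : ℕ}

theorem nrm_disj {V W : Finset (Fin n)} (h : Disjoint V W) : Disjoint (inside V) (inside W) := by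
  rw [Finset.disjoint_left]
  intro e he he2
  rw [mem_inside] at he he2
  have hm : (Quot.out e.1).1 ∈ e.1 := Sym2.out_fst_mem e.1
  exact (Finset.disjoint_left.1 h) (he _ hm) (he2 _ hm)

theorem nrm_Ydep {V B : Finset (Fin n)} (h : B ⊆ V) : DepOn (inside V) (Y B) := by
  intro x y hxy
  have h1 : IsClique x B ↔ IsClique y B := by
    unfold IsClique
    refine forall_congr' fun e => ?_
    refine ⟨fun g hv => ?_, fun g hv => ?_⟩
    · rw [← hxy e (mem_inside.2 fun v hv2 => h (hv v hv2))]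
      exact g hv
    · rw [hxy e (mem_inside.2 fun v hv2 => h (hv v hv2))]
      exact g hv
  unfold Y
  by_cases h2 : IsClique x B
  · rw [if_pos h2, if_pos (h1.1 h2)]
  · rw [if_neg h2, if_neg (fun h3 => h2 (h1.2 h3))]

theorem nrm_Zdep {V : Finset (Fin n)} (A : Fin M → Finset (Fin n)) (h : ∀ l, A l ⊆ V) :
    DepOn (inside V) (Z A) := by
  intro x y hxy
  unfold Z
  exact sum_congr rfl fun l _ => nrm_Ydep (h l) x y hxy

theorem nrm_Y0 (B : Finset (Fin n)) (x : Graph n) : 0 ≤ Y B x := by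
  unfold Y
  split_ifs <;> norm_num

theorem nrm_sq {ι : Type*} [Fintype ι] (a : ι → ℝ) (h : ∀ i j, i ≠ j → a i * a j = 0) :
    (∑ i, a i) ^ 2 = ∑ i, a i ^ 2 := by
  classical
  rw [sq, sum_mul_sum]
  refine sum_congr rfl fun i _ => ?_
  rw [sq]
  exact sum_eq_single i (fun j _ hj => h i j (Ne.symm hj)) fun hi => absurd (mem_univ i) hi

theorem nrm_block (A : Fin M → Finset (Fin n)) (k : ℕ) (hk : ∀ l, (A l).card = k) (x : Graph n) :
    ∑ v, (∑ l, (if v ∈ A l then Y (A l) x else 0)) ^ 2 ≤ k * Z A x ^ 2 := by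
  have hZ0 : 0 ≤ Z A x := sum_nonneg fun l _ => nrm_Y0 _ _
  have h1 : ∀ v, (∑ l, (if v ∈ A l then Y (A l) x else 0)) ^ 2 ≤
      (∑ l, (if v ∈ A l then Y (A l) x else 0)) * Z A x := by
    intro v
    have h0 : 0 ≤ ∑ l, (if v ∈ A l then Y (A l) x else 0) := by
      apply sum_nonneg
      intro l _
      split_ifs
      · exact nrm_Y0 _ _
      · exact le_refl _
    have h2 : ∑ l, (if v ∈ A l then Y (A l) x else 0) ≤ Z A x := by
      unfold Z
      apply sum_le_sum
      intro l _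
      split_ifs
      · exact le_refl _
      · exact nrm_Y0 _ _
    rw [sq]
    exact mul_le_mul_of_nonneg_left h2 h0
  refine (sum_le_sum fun v _ => h1 v).trans ?_
  rw [← sum_mul, sum_comm]
  have h3 : ∀ l, ∑ v, (if v ∈ A l then Y (A l) x else 0) = k * Y (A l) x := by
    intro l
    rw [sum_ite_mem, univ_inter, sum_const, hk l, nsmul_eq_mul]
  rw [sum_congr rfl fun l _ => h3 l, ← mul_sum]
  have h4 : ∑ l, Y (A l) x = Z A x := rfl
  rw [h4]
  apply le_of_eq
  ring

theorem nrm_point (V : Fin s → Finset (Fin n)) (hV : ∀ i j, i ≠ j → Disjoint (V i) (V j))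
    (A : Fin s → Fin M → Finset (Fin n)) (k : ℕ) (hk : ∀ i l, A i l ⊆ V i ∧ (A i l).card = k)
    (x : Graph n) :
    ∑ v, val (Fp A v) x ^ 2 ≤
      ∑ i, (∏ j ∈ Finset.Iio i, (1 - Z (A j) x) ^ 2) * (k * Z (A i) x ^ 2) := by
  have h0 : ∀ v i, v ∉ V i → ∑ l, (if v ∈ A i l then Y (A i l) x else 0) = 0 := by
    intro v i hv
    apply sum_eq_zero
    intro l _
    rw [if_neg fun h => hv ((hk i l).1 h)]
  have h1 : ∀ v, val (Fp A v) x ^ 2 = ∑ i, ((∏ j ∈ Finset.Iio i, (1 - Z (A j) x)) *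
      ∑ l, (if v ∈ A i l then Y (A i l) x else 0)) ^ 2 := by
    intro v
    rw [val_Fp]
    apply nrm_sq
    intro i j hij
    by_cases hv : v ∈ V i
    · have hv2 : v ∉ V j := fun h => (Finset.disjoint_left.1 (hV i j hij)) hv h
      rw [h0 v j hv2]
      ring
    · rw [h0 v i hv]
      ring
  rw [sum_congr rfl fun v _ => h1 v, sum_comm]
  apply sum_le_sum
  intro i _
  have h2 : ∀ v, ((∏ j ∈ Finset.Iio i, (1 - Z (A j) x)) *
      ∑ l, (if v ∈ A i l then Y (A i l) x else 0)) ^ 2 = (∏ j ∈ Finset.Iio i, (1 - Z (A j) x) ^ 2) *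
      (∑ l, (if v ∈ A i l then Y (A i l) x else 0)) ^ 2 := by
    intro v
    rw [mul_pow, prod_pow]
  rw [sum_congr rfl fun v _ => h2 v, ← mul_sum]
  apply mul_le_mul_of_nonneg_left (nrm_block (A i) k (fun l => (hk i l).2) x)
  exact prod_nonneg fun j _ => sq_nonneg _

theorem nrm_avg1 (A : Fin M → Finset (Fin n)) (lam : ℝ) (h0 : 0 < lam) (h1 : lam ≤ 1 / 4)
    (hm : avg (Z A) = lam) (hq : avg (fun x => Z A x ^ 2) ≤ lam + 2 * lam ^ 2) :
    avg (fun x => (1 - Z A x) ^ 2) ≤ 1 - lam / 2 := by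
  have h2 : avg (fun x => (1 - Z A x) ^ 2) = 1 - 2 * lam + avg (fun x => Z A x ^ 2) := by
    have h3 : avg (fun x => (1 - Z A x) ^ 2) =
        avg (fun x => (1 - 2 * Z A x) + Z A x ^ 2) := avg_congr fun x => by ring
    rw [h3, avg_add (fun x => 1 - 2 * Z A x) (fun x => Z A x ^ 2),
      avg_sub (fun _ => 1) (fun x => 2 * Z A x), avg_const, avg_mul_left 2 (fun x => Z A x)]
    have h4 : avg (fun x => Z A x) = lam := hm
    rw [h4]
  rw [h2]
  nlinarith

theorem nrm_iio (V : Fin s → Finset (Fin n)) (hV : ∀ i j, i ≠ j → Disjoint (V i) (V j))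
    (f g : Fin s → Graph n → ℝ) (hf : ∀ i, DepOn (inside (V i)) (f i))
    (hg : ∀ i, DepOn (inside (V i)) (g i)) (i : Fin s) :
    avg (fun x => (∏ j ∈ Finset.Iio i, f j x) * g i x) =
      (∏ j ∈ Finset.Iio i, avg (f j)) * avg (g i) := by
  classical
  have h1 : Disjoint ((Finset.Iio i).biUnion fun j => inside (V j)) (inside (V i)) := by
    rw [Finset.disjoint_biUnion_left]
    intro j hj
    rw [Finset.mem_Iio] at hj
    exact nrm_disj (hV j i hj.ne)
  have h2 : DepOn ((Finset.Iio i).biUnion fun j => inside (V j))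
      (fun x => ∏ j ∈ Finset.Iio i, f j x) := by
    intro x y hxy
    refine prod_congr rfl fun j hj => hf j x y fun e he => ?_
    exact hxy e (Finset.mem_biUnion.2 ⟨j, hj, he⟩)
  rw [avg_mul_dep h1 h2 (hg i)]
  congr 1
  exact avg_prod_dep (Finset.Iio i) (fun j => inside (V j))
    (fun a _ b _ hab => nrm_disj (hV a b hab)) f fun j _ => hf j

theorem nrm (V : Fin s → Finset (Fin n)) (hV : ∀ i j, i ≠ j → Disjoint (V i) (V j))
    (A : Fin s → Fin M → Finset (Fin n)) (k : ℕ) (hk : ∀ i l, A i l ⊆ V i ∧ (A i l).card = k)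
    (lam : ℝ) (h0 : 0 < lam) (h1 : lam ≤ 1 / 4) (hm : ∀ i, avg (Z (A i)) = lam)
    (hq : ∀ i, avg (fun x => Z (A i) x ^ 2) ≤ lam + 2 * lam ^ 2) :
    avg (fun x => ∑ v, val (Fp A v) x ^ 2) ≤ 3 * k := by
  have hdep : ∀ i, DepOn (inside (V i)) (Z (A i)) := fun i => nrm_Zdep (A i) fun l => (hk i l).1
  refine (avg_mono fun x => nrm_point V hV A k hk x).trans ?_
  rw [avg_sum univ fun i x => (∏ j ∈ Finset.Iio i, (1 - Z (A j) x) ^ 2) * (k * Z (A i) x ^ 2)]
  have h2 : ∀ i : Fin s, avg (fun x => (∏ j ∈ Finset.Iio i, (1 - Z (A j) x) ^ 2) *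
      (k * Z (A i) x ^ 2)) ≤ (1 - lam / 2) ^ (i : ℕ) * (k * (lam + 2 * lam ^ 2)) := by
    intro i
    have h3 := nrm_iio V hV (fun j x => (1 - Z (A j) x) ^ 2) (fun j x => k * Z (A j) x ^ 2)
      (fun j x y hxy => by
        show (1 - Z (A j) x) ^ 2 = (1 - Z (A j) y) ^ 2
        rw [hdep j x y hxy])
      (fun j x y hxy => by
        show k * Z (A j) x ^ 2 = k * Z (A j) y ^ 2
        rw [hdep j x y hxy]) i
    rw [h3]
    have h4 : ∏ j ∈ Finset.Iio i, avg (fun x => (1 - Z (A j) x) ^ 2) ≤ (1 - lam / 2) ^ (i : ℕ) := by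
      rw [← Fin.card_Iio i, ← prod_const]
      apply prod_le_prod
      · intro j _
        exact avg_nonneg fun x => sq_nonneg _
      · intro j _
        exact nrm_avg1 (A j) lam h0 h1 (hm j) (hq j)
    have h5 : avg (fun x => (k : ℝ) * Z (A i) x ^ 2) ≤ k * (lam + 2 * lam ^ 2) := by
      rw [avg_mul_left (k : ℝ) fun x => Z (A i) x ^ 2]
      exact mul_le_mul_of_nonneg_left (hq i) (Nat.cast_nonneg k)
    have h6 : 0 ≤ avg (fun x => (k : ℝ) * Z (A i) x ^ 2) :=
      avg_nonneg fun x => mul_nonneg (Nat.cast_nonneg k) (sq_nonneg _)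
    exact mul_le_mul h4 h5 h6 (pow_nonneg (by linarith) _)
  refine (sum_le_sum fun i _ => h2 i).trans ?_
  rw [← sum_mul, Fin.sum_univ_eq_sum_range (fun i => (1 - lam / 2) ^ i) s]
  have h7 : (∑ i ∈ range s, (1 - lam / 2) ^ i) * (lam / 2) ≤ 1 := by
    have h8 := geom_sum_mul (1 - lam / 2) s
    have h9 : (1 - lam / 2 - 1) = -(lam / 2) := by ring
    rw [h9] at h8
    have h10 : 0 ≤ (1 - lam / 2) ^ s := pow_nonneg (by linarith) _
    linarith
  have h11 : (∑ i ∈ range s, (1 - lam / 2) ^ i) * (k * (lam + 2 * lam ^ 2)) =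
      ((∑ i ∈ range s, (1 - lam / 2) ^ i) * (lam / 2)) * (k * (2 + 4 * lam)) := by ring
  rw [h11]
  have hk0 : (0 : ℝ) ≤ k := Nat.cast_nonneg k
  calc ((∑ i ∈ range s, (1 - lam / 2) ^ i) * (lam / 2)) * (k * (2 + 4 * lam))
      ≤ 1 * (k * (2 + 4 * lam)) := by
        apply mul_le_mul_of_nonneg_right h7
        exact mul_nonneg hk0 (by linarith)
    _ ≤ 3 * k := by nlinarith

open Classical in
theorem suc (V : Fin s → Finset (Fin n)) (hV : ∀ i j, i ≠ j → Disjoint (V i) (V j))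
    (A : Fin s → Fin M → Finset (Fin n)) (k : ℕ) (hk : ∀ i l, A i l ⊆ V i ∧ (A i l).card = k)
    (lam : ℝ) (h0 : 0 < lam) (h1 : lam ≤ 1 / 4) (hm : ∀ i, avg (Z (A i)) = lam)
    (hq : ∀ i, avg (fun x => Z (A i) x ^ 2) ≤ lam + 2 * lam ^ 2) :
    avg (fun x => if (∀ i, Z (A i) x ≤ 1) ∧ ∃ i, Z (A i) x = 1 then (0 : ℝ) else 1) ≤
      s * lam ^ 2 + (1 - lam / 2) ^ s := by
  have hdep : ∀ i, DepOn (inside (V i)) (Z (A i)) := fun i => nrm_Zdep (A i) fun l => (hk i l).1
  have hp : ∀ x, (if (∀ i, Z (A i) x ≤ 1) ∧ ∃ i, Z (A i) x = 1 then (0 : ℝ) else 1) ≤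
      (∑ i, (if Z (A i) x ≤ 1 then (0 : ℝ) else 1)) +
        ∏ i, (if Z (A i) x = 0 then (1 : ℝ) else 0) := by
    intro x
    have hs : 0 ≤ ∑ i, (if Z (A i) x ≤ 1 then (0 : ℝ) else 1) := by
      apply sum_nonneg
      intro i _
      split_ifs <;> norm_num
    have hpr : 0 ≤ ∏ i, (if Z (A i) x = 0 then (1 : ℝ) else 0) := by
      apply prod_nonneg
      intro i _
      split_ifs <;> norm_num
    by_cases ha : (∀ i, Z (A i) x ≤ 1) ∧ ∃ i, Z (A i) x = 1
    · rw [if_pos ha]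
      linarith
    · rw [if_neg ha]
      by_cases hb : ∀ i, Z (A i) x ≤ 1
      · have hc : ∀ i, Z (A i) x = 0 := by
          intro i
          obtain ⟨m, hm1⟩ := Z_nat (A i) x
          have h2 : (m : ℝ) ≤ 1 := hm1 ▸ hb i
          have h3 : m ≤ 1 := by exact_mod_cast h2
          have h4 : m ≠ 1 := by
            intro h5
            apply ha
            refine ⟨hb, i, ?_⟩
            rw [hm1, h5]
            norm_num
          have h6 : m = 0 := by omega
          rw [hm1, h6]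
          norm_num
        have hd : ∏ i, (if Z (A i) x = 0 then (1 : ℝ) else 0) = 1 :=
          prod_eq_one fun i _ => if_pos (hc i)
        rw [hd]
        linarith
      · push Not at hb
        obtain ⟨i, hi⟩ := hb
        have he : (1 : ℝ) ≤ ∑ i, (if Z (A i) x ≤ 1 then (0 : ℝ) else 1) := by
          have h2 : (if Z (A i) x ≤ 1 then (0 : ℝ) else 1) ≤
              ∑ i, (if Z (A i) x ≤ 1 then (0 : ℝ) else 1) := by
            apply single_le_sum (f := fun i => (if Z (A i) x ≤ 1 then (0 : ℝ) else 1))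
            · intro j _
              show (0 : ℝ) ≤ if Z (A j) x ≤ 1 then (0 : ℝ) else 1
              split_ifs <;> norm_num
            · exact mem_univ i
          rw [if_neg (not_le.2 hi)] at h2
          exact h2
        linarith
  refine (avg_mono hp).trans ?_
  rw [avg_add (fun x => ∑ i, (if Z (A i) x ≤ 1 then (0 : ℝ) else 1))
    (fun x => ∏ i, (if Z (A i) x = 0 then (1 : ℝ) else 0))]
  apply add_le_add
  · rw [avg_sum univ fun i x => (if Z (A i) x ≤ 1 then (0 : ℝ) else 1)]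
    have h2 : ∀ i, avg (fun x => (if Z (A i) x ≤ 1 then (0 : ℝ) else 1)) ≤ lam ^ 2 := by
      intro i
      refine (avg_mono fun x => Z_two (A i) x).trans ?_
      have h3 : avg (fun x => (Z (A i) x ^ 2 - Z (A i) x) / 2) =
          (1 / 2) * (avg (fun x => Z (A i) x ^ 2) - lam) := by
        have h4 : avg (fun x => (Z (A i) x ^ 2 - Z (A i) x) / 2) =
            avg (fun x => (1 / 2) * (Z (A i) x ^ 2 - Z (A i) x)) := avg_congr fun x => by ring
        rw [h4, avg_mul_left (1 / 2) fun x => Z (A i) x ^ 2 - Z (A i) x,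
          avg_sub (fun x => Z (A i) x ^ 2) fun x => Z (A i) x]
        have h5 : avg (fun x => Z (A i) x) = lam := hm i
        rw [h5]
      rw [h3]
      linarith [hq i]
    refine (sum_le_sum fun i _ => h2 i).trans ?_
    rw [sum_const, card_univ, Fintype.card_fin, nsmul_eq_mul]
  · rw [avg_prod_dep univ (fun i => inside (V i))
      (fun a _ b _ hab => nrm_disj (hV a b hab))
      (fun i x => (if Z (A i) x = 0 then (1 : ℝ) else 0)) (fun i _ x y hxy => by
        show (if Z (A i) x = 0 then (1 : ℝ) else 0) = (if Z (A i) y = 0 then (1 : ℝ) else 0)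
        rw [hdep i x y hxy])]
    have h2 : ∀ i, avg (fun x => (if Z (A i) x = 0 then (1 : ℝ) else 0)) ≤ 1 - lam / 2 := by
      intro i
      refine (avg_mono fun x => Z_zero (A i) x).trans ?_
      have h3 : avg (fun x => 1 - Z (A i) x + (Z (A i) x ^ 2 - Z (A i) x) / 2) =
          1 - lam + (1 / 2) * (avg (fun x => Z (A i) x ^ 2) - lam) := by
        have h4 : avg (fun x => 1 - Z (A i) x + (Z (A i) x ^ 2 - Z (A i) x) / 2) =
            avg (fun x => (1 - Z (A i) x) + (1 / 2) * (Z (A i) x ^ 2 - Z (A i) x)) :=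
          avg_congr fun x => by ring
        rw [h4, avg_add (fun x => 1 - Z (A i) x) fun x => (1 / 2) * (Z (A i) x ^ 2 - Z (A i) x),
          avg_mul_left (1 / 2) fun x => Z (A i) x ^ 2 - Z (A i) x,
          avg_sub (fun x => Z (A i) x ^ 2) fun x => Z (A i) x,
          avg_sub (fun _ => 1) fun x => Z (A i) x, avg_const]
        have h5 : avg (fun x => Z (A i) x) = lam := hm i
        rw [h5]
      rw [h3]
      nlinarith [hq i]
    have h6 : ∏ i : Fin s, avg (fun x => (if Z (A i) x = 0 then (1 : ℝ) else 0)) ≤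
        ∏ _i : Fin s, (1 - lam / 2) := by
      apply prod_le_prod
      · intro i _
        apply avg_nonneg
        intro x
        split_ifs <;> norm_num
      · intro i _
        exact h2 i
    refine h6.trans ?_
    rw [prod_const, card_univ, Fintype.card_fin]

end LDK
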