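import Pool.Agent.LDK.Fam
import Pool.Agent.LDK.Nrm

/-!
# Par (difficulty 4): choice of the parameters

Uses fam, Z_mean, Z_sq, suc, nrm (stubs). PROOF. W.l.o.g. ε < 1 (replace ε by min ε (1/2)). Put l0 := min (1/4) (ε / (16 * (Real.log (2/ε) + 1))) > 0,
s := ⌈(4 / l0) * Real.log (2/ε)⌉₊ + 1 (s ≥ 1), k := ⌈c * lg n⌉₊, m := k.choose 2, M := ⌊l0 * 2^m⌋₊, lam := M * (1/2)^m. For large n: l0/2 ≤ lam ≤ l0 (2^m ≥ 2 / l0; m → ∞),
1 ≤ k ≤ c lg n + 1 ≤ 3 lg n. Blocks: R := n / s (natural division), V i := univ.filter (fun v => i * R ≤ v ∧ v < (i+1) * R), pairwise disjoint, card R (since s * R ≤ n).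
For large n: 2 k^2 2^(k/2) ≤ R because 2^(k/2) ≤ 2^((c lg n + 1)/2) = sqrt 2 * n^(c/2) and k^2 ≤ 9 (lg n)^2 while R ≥ n/s - 1 and c/2 < 1
(isLittleO of powers of log against powers). fam gives A i for every block; Z_mean, Z_sq give hm, hq.
suc: the failure probability is ≤ s lam^2 + (1 - lam/2)^s ≤ s l0^2 + exp(- s l0/4) ; s l0 / 4 ≥ log (2/ε) so the exponential is ≤ ε/2; s ≤ (4/l0) log(2/ε) + 2, so
s l0^2 ≤ 4 l0 log(2/ε) + 2 l0^2 ≤ ε/4 + ε/4. OK. The constant S of the statement is s, it depends only on c, ε.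
-/

namespace LDK

open Finset

/-- The block number `i`. -/
def par_V (n R i : ℕ) : Finset (Fin n) := univ.filter fun v => i * R ≤ v.1 ∧ v.1 < (i + 1) * R

theorem par_disj (n R : ℕ) {i j : ℕ} (h : i ≠ j) : Disjoint (par_V n R i) (par_V n R j) := by
  rw [disjoint_left]
  intro v hv hv'
  unfold par_V at hv hv'
  rw [mem_filter] at hv hv'
  rcases lt_or_gt_of_ne h with h1 | h1
  · have h2 : (i + 1) * R ≤ j * R := Nat.mul_le_mul_right _ h1
    omega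
  · have h2 : (j + 1) * R ≤ i * R := Nat.mul_le_mul_right _ h1
    omega

theorem par_card {n R s i : ℕ} (h : s * R ≤ n) (hi : i < s) : (par_V n R i).card = R := by
  have h1 : (i + 1) * R ≤ n := le_trans (Nat.mul_le_mul_right _ hi) h
  have h2 : (par_V n R i).map Fin.valEmbedding = Finset.Ico (i * R) ((i + 1) * R) := by
    ext v
    unfold par_V
    rw [mem_map, mem_Ico]
    constructor
    · rintro ⟨w, hw, rfl⟩
      rw [mem_filter] at hw
      exact hw.2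
    · rintro ⟨h3, h4⟩
      exact ⟨⟨v, lt_of_lt_of_le h4 h1⟩, mem_filter.2 ⟨mem_univ _, h3, h4⟩, rfl⟩
  rw [← card_map, h2, Nat.card_Ico, Nat.add_mul, one_mul, Nat.add_sub_cancel_left]

theorem par_growth (c : ℝ) (hc : 0 < c) (hc2 : c < 2) (s : ℕ) (hs : 1 ≤ s) :
    ∃ n₀ : ℕ, ∀ n ≥ n₀, ∀ k : ℕ, (k : ℝ) ≤ c * lg n + 1 →
      2 * (k : ℝ) ^ 2 * (2 : ℝ) ^ ((k : ℝ) / 2) ≤ ((n / s : ℕ) : ℝ) := by
  have hs0 : (0 : ℝ) < s := by exact_mod_cast hs
  have h1 : (fun x : ℝ => Real.log x ^ (2 : ℝ)) =o[Filter.atTop] fun x => x ^ (1 - c / 2) :=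
    isLittleO_log_rpow_rpow_atTop 2 (by linarith)
  have h2 := h1.def (show (0 : ℝ) < 1 / (120 * s) by positivity)
  obtain ⟨x0, hx0⟩ := Filter.eventually_atTop.1 h2
  refine ⟨max ⌈x0⌉₊ (max 4 (2 * s)), ?_⟩
  intro n hn k hk
  have hn0 : x0 ≤ (n : ℝ) := (Nat.le_ceil x0).trans (by exact_mod_cast (le_max_left _ _).trans hn)
  have hn4 : 4 ≤ n := ((le_max_left _ _).trans (le_max_right _ _)).trans hn
  have hns : 2 * s ≤ n := ((le_max_right _ _).trans (le_max_right _ _)).trans hn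
  have hnR : (0 : ℝ) < n := by
    have : 0 < n := by omega
    exact_mod_cast this
  have hn4R : (4 : ℝ) ≤ n := by exact_mod_cast hn4
  have hnsR : 2 * (s : ℝ) ≤ n := by exact_mod_cast hns
  have h3 := hx0 n hn0
  have hlog : 0 < Real.log n := Real.log_pos (by linarith)
  rw [Real.norm_of_nonneg (by positivity), Real.norm_of_nonneg (by positivity),
    show Real.log n ^ (2 : ℝ) = Real.log n ^ 2 by exact_mod_cast Real.rpow_natCast (Real.log n) 2] at h3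
  have hL : lg n = Real.log n / Real.log 2 := rfl
  have hlog2 : (0.69 : ℝ) < Real.log 2 := by
    have := Real.log_two_gt_d9
    linarith
  have hL1 : 1 ≤ lg n := by
    rw [hL, le_div_iff₀ (by linarith), one_mul]
    exact Real.log_le_log (by norm_num) (by linarith)
  have hk3 : (k : ℝ) ≤ 3 * lg n := by nlinarith
  have hk0 : (0 : ℝ) ≤ k := Nat.cast_nonneg k
  have h4 : (k : ℝ) ^ 2 ≤ 9 * (Real.log n ^ 2 / Real.log 2 ^ 2) := by
    have : (k : ℝ) ^ 2 ≤ (3 * lg n) ^ 2 := pow_le_pow_left₀ hk0 hk3 2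
    rw [hL] at this
    calc (k : ℝ) ^ 2 ≤ (3 * (Real.log n / Real.log 2)) ^ 2 := this
      _ = _ := by ring
  have h5 : (2 : ℝ) ^ ((k : ℝ) / 2) ≤ 1.5 * (n : ℝ) ^ (c / 2) := by
    have h6 : (2 : ℝ) ^ ((k : ℝ) / 2) ≤ (2 : ℝ) ^ (lg n * (c / 2) + 1 / 2) :=
      Real.rpow_le_rpow_of_exponent_le (by norm_num) (by linarith)
    have h7 : (2 : ℝ) ^ (lg n * (c / 2) + 1 / 2) = (n : ℝ) ^ (c / 2) * (2 : ℝ) ^ (1 / 2 : ℝ) := by
      rw [Real.rpow_add (by norm_num), Real.rpow_mul (by norm_num)]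
      congr 2
      exact Real.rpow_logb (by norm_num) (by norm_num) hnR
    have h8 : (2 : ℝ) ^ (1 / 2 : ℝ) ≤ 1.5 := by
      rw [← Real.sqrt_eq_rpow]
      rw [Real.sqrt_le_left (by norm_num)]
      norm_num
    have h9 : (0 : ℝ) ≤ (n : ℝ) ^ (c / 2) := by positivity
    rw [h7] at h6
    nlinarith
  have h6 : Real.log n ^ 2 / Real.log 2 ^ 2 ≤ 20 / 9 * Real.log n ^ 2 := by
    rw [div_le_iff₀ (by positivity)]
    have h7 : (0.69 : ℝ) ^ 2 ≤ Real.log 2 ^ 2 := pow_le_pow_left₀ (by norm_num) hlog2.le 2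
    have h8 : (0 : ℝ) ≤ Real.log n ^ 2 := by positivity
    nlinarith
  have h7 : (k : ℝ) ^ 2 ≤ 20 * Real.log n ^ 2 := by linarith
  have h8 : (n : ℝ) ^ (1 - c / 2) * (n : ℝ) ^ (c / 2) = n := by
    rw [← Real.rpow_add hnR]
    simp
  have h9 : (0 : ℝ) ≤ (n : ℝ) ^ (c / 2) := by positivity
  have h10 : Real.log n ^ 2 * (n : ℝ) ^ (c / 2) ≤ 1 / (120 * s) * n := by
    calc Real.log n ^ 2 * (n : ℝ) ^ (c / 2) ≤ 1 / (120 * s) * (n : ℝ) ^ (1 - c / 2) * (n : ℝ) ^ (c / 2) :=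
          mul_le_mul_of_nonneg_right h3 h9
      _ = 1 / (120 * s) * ((n : ℝ) ^ (1 - c / 2) * (n : ℝ) ^ (c / 2)) := by ring
      _ = _ := by rw [h8]
  have h11 : 2 * (k : ℝ) ^ 2 * (2 : ℝ) ^ ((k : ℝ) / 2) ≤ 60 * (Real.log n ^ 2 * (n : ℝ) ^ (c / 2)) := by
    calc 2 * (k : ℝ) ^ 2 * (2 : ℝ) ^ ((k : ℝ) / 2) ≤
          2 * (20 * Real.log n ^ 2) * (1.5 * (n : ℝ) ^ (c / 2)) :=
          mul_le_mul (by linarith) h5 (by positivity) (by positivity)
      _ = _ := by ring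
  have h12 : (n : ℝ) ≤ s * ((n / s : ℕ) : ℝ) + s := by
    have h13 : n ≤ s * (n / s) + s := by
      have h14 := Nat.div_add_mod n s
      have h15 := Nat.mod_lt n (show 0 < s by omega)
      omega
    exact_mod_cast h13
  have h13 : 60 * (1 / (120 * (s : ℝ)) * n) = n / (2 * s) := by
    field_simp
    norm_num
  have h14 : (n : ℝ) / (2 * s) ≤ ((n / s : ℕ) : ℝ) := by
    rw [div_le_iff₀ (by positivity)]
    nlinarith
  linarith

open Classical in
theorem par (c ε : ℝ) (hc : 0 < c) (hc2 : c < 2) (hε : 0 < ε) :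
    ∃ s : ℕ, ∃ n₀ : ℕ, ∀ n ≥ n₀, ∃ k M : ℕ, ∃ A : Fin s → Fin M → Finset (Fin n),
      c * lg n ≤ k ∧ (k : ℝ) ≤ 2 * lg n + 1 ∧ 2 ≤ lg n ∧ (∀ i l, (A i l).card = k) ∧
      (M : ℝ) * (1 / 2) ^ (k.choose 2) ≤ 1 ∧
      avg (fun x => ∑ v, val (Fp A v) x ^ 2) ≤ 3 * k ∧
      avg (fun x => if (∀ i, Z (A i) x ≤ 1) ∧ ∃ i, Z (A i) x = 1 then (0 : ℝ) else 1) ≤ ε := by
  set ε' : ℝ := min ε (1 / 2) with hε'd
  have hε' : 0 < ε' := by positivity
  have hε'1 : ε' ≤ ε := min_le_left _ _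
  have hε'2 : ε' ≤ 1 / 2 := min_le_right _ _
  set Λ : ℝ := Real.log (2 / ε') with hΛd
  have hΛ : 0 < Λ := Real.log_pos (by rw [lt_div_iff₀ hε']; linarith)
  set l0 : ℝ := min (1 / 4) (ε' / (16 * (Λ + 1))) with hl0d
  have hl0 : 0 < l0 := by positivity
  have hl1 : l0 ≤ 1 / 4 := min_le_left _ _
  have hl2 : l0 * (16 * (Λ + 1)) ≤ ε' := by
    rw [← le_div_iff₀ (by positivity)]
    exact min_le_right _ _
  set s : ℕ := ⌈4 / l0 * Λ⌉₊ + 1 with hsd
  have hs1 : 1 ≤ s := by omega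
  have hs2 : 4 / l0 * Λ ≤ s := by
    rw [hsd]
    push_cast
    have := Nat.le_ceil (4 / l0 * Λ)
    linarith
  have hs3 : (s : ℝ) ≤ 4 / l0 * Λ + 2 := by
    rw [hsd]
    push_cast
    have := Nat.ceil_lt_add_one (show 0 ≤ 4 / l0 * Λ by positivity)
    linarith
  obtain ⟨n1, hgrow⟩ := par_growth c hc hc2 s hs1
  set N1 : ℕ := ⌈2 / l0⌉₊ with hN1d
  have hN1 : 2 / l0 ≤ N1 := Nat.le_ceil _
  refine ⟨s, max n1 (max 4 (2 ^ ⌈((N1 : ℝ) + 1) / c⌉₊)), ?_⟩
  intro n hn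
  have hn1 : n1 ≤ n := (le_max_left _ _).trans hn
  have hn4 : 4 ≤ n := ((le_max_left _ _).trans (le_max_right _ _)).trans hn
  have hn5 : 2 ^ ⌈((N1 : ℝ) + 1) / c⌉₊ ≤ n := ((le_max_right _ _).trans (le_max_right _ _)).trans hn
  have hL2 : 2 ≤ lg n := by
    have h1 : (2 : ℝ) = Real.logb 2 4 := by
      rw [show (4 : ℝ) = 2 ^ (2 : ℝ) by norm_num, Real.logb_rpow (by norm_num) (by norm_num)]
    rw [h1]
    exact Real.logb_le_logb_of_le (by norm_num) (by norm_num) (by exact_mod_cast hn4)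
  have hcL : (N1 : ℝ) + 1 ≤ c * lg n := by
    have h1 : (⌈((N1 : ℝ) + 1) / c⌉₊ : ℝ) ≤ lg n := by
      have h2 : ((2 : ℝ) ^ ⌈((N1 : ℝ) + 1) / c⌉₊) ≤ n := by exact_mod_cast hn5
      have h3 := Real.logb_le_logb_of_le (b := 2) (by norm_num) (by positivity) h2
      rw [Real.logb_pow, Real.logb_self_eq_one (by norm_num), mul_one] at h3
      exact h3
    have h2 := (Nat.le_ceil (((N1 : ℝ) + 1) / c)).trans h1
    rw [div_le_iff₀ hc] at h2
    linarith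
  have hcL0 : 0 < c * lg n := by positivity
  set k : ℕ := ⌈c * lg n⌉₊ with hkd
  have hk1 : c * lg n ≤ k := Nat.le_ceil _
  have hk2 : (k : ℝ) ≤ c * lg n + 1 := (Nat.ceil_lt_add_one hcL0.le).le
  have hk3 : 1 ≤ k := by
    have : 0 < k := Nat.ceil_pos.2 hcL0
    omega
  set m : ℕ := k.choose 2 with hmd
  set M : ℕ := ⌊l0 * 2 ^ m⌋₊ with hMd
  have hM1 : (M : ℝ) ≤ l0 * 2 ^ m := Nat.floor_le (by positivity)
  have hM2 : l0 * 2 ^ m < M + 1 := Nat.lt_floor_add_one _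
  have hm : (N1 : ℝ) ≤ (2 : ℝ) ^ m := by
    have h1 : N1 + 1 ≤ k := by
      have : ((N1 : ℝ) + 1) ≤ k := hcL.trans hk1
      exact_mod_cast this
    have h2 : N1 ≤ m := by
      have h3 : k - 1 ≤ k.choose 2 := by
        rw [Nat.choose_two_right]
        rcases Nat.lt_or_ge k 2 with h4 | h4
        · have : k = 1 := by omega
          rw [this]
        · rw [Nat.le_div_iff_mul_le (by norm_num), mul_comm]
          exact Nat.mul_le_mul_right _ h4
      omega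
    have h3 : m < 2 ^ m := Nat.lt_two_pow_self
    have h4 : N1 ≤ 2 ^ m := by omega
    exact_mod_cast h4
  have hpm : (0 : ℝ) < 2 ^ m := by positivity
  have hhalf : (1 / 2 : ℝ) ^ m = (2 ^ m)⁻¹ := by
    rw [one_div, inv_pow]
  set lam : ℝ := M * (1 / 2) ^ m with hlamd
  have hlam1 : lam ≤ l0 := by
    rw [hlamd, hhalf, ← div_eq_mul_inv, div_le_iff₀ hpm]
    exact hM1
  have hlam2 : l0 / 2 ≤ lam := by
    rw [hlamd, hhalf, ← div_eq_mul_inv, le_div_iff₀ hpm]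
    have h1 : 2 ≤ (2 : ℝ) ^ m * l0 := by
      have := hN1.trans hm
      rw [div_le_iff₀ hl0] at this
      exact this
    linarith
  have hlam0 : 0 < lam := by linarith
  have hR : ∀ i : Fin s, (par_V n (n / s) i).card = n / s := fun i =>
    par_card (Nat.mul_div_le n s) i.2
  have hfam : ∀ i : Fin s, ∃ A : Fin M → Finset (Fin n), (∀ l, A l ⊆ par_V n (n / s) i ∧ (A l).card = k) ∧
      ∑ l, ∑ j, (if l ≠ j then (2 : ℝ) ^ ((A l ∩ A j).card.choose 2) else 0) ≤ 2 * (M : ℝ) ^ 2 := by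
    intro i
    have h1 := fam (par_V n (n / s) i) k M hk3 (by rw [hR i]; exact hgrow n hn1 k hk2)
    obtain ⟨A, hA1, hA2⟩ := h1
    refine ⟨A, hA1, ?_⟩
    convert hA2
  choose A hA1 hA2 using hfam
  have hmean : ∀ i, avg (Z (A i)) = lam := fun i => Z_mean (A i) k fun l => (hA1 i l).2
  have hsq : ∀ i, avg (fun x => Z (A i) x ^ 2) ≤ lam + 2 * lam ^ 2 := fun i =>
    Z_sq (A i) k (fun l => (hA1 i l).2) (by convert hA2 i)
  have hdisj : ∀ i j : Fin s, i ≠ j → Disjoint (par_V n (n / s) i) (par_V n (n / s) j) :=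
    fun i j hij => par_disj n _ (fun h => hij (Fin.ext h))
  have hl4 : lam ≤ 1 / 4 := hlam1.trans hl1
  refine ⟨k, M, A, hk1, ?_, hL2, fun i l => (hA1 i l).2, ?_, ?_, ?_⟩
  · nlinarith
  · exact hl4.trans (by norm_num)
  · exact nrm (fun i => par_V n (n / s) i) hdisj A k hA1 lam hlam0 hl4 hmean hsq
  · have h1 := suc (fun i => par_V n (n / s) i) hdisj A k hA1 lam hlam0 hl4 hmean hsq
    have h2 : (1 - lam / 2) ^ s ≤ ε' / 2 := by
      have h3 : (1 - lam / 2) ≤ Real.exp (-(l0 / 4)) := by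
        have := Real.add_one_le_exp (-(l0 / 4))
        linarith
      calc (1 - lam / 2) ^ s ≤ (Real.exp (-(l0 / 4))) ^ s := pow_le_pow_left₀ (by linarith) h3 s
        _ = Real.exp (s * (-(l0 / 4))) := by rw [← Real.exp_nat_mul]
        _ ≤ Real.exp (-Λ) := by
            apply Real.exp_le_exp.2
            have h4 : 4 / l0 * Λ * (l0 / 4) ≤ s * (l0 / 4) :=
              mul_le_mul_of_nonneg_right hs2 (by positivity)
            have h5 : 4 / l0 * Λ * (l0 / 4) = Λ := by field_simp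
            linarith
        _ = ε' / 2 := by
            rw [hΛd, Real.exp_neg, Real.exp_log (by positivity), inv_div]
    have h3 : (s : ℝ) * lam ^ 2 ≤ ε' / 2 := by
      have h4 : lam ^ 2 ≤ l0 ^ 2 := pow_le_pow_left₀ hlam0.le hlam1 2
      calc (s : ℝ) * lam ^ 2 ≤ (4 / l0 * Λ + 2) * l0 ^ 2 :=
            mul_le_mul hs3 h4 (by positivity) (by positivity)
        _ = 4 * Λ * l0 + 2 * l0 ^ 2 := by field_simp
        _ ≤ ε' / 2 := by nlinarith
    linarith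

end LDK
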