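import Pool.Agent.LDK.Chi

/-!
# Pol (difficulty 3): polynomials of degree D are combinations of characters of sets of size at most D

PROOF. Call a function g : Graph n → ℝ D-good if it is of the form in the conclusion. D-good functions are closed under sums and scalar
multiples (add the coefficients). (1) For S with |S| ≤ D the function x ↦ ∏ e ∈ S, (if x e = true then 1 else 0) is D-good: it equals
∏ e ∈ S, (1 - s_e) / 2 with s_e = (if x e = true then -1 else 1), = (1/2)^|S| * ∑ T ∈ S.powerset, (-1)^|T| * chi T x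
(Finset.prod_sub / prod_add / Finset.prod_one_sub...), and T ⊆ S has |T| ≤ D. (2) val p x = ∑ m ∈ p.support, p.coeff m * ∏ e ∈ m.support, (u e)^(m e)
(MvPolynomial.eval_eq) with u e = 1 or 0; (u e)^(m e) = u e for e ∈ m.support (m e ≠ 0), so the monomial is the function of (1) for
S = m.support, and |m.support| ≤ ∑ e ∈ m.support, m e ≤ totalDegree ≤ D (MvPolynomial.le_totalDegree).
-/

namespace LDK

open Finset

variable {n : ℕ}

/-- combinations of characters of sets of size at most `D` -/
def PolGood (D : ℕ) (g : Graph n → ℝ) : Prop :=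
  ∃ a : Finset (Pair n) → ℝ, (∀ S, D < S.card → a S = 0) ∧
    ∀ x, g x = ∑ S : Finset (Pair n), a S * chi S x

theorem pol_zero (D : ℕ) : PolGood (n := n) D (fun _ => 0) :=
  ⟨fun _ => 0, fun _ _ => rfl, fun x => by simp⟩

theorem pol_add {D : ℕ} {g h : Graph n → ℝ} (hg : PolGood D g) (hh : PolGood D h) :
    PolGood D (fun x => g x + h x) := by
  obtain ⟨a, ha, hax⟩ := hg
  obtain ⟨b, hb, hbx⟩ := hh
  refine ⟨fun S => a S + b S, fun S hS => ?_, fun x => ?_⟩
  · show a S + b S = 0
    rw [ha S hS, hb S hS, add_zero]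
  · simp only
    rw [hax, hbx, ← sum_add_distrib]
    exact sum_congr rfl fun S _ => by ring

theorem pol_smul {D : ℕ} {g : Graph n → ℝ} (c : ℝ) (hg : PolGood D g) : PolGood D (fun x => c * g x) := by
  obtain ⟨a, ha, hax⟩ := hg
  refine ⟨fun S => c * a S, fun S hS => ?_, fun x => ?_⟩
  · show c * a S = 0
    rw [ha S hS, mul_zero]
  · simp only
    rw [hax, mul_sum]
    exact sum_congr rfl fun S _ => by ring

theorem pol_sum {ι : Type*} {D : ℕ} (s : Finset ι) (g : ι → Graph n → ℝ) (hg : ∀ i ∈ s, PolGood D (g i)) :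
    PolGood D (fun x => ∑ i ∈ s, g i x) := by
  classical
  induction s using Finset.induction_on with
  | empty => simpa using pol_zero D
  | insert i s hi ih =>
    have h1 : (fun x => ∑ j ∈ insert i s, g j x) = fun x => g i x + ∑ j ∈ s, g j x := by
      funext x
      rw [sum_insert hi]
    rw [h1]
    exact pol_add (hg i (mem_insert_self i s)) (ih fun j hj => hg j (mem_insert_of_mem hj))

theorem pol_chi {D : ℕ} (T : Finset (Pair n)) (hT : T.card ≤ D) : PolGood D (chi T) := by
  classical
  refine ⟨fun S => if S = T then 1 else 0, fun S hS => ?_, fun x => ?_⟩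
  · apply if_neg
    rintro rfl
    omega
  · simp

theorem pol_mono {D : ℕ} (S : Finset (Pair n)) (hS : S.card ≤ D) :
    PolGood D (fun x => ∏ e ∈ S, (if x e = true then (1 : ℝ) else 0)) := by
  classical
  have h1 : (fun x : Graph n => ∏ e ∈ S, (if x e = true then (1 : ℝ) else 0)) = fun x =>
      ∑ T ∈ S.powerset, ((-1 / 2 : ℝ) ^ T.card * (1 / 2) ^ (S \ T).card) * chi T x := by
    funext x
    have h2 : ∀ e ∈ S, (if x e = true then (1 : ℝ) else 0) =
        (-1 / 2 : ℝ) * (if x e = true then (-1 : ℝ) else 1) + 1 / 2 := by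
      intro e _
      split_ifs <;> norm_num
    rw [prod_congr rfl h2, prod_add]
    apply sum_congr rfl
    intro T _
    rw [prod_mul_distrib, prod_const, prod_const]
    unfold chi
    ring
  rw [h1]
  refine pol_sum _ _ fun T hT => pol_smul _ (pol_chi T ?_)
  exact (card_le_card (mem_powerset.1 hT)).trans hS

theorem pol_expand (p : MvPolynomial (Pair n) ℝ) (D : ℕ) (hD : p.totalDegree ≤ D) :
    ∃ a : Finset (Pair n) → ℝ, (∀ S, D < S.card → a S = 0) ∧
      ∀ x, val p x = ∑ S : Finset (Pair n), a S * chi S x := by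
  classical
  have h1 : (fun x : Graph n => val p x) = fun x => ∑ m ∈ p.support, p.coeff m *
      ∏ e ∈ m.support, (if x e = true then (1 : ℝ) else 0) := by
    funext x
    unfold val
    rw [MvPolynomial.eval_eq]
    apply sum_congr rfl
    intro m _
    congr 1
    apply prod_congr rfl
    intro e he
    have h2 : m e ≠ 0 := Finsupp.mem_support_iff.1 he
    split_ifs
    · rw [one_pow]
    · rw [zero_pow h2]
  have h3 : PolGood D (fun x : Graph n => val p x) := by
    rw [h1]
    refine pol_sum _ _ fun m hm => pol_smul _ (pol_mono m.support ?_)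
    calc m.support.card = ∑ e ∈ m.support, 1 := by simp
      _ ≤ ∑ e ∈ m.support, m e := sum_le_sum fun e he =>
          Nat.one_le_iff_ne_zero.2 (Finsupp.mem_support_iff.1 he)
      _ = m.sum fun _ e => e := rfl
      _ ≤ p.totalDegree := MvPolynomial.le_totalDegree hm
      _ ≤ D := hD
  exact h3

end LDK
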