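import Pool.Agent.LDK.Basic

/-!
# Zed (difficulty 2): the first two moments of the number of cliques in a family

PROOFS. Z_mean: avg_sum, avg_clique, card_inside. Z_sq: Z^2 = ∑ i, ∑ j, Y_i Y_j, and Y_i Y_i = Y_i; for i ≠ j: Y_i Y_j is the indicator that all pairs of
inside (A i) ∪ inside (A j) are edges, so its average is (1/2)^(inside (A i) ∪ inside (A j)).card (avg_prod with a = 1, b = 0, as in the proof of avg_clique)
and (inside (A i) ∪ inside (A j)).card = 2 m - ((A i ∩ A j).card.choose 2) (card_union, inside_inter, card_inside), m = k.choose 2; so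
avg (Y_i Y_j) = (1/2)^(2m) * 2^((A i ∩ A j).card.choose 2). Sum over i ≠ j: ≤ (1/2)^(2m) * 2 M^2.
Z_ineq: with y_i ∈ {0,1} the sum is a natural number; case distinction 0, 1, ≥ 2 (z(z-1)/2 ≥ 0, ≥ 1 for z ≥ 2, 1 - z + z(z-1)/2 ≥ 0).
-/

namespace LDK

open Finset

variable {n M : ℕ}

open Classical in
/-- Indicator of a clique. -/
noncomputable def Y (A : Finset (Fin n)) (x : Graph n) : ℝ := if IsClique x A then 1 else 0

/-- Number of cliques in a family. -/
noncomputable def Z (A : Fin M → Finset (Fin n)) (x : Graph n) : ℝ := ∑ i, Y (A i) x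

theorem zed_Y_prod (A : Finset (Fin n)) (x : Graph n) :
    Y A x = ∏ e ∈ inside A, (if x e = true then (1 : ℝ) else 0) := by
  classical
  unfold Y
  by_cases hx : IsClique x A
  · rw [if_pos hx, prod_eq_one]
    intro e he
    exact if_pos (hx e (mem_inside.1 he))
  · rw [if_neg hx]
    unfold IsClique at hx
    push Not at hx
    obtain ⟨e, he, h1⟩ := hx
    rw [prod_eq_zero (i := e) (mem_inside.2 he) (if_neg h1)]

theorem zed_Y_zero_one (A : Finset (Fin n)) (x : Graph n) : Y A x = 0 ∨ Y A x = 1 := by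
  unfold Y
  split_ifs
  · exact Or.inr rfl
  · exact Or.inl rfl

theorem zed_Y_mul (A B : Finset (Fin n)) (x : Graph n) :
    Y A x * Y B x = ∏ e ∈ inside A ∪ inside B, (if x e = true then (1 : ℝ) else 0) := by
  classical
  by_cases hA : IsClique x A
  · by_cases hB : IsClique x B
    · have h1 : Y A x = 1 := by unfold Y; exact if_pos hA
      have h2 : Y B x = 1 := by unfold Y; exact if_pos hB
      rw [h1, h2, mul_one, prod_eq_one]
      intro e he
      rcases mem_union.1 he with h | h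
      · exact if_pos (hA e (mem_inside.1 h))
      · exact if_pos (hB e (mem_inside.1 h))
    · have h2 : Y B x = 0 := by unfold Y; exact if_neg hB
      rw [h2, mul_zero]
      unfold IsClique at hB
      push Not at hB
      obtain ⟨e, he, h1⟩ := hB
      exact (prod_eq_zero (i := e) (mem_union_right _ (mem_inside.2 he)) (if_neg h1)).symm
  · have h2 : Y A x = 0 := by unfold Y; exact if_neg hA
    rw [h2, zero_mul]
    unfold IsClique at hA
    push Not at hA
    obtain ⟨e, he, h1⟩ := hA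
    exact (prod_eq_zero (i := e) (mem_union_left _ (mem_inside.2 he)) (if_neg h1)).symm

theorem zed_avg_Y (A : Finset (Fin n)) : avg (Y A) = (1 / 2) ^ (inside A).card := by
  have h := avg_prod (n := n) (inside A) 1 0
  rw [add_zero] at h
  rw [← h]
  exact avg_congr fun x => zed_Y_prod A x

theorem zed_avg_mul (A B : Finset (Fin n)) :
    avg (fun x => Y A x * Y B x) = (1 / 2) ^ (inside A ∪ inside B).card := by
  have h := avg_prod (n := n) (inside A ∪ inside B) 1 0
  rw [add_zero] at h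
  rw [← h]
  exact avg_congr fun x => zed_Y_mul A B x

theorem zed_avg_pair (A B : Finset (Fin n)) (k : ℕ) (hA : A.card = k) (hB : B.card = k) :
    avg (fun x => Y A x * Y B x) =
      (1 / 2) ^ (2 * k.choose 2) * 2 ^ ((A ∩ B).card.choose 2) := by
  rw [zed_avg_mul]
  have h1 := card_union_add_card_inter (inside A) (inside B)
  rw [← inside_inter, card_inside, card_inside, card_inside, hA, hB] at h1
  have h2 : 2 * k.choose 2 = (inside A ∪ inside B).card + (A ∩ B).card.choose 2 := by omega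
  rw [h2, pow_add, mul_assoc, ← mul_pow]
  norm_num

theorem Z_mean (A : Fin M → Finset (Fin n)) (k : ℕ) (hk : ∀ i, (A i).card = k) :
    avg (Z A) = M * (1 / 2) ^ (k.choose 2) := by
  unfold Z
  rw [avg_sum univ (fun i x => Y (A i) x)]
  rw [sum_congr rfl fun i _ => show avg (fun x => Y (A i) x) = (1 / 2) ^ (k.choose 2) by
    rw [← hk i, ← card_inside]
    exact zed_avg_Y (A i)]
  rw [sum_const, card_univ, Fintype.card_fin, nsmul_eq_mul]

theorem Z_sq (A : Fin M → Finset (Fin n)) (k : ℕ) (hk : ∀ i, (A i).card = k)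
    (hA : ∑ i, ∑ j, (if i ≠ j then (2 : ℝ) ^ ((A i ∩ A j).card.choose 2) else 0) ≤
      2 * (M : ℝ) ^ 2) :
    avg (fun x => Z A x ^ 2) ≤
      M * (1 / 2) ^ (k.choose 2) + 2 * ((M : ℝ) * (1 / 2) ^ (k.choose 2)) ^ 2 := by
  have h1 : avg (fun x => Z A x ^ 2) = ∑ i, ∑ j, avg (fun x => Y (A i) x * Y (A j) x) := by
    have h2 : ∀ x, Z A x ^ 2 = ∑ i, ∑ j, Y (A i) x * Y (A j) x := by
      intro x
      unfold Z
      rw [sq, sum_mul_sum]
    rw [avg_congr h2, avg_sum univ (fun i x => ∑ j, Y (A i) x * Y (A j) x)]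
    apply sum_congr rfl
    intro i _
    exact avg_sum univ (fun j x => Y (A i) x * Y (A j) x)
  have h3 : ∀ i j, avg (fun x => Y (A i) x * Y (A j) x) =
      (if i = j then (1 / 2 : ℝ) ^ (k.choose 2) else 0) + (1 / 2) ^ (2 * k.choose 2) *
        (if i ≠ j then (2 : ℝ) ^ ((A i ∩ A j).card.choose 2) else 0) := by
    intro i j
    by_cases hij : i = j
    · subst hij
      rw [if_pos rfl, if_neg (by simp), mul_zero, add_zero, zed_avg_mul, union_self, card_inside,
        hk i]
    · rw [if_neg hij, if_pos hij, zero_add, zed_avg_pair _ _ k (hk i) (hk j)]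
  rw [h1]
  have h4 : ∑ i, ∑ j, avg (fun x => Y (A i) x * Y (A j) x) =
      M * (1 / 2 : ℝ) ^ (k.choose 2) + (1 / 2) ^ (2 * k.choose 2) *
        ∑ i, ∑ j, (if i ≠ j then (2 : ℝ) ^ ((A i ∩ A j).card.choose 2) else 0) := by
    rw [sum_congr rfl fun i _ => sum_congr rfl fun j _ => h3 i j]
    rw [sum_congr rfl fun i _ => sum_add_distrib, sum_add_distrib]
    congr 1
    · rw [sum_congr rfl fun i _ => show (∑ j, if i = j then (1 / 2 : ℝ) ^ (k.choose 2) else 0) =
        (1 / 2 : ℝ) ^ (k.choose 2) by simp]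
      rw [sum_const, card_univ, Fintype.card_fin, nsmul_eq_mul]
    · rw [mul_sum]
      exact sum_congr rfl fun i _ => by rw [mul_sum]
  rw [h4]
  have h5 : (1 / 2 : ℝ) ^ (2 * k.choose 2) * ∑ i, ∑ j,
      (if i ≠ j then (2 : ℝ) ^ ((A i ∩ A j).card.choose 2) else 0) ≤
      (1 / 2 : ℝ) ^ (2 * k.choose 2) * (2 * (M : ℝ) ^ 2) :=
    mul_le_mul_of_nonneg_left hA (by positivity)
  have h6 : (1 / 2 : ℝ) ^ (2 * k.choose 2) * (2 * (M : ℝ) ^ 2) =
      2 * ((M : ℝ) * (1 / 2) ^ (k.choose 2)) ^ 2 := by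
    rw [pow_mul']
    ring
  linarith

/-- `Z` takes natural values. -/
theorem Z_nat (A : Fin M → Finset (Fin n)) (x : Graph n) : ∃ m : ℕ, Z A x = m := by
  classical
  refine ⟨(univ.filter fun i => IsClique x (A i)).card, ?_⟩
  unfold Z Y
  rw [card_filter]
  push_cast
  rfl

/-- Indicator of `Z ≥ 2`. -/
theorem Z_two (A : Fin M → Finset (Fin n)) (x : Graph n) [Decidable (Z A x ≤ 1)] :
    (if Z A x ≤ 1 then (0 : ℝ) else 1) ≤ (Z A x ^ 2 - Z A x) / 2 := by
  obtain ⟨m, hm⟩ := Z_nat A x
  split_ifs with h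
  · rw [hm] at h ⊢
    have h1 : m ≤ 1 := by exact_mod_cast h
    interval_cases m <;> norm_num
  · rw [hm] at h ⊢
    have h1 : 1 < m := by
      by_contra h2
      exact h (by exact_mod_cast not_lt.1 h2)
    have h2 : (2 : ℝ) ≤ m := by exact_mod_cast h1
    nlinarith

/-- Indicator of `Z = 0`. -/
theorem Z_zero (A : Fin M → Finset (Fin n)) (x : Graph n) [Decidable (Z A x = 0)] :
    (if Z A x = 0 then (1 : ℝ) else 0) ≤ 1 - Z A x + (Z A x ^ 2 - Z A x) / 2 := by
  obtain ⟨m, hm⟩ := Z_nat A x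
  split_ifs with h
  · rw [h]
    norm_num
  · rw [hm] at h ⊢
    rcases Nat.lt_or_ge m 3 with h1 | h1
    · interval_cases m
      · exact absurd (by norm_num) h
      · norm_num
      · norm_num
    · have h2 : (3 : ℝ) ≤ m := by exact_mod_cast h1
      nlinarith

end LDK
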